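import Pool.Agent.Zk29.Rat.MassR

/-!
# The mass lemma along a critical orbit
-/

set_option autoImplicit false
open Set Filter Topology Metric MeasureTheory Polynomial
open scoped ENNReal

namespace Pool.Agent.Zk29.Rat

open Pool.Agent.H792R2.CE

variable {P Q : ℂ[X]} {U : Set ℂ} {d : ℕ}

/-- The functional of the critical orbit. -/
noncomputable def ell (P Q : ℂ[X]) (c : ℂ) (a α : ℕ → ℂ) (J : ℕ) : ℂ[X] →ₗ[ℂ] ℂ :=
  (Q.eval c ^ 2)⁻¹ • leval c + ∑ j ∈ Finset.range J, (α j / (wr P Q).eval (a j)) • leval (a j)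

lemma ell_apply (c : ℂ) (a α : ℕ → ℂ) (J : ℕ) (S : ℂ[X]) : ell P Q c a α J S =
    S.eval c / Q.eval c ^ 2 + ∑ j ∈ Finset.range J, α j / (wr P Q).eval (a j) * S.eval (a j) := by
  unfold ell
  rw [LinearMap.add_apply, LinearMap.smul_apply, LinearMap.sum_apply]
  simp only [LinearMap.smul_apply, leval_apply, smul_eq_mul]
  rw [inv_mul_eq_div]

/-- The orbit of the critical point `c` until time `J`. -/
structure Orb (P Q : ℂ[X]) (c : ℂ) (a α : ℕ → ℂ) (J : ℕ) : Prop where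
  c0 : (wr P Q).eval c = 0
  qc : Q.eval c ≠ 0
  a0 : a 0 = rf P Q c
  as : ∀ j < J, a (j + 1) = rf P Q (a j)
  α0 : α 0 = 1
  αs : ∀ j < J, α (j + 1) = α j * (Q.eval (a j) ^ 2 / (wr P Q).eval (a j))
  qa : ∀ j < J, Q.eval (a j) ≠ 0
  na : ∀ j < J, (wr P Q).eval (a j) ≠ 0

variable {c : ℂ} {a α : ℕ → ℂ} {J : ℕ}

theorem push_orb (D : Dat P Q d) (O : Orb P Q c a α J) {x : ℂ} (hx : Gen P Q d x)
    (hxa : ∀ j, x ≠ a j) : push P Q (QQ J a α) x - QQ J a α x =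
      ell P Q c a α J (SP P Q d x) + α J / (x - a J) := by
  have h1 : push P Q (QQ J a α) x = ∑ j ∈ Finset.range J, (α (j + 1) / (x - a (j + 1)) +
      α j / (wr P Q).eval (a j) * (SP P Q d x).eval (a j)) := by
    rw [push_sum]
    refine Finset.sum_congr rfl fun j hj => ?_
    rw [Finset.mem_range] at hj
    have h2 : x ≠ rf P Q (a j) := by rw [← O.as j hj]; exact hxa (j + 1)
    rw [push_reg D hx (O.qa j hj) (O.na j hj) h2, O.αs j hj, O.as j hj]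
    ring
  have h2 : QQ J a α x + α J / (x - a J) = (∑ j ∈ Finset.range J, α (j + 1) / (x - a (j + 1))) +
      1 / (x - a 0) := by
    have h3 := Finset.sum_range_succ' (fun j => α j / (x - a j)) J
    have h4 := Finset.sum_range_succ (fun j => α j / (x - a j)) J
    rw [O.α0] at h3
    unfold QQ
    rw [← h3, ← h4]
  have h3 : (SP P Q d x).eval c / Q.eval c ^ 2 = -(1 / (x - a 0)) := by
    have h4 : x ≠ rf P Q c := by rw [← O.a0]; exact hxa 0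
    have h5 := pow_ne_zero 2 O.qc
    rw [SP_crit D hx O.qc O.c0 h4, O.a0]
    have h6 := O.qc
    field_simp
  rw [ell_apply, h1, h3, Finset.sum_add_distrib]
  linear_combination -h2

/-- The critical orbit of the rational map. -/
theorem Orb.of {J : ℕ} (hc : (wr P Q).eval c = 0) (hQ : ∀ j ≤ J, Q.eval ((rf P Q)^[j] c) ≠ 0)
    (hN : ∀ j < J, (wr P Q).eval ((rf P Q)^[j] (rf P Q c)) ≠ 0) :
    Orb P Q c (fun j => (rf P Q)^[j] (rf P Q c))
      (fun j => (deriv ((rf P Q)^[j]) (rf P Q c))⁻¹) J := by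
  have hQ' : ∀ j < J, Q.eval ((rf P Q)^[j] (rf P Q c)) ≠ 0 := by
    intro j hj
    have := hQ (j + 1) (by omega)
    rwa [Function.iterate_succ_apply] at this
  refine ⟨hc, hQ 0 (Nat.zero_le _), rfl, fun j _ => Function.iterate_succ_apply' _ _ _, ?_, ?_,
    hQ', hN⟩
  · simp only [Function.iterate_zero]
    rw [deriv_id, inv_one]
  · intro j hj
    rw [rf_iter_deriv_succ j (fun i hi => hQ' i (by omega)), mul_inv, inv_div, mul_comm]

/-- The functional of the critical orbit in terms of the derivatives. -/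
theorem ell_eq {J : ℕ} (hc : (wr P Q).eval c = 0) (hQ : ∀ j ≤ J, Q.eval ((rf P Q)^[j] c) ≠ 0)
    (hN : ∀ j < J, (wr P Q).eval ((rf P Q)^[j] (rf P Q c)) ≠ 0) (S : ℂ[X]) :
    ell P Q c (fun j => (rf P Q)^[j] (rf P Q c))
      (fun j => (deriv ((rf P Q)^[j]) (rf P Q c))⁻¹) J S = ∑ j ∈ Finset.range (J + 1),
        S.eval ((rf P Q)^[j] c) / Q.eval ((rf P Q)^[j] c) ^ 2 /
          deriv ((rf P Q)^[j]) (rf P Q c) := by
  have O := Orb.of hc hQ hN
  rw [ell_apply, Finset.sum_range_succ', add_comm]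
  congr 1
  · refine Finset.sum_congr rfl fun j hj => ?_
    rw [Finset.mem_range] at hj
    have h1 := O.αs j hj
    have h2 : (deriv ((rf P Q)^[j + 1]) (rf P Q c)) =
        ((deriv ((rf P Q)^[j]) (rf P Q c))⁻¹ *
          (Q.eval ((rf P Q)^[j] (rf P Q c)) ^ 2 / (wr P Q).eval ((rf P Q)^[j] (rf P Q c))))⁻¹ := by
      rw [← h1, inv_inv]
    rw [Function.iterate_succ_apply (rf P Q) j c, h2, div_inv_eq_mul]
    have h3 := O.qa j hj
    field_simp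
  · simp

theorem lintegral_pole (T : Trap P Q U) : ∃ C : ℝ, 0 ≤ C ∧ ∀ β a : ℂ,
    ∫⁻ x in U, ‖β / (x - a)‖ₑ ≤ ENNReal.ofReal (C * ‖β‖) := by
  obtain ⟨R, hR⟩ := T.bdd.exists_norm_le
  have hUR : U ⊆ ball 0 (R + 1) := by
    intro z hz
    rw [mem_ball_zero_iff]
    have := hR z hz
    linarith
  obtain ⟨Cn, hCn, hk⟩ := D3a_kernel (R + 1)
  refine ⟨Cn.toReal, ENNReal.toReal_nonneg, fun β a => ?_⟩
  have hm : Measurable fun w : ℂ => ‖(w - a)⁻¹‖ₑ := (measurable_id.sub_const a).inv.enorm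
  calc ∫⁻ x in U, ‖β / (x - a)‖ₑ = ∫⁻ x in U, ‖β‖ₑ * ‖(x - a)⁻¹‖ₑ := by
        refine lintegral_congr fun x => ?_
        rw [div_eq_mul_inv, enorm_mul]
    _ = ‖β‖ₑ * ∫⁻ x in U, ‖(x - a)⁻¹‖ₑ := lintegral_const_mul _ hm
    _ ≤ ‖β‖ₑ * Cn := by
        gcongr
        exact (lintegral_mono_set hUR).trans (hk a)
    _ = ENNReal.ofReal (Cn.toReal * ‖β‖) := by
        rw [ENNReal.ofReal_mul ENNReal.toReal_nonneg, ENNReal.ofReal_toReal hCn, ofReal_norm,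
          mul_comm]

/-- **The mass lemma along a critical orbit.** -/
theorem mass_orb (T : Trap P Q U) (D : Dat P Q d) : ∃ A : ℝ, 1 ≤ A ∧
    ∀ (c : ℂ) (a α : ℕ → ℂ) (J' : ℕ), Orb P Q c a α (J' + 1) →
    (∀ j < J' + 1, a j ∈ KR P Q U) →
    ∀ W : ℝ, 1 ≤ W → 1 + ∑ j ∈ Finset.range J', ‖α (j + 1)‖ ≤ Real.exp W →
    ∀ κ : ℝ, 0 < κ → (∀ i ≤ 2 * d, ‖ell P Q c a α (J' + 1) (X ^ i)‖ ≤ κ) →
    ∀ δ : ℝ, 0 < δ → δ ≤ 1 → (∀ j < J', δ ≤ ‖a (j + 1) - a 0‖) →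
    ∀ M : ℕ, 1 ≤ M → A * W ^ A * dg (UR P Q U) (a 0) M ≤ δ →
      δ ≤ A * W ^ A * (M : ℝ) ^ 2 * (κ + ‖α (J' + 1)‖) := by
  obtain ⟨A, hA1, hA⟩ := mass_r T D
  obtain ⟨C, hC0, hC⟩ := lintegral_pole T
  obtain ⟨h, L, c₀, hh0, hh1, hL0, hc₀, hc₁, hG, hdg⟩ := T.geo
  have hgen := gen_ae D
  refine ⟨A * (C + 1), by nlinarith, ?_⟩
  intro c a α J' O haK W hW1 hW κ hκ hell δ hδ hδ1 hsep M hM hx
  have hW0 : 0 < W := by linarith
  have hAA : A ≤ A * (C + 1) := le_mul_of_one_le_right (by linarith) (by linarith)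
  have hWA : W ^ A ≤ W ^ (A * (C + 1)) := Real.rpow_le_rpow_of_exponent_le hW1 hAA
  have hWA0 : 0 < W ^ A := Real.rpow_pos_of_pos hW0 A
  have hWA0' : 0 < W ^ (A * (C + 1)) := Real.rpow_pos_of_pos hW0 _
  have hA0 : 0 < A := by linarith
  have hd0 := hG.pos (haK 0 (by omega)) M
  have key := hA J' a α haK O.α0 W hW1 hW (ell P Q c a α (J' + 1)) κ (C * ‖α (J' + 1)‖)
    (fun x => ‖α (J' + 1) / (x - a (J' + 1))‖ₑ) hκ (by positivity) hell (by
      have h1 : ∀ᵐ x : ℂ, ∀ j, x ≠ a j := by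
        rw [ae_all_iff]
        intro j
        rw [ae_iff]
        simp
      filter_upwards [hgen, h1] with x hx hxa _
      rw [push_orb D O hx hxa, add_sub_cancel_left]) (hC _ _) δ hδ hδ1 hsep M hM (by
      refine le_trans ?_ hx
      gcongr)
  refine key.trans ?_
  have h6 : κ + C * ‖α (J' + 1)‖ ≤ (C + 1) * (κ + ‖α (J' + 1)‖) := by
    have := norm_nonneg (α (J' + 1))
    nlinarith
  calc A * W ^ A * (M : ℝ) ^ 2 * (κ + C * ‖α (J' + 1)‖)
      ≤ A * W ^ (A * (C + 1)) * (M : ℝ) ^ 2 * ((C + 1) * (κ + ‖α (J' + 1)‖)) := by gcongr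
    _ = A * (C + 1) * W ^ (A * (C + 1)) * (M : ℝ) ^ 2 * (κ + ‖α (J' + 1)‖) := by ring

end Pool.Agent.Zk29.Rat
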