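import Pool.Agent.Zk29.Rat.Dim

/-!
# The bound for the number of the independent invariant line fields of a polynomial
-/

set_option autoImplicit false
open Set Filter Topology Metric MeasureTheory Polynomial
open scoped ENNReal

namespace Pool.Agent.Zk29.Rat

open Pool.Agent.H792R2.CE

variable {P : ℂ[X]} {d : ℕ} {R : ℝ}

lemma ell_bound {c : ℂ} {a α : ℕ → ℂ} {J : ℕ} (O : Orb P 1 c a α J) {p : ℂ[X]} {K : Set ℂ} {Cq : ℝ}
    (hp : ∀ z ∈ K, ‖p.eval z‖ ≤ Cq) (hc : c ∈ K) (ha : ∀ j < J, a j ∈ K) :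
    ‖ell P 1 c a α J p‖ ≤ Cq * (1 + ∑ j ∈ Finset.range J, ‖α (j + 1)‖) := by
  rw [ell_apply, eval_one, one_pow, div_one, mul_add, mul_one, Finset.mul_sum]
  refine (norm_add_le _ _).trans (add_le_add (hp c hc) ?_)
  refine (norm_sum_le _ _).trans (Finset.sum_le_sum fun j hj => ?_)
  rw [Finset.mem_range] at hj
  have h1 := O.αs j hj
  rw [eval_one, one_pow, mul_one_div] at h1
  rw [← h1, norm_mul, mul_comm]
  have h2 := hp _ (ha j hj)
  gcongr

/-- The critical orbit of a polynomial. -/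
theorem orb_Orb {c : ℂ} (hc : (derivative P).eval c = 0) {J : ℕ}
    (hJ : deriv ((fun w : ℂ => P.eval w)^[J]) (P.eval c) ≠ 0) :
    Orb P 1 c (orb P (P.eval c)) (dl P (P.eval c)) J := by
  have h1 : ∀ n j, j < n → deriv ((fun w : ℂ => P.eval w)^[n]) (P.eval c) ≠ 0 →
      (derivative P).eval (orb P (P.eval c) j) ≠ 0 := by
    intro n
    induction n with
    | zero => intro j hj; omega
    | succ n ih =>
      intro j hj h
      rw [deriv_iter_succ] at h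
      rcases Nat.lt_succ_iff_lt_or_eq.1 hj with h2 | h2
      · exact ih j h2 (right_ne_zero_of_mul h)
      · rw [h2]
        exact left_ne_zero_of_mul h
  refine ⟨by rw [wr_one]; exact hc, by simp, by rw [rf_one]; rfl, fun j _ => ?_, dl_zero _,
    fun j _ => ?_, fun j _ => by simp, fun j hj => by rw [wr_one]; exact h1 J j hj hJ⟩
  · rw [rf_one]
    exact orb_succ _ _
  · rw [dl_succ, wr_one, eval_one, one_pow]

lemma orb_KR {v : ℂ} (hv : v ∈ KR P 1 (ball 0 R)) (j : ℕ) : orb P v j ∈ KR P 1 (ball 0 R) := by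
  rw [mem_KR] at hv ⊢
  intro k
  have h1 := hv (k + j)
  rwa [Function.iterate_add_apply] at h1

/-- The hypothesis on the good critical values at the scale `ε`. -/
def GoodAt (P : ℂ[X]) (R B ε : ℝ) {g : ℕ} (v : Fin g → ℂ) : Prop :=
  ∃ (J : Fin g → ℕ) (M : ℕ) (δ W : ℝ), (∀ i, 1 ≤ J i) ∧ 1 ≤ M ∧ 0 < δ ∧ δ ≤ 1 ∧ 1 ≤ W ∧
    ∑ i, ∑ j ∈ Finset.range (J i), ‖dl P (v i) j‖ ≤ Real.exp W ∧
    (∀ i k j, j < J i → (i ≠ k ∨ j ≠ 0) → δ ≤ ‖orb P (v i) j - v k‖) ∧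
    (∀ k, B * W ^ B * dg (UR P 1 (ball 0 R)) (v k) M ≤ δ) ∧
    ∀ i, W ^ B * (M : ℝ) ^ 2 ≤ ε * δ * ‖deriv ((fun w : ℂ => P.eval w)^[J i]) (v i)‖

/-- The combinations of the functionals. -/
theorem lam_bound {m d : ℕ} (cc : Fin m → ℂ) : ∃ C' : ℝ, 1 ≤ C' ∧ ∀ B : Fin m → ℂ, ∀ l ≤ 2 * d,
    ‖(∑ u, B u • leval (cc u) : ℂ[X] →ₗ[ℂ] ℂ) (X ^ l)‖ ≤ C' * ‖B‖ := by
  refine ⟨1 + ∑ u, ∑ l ∈ Finset.range (2 * d + 1), ‖cc u‖ ^ l, ?_, fun B l hl => ?_⟩
  · have : 0 ≤ ∑ u, ∑ l ∈ Finset.range (2 * d + 1), ‖cc u‖ ^ l := by positivity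
    linarith
  · rw [LinearMap.sum_apply]
    refine (norm_sum_le _ _).trans ?_
    have h1 : ∀ u ∈ (Finset.univ : Finset (Fin m)), ‖(B u • leval (cc u) : ℂ[X] →ₗ[ℂ] ℂ) (X ^ l)‖ ≤
        (∑ l ∈ Finset.range (2 * d + 1), ‖cc u‖ ^ l) * ‖B‖ := by
      intro u _
      rw [LinearMap.smul_apply, leval_apply, eval_pow, eval_X, norm_smul, norm_pow, mul_comm]
      gcongr
      · exact Finset.single_le_sum (f := fun l => ‖cc u‖ ^ l) (fun _ _ => by positivity)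
          (Finset.mem_range.2 (by omega))
      · exact norm_le_pi_norm B u
    refine (Finset.sum_le_sum h1).trans ?_
    rw [← Finset.sum_mul]
    gcongr
    linarith

end Pool.Agent.Zk29.Rat
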