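import Pool.Agent.Zk29.Rat.EscO

/-!
# The independence of the escaping critical orbits
-/

set_option autoImplicit false
open Set Filter Topology Metric MeasureTheory Polynomial
open scoped ENNReal

namespace Pool.Agent.Zk29.Rat

open Pool.Agent.H792R2.CE

variable {P : ℂ[X]} {d : ℕ} {R : ℝ}

open Classical in
/-- The residue at `z`. -/
noncomputable def res (P : ℂ[X]) (v z : ℂ) (J : ℕ) : ℂ :=
  ∑ j ∈ (Finset.range J).filter (fun j => orb P v j = z), dl P v j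

theorem Esc.mono (hE : Esc P R) {R' : ℝ} (h : R ≤ R') : Esc P R' :=
  ⟨hE.one.trans h, fun z hz => hE.big z (h.trans hz), fun z hz => hE.der z (h.trans hz)⟩

lemma orb_tendsto (hE : Esc P R) {v : ℂ} {k : ℕ} (hk : R ≤ ‖orb P v k‖) :
    Tendsto (fun j => ‖orb P v j‖) atTop atTop := by
  rw [← tendsto_add_atTop_iff_nat k]
  refine tendsto_atTop_mono (fun n => ?_) tendsto_natCast_atTop_atTop
  rw [orb_add]
  have h1 := (far hE hk n).2
  have h2 := hE.one
  have h3 : (n : ℝ) ≤ 2 ^ n := by exact_mod_cast n.lt_two_pow_self.le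
  have h4 : (1 : ℝ) ≤ 2 ^ n := one_le_pow₀ (by norm_num)
  nlinarith

lemma orb_ne (hE : Esc P R) {v : ℂ} {k : ℕ} (hk : R ≤ ‖orb P v k‖) (z : ℂ) :
    ∃ J₁ : ℕ, ∀ j, J₁ ≤ j → orb P v j ≠ z ∧ 1 ≤ ‖orb P v j - z‖ := by
  obtain ⟨J₁, hJ₁⟩ := Filter.eventually_atTop.1
    ((orb_tendsto hE hk).eventually (eventually_ge_atTop (‖z‖ + 1)))
  refine ⟨J₁, fun j hj => ?_⟩
  have h1 : ‖z‖ + 1 ≤ ‖orb P v j‖ := hJ₁ j hj
  have h2 := norm_sub_norm_le (orb P v j) z
  have h3 : 1 ≤ ‖orb P v j - z‖ := by linarith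
  refine ⟨fun h4 => ?_, h3⟩
  rw [h4, sub_self, norm_zero] at h3
  linarith

lemma orb_dist (hE : Esc P R) {v : ℂ} {k : ℕ} (hk : R ≤ ‖orb P v k‖) (z : ℂ) :
    ∃ ρ : ℝ, 0 < ρ ∧ ∀ j, orb P v j ≠ z → ρ ≤ ‖orb P v j - z‖ := by
  obtain ⟨J₁, hJ₁⟩ := orb_ne hE hk z
  have h1 : ∀ n : ℕ, ∃ ρ : ℝ, 0 < ρ ∧ ρ ≤ 1 ∧ ∀ j < n, orb P v j ≠ z → ρ ≤ ‖orb P v j - z‖ := by
    intro n
    induction n with
    | zero => exact ⟨1, one_pos, le_rfl, fun j hj => absurd hj (Nat.not_lt_zero j)⟩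
    | succ n ih =>
      obtain ⟨ρ, h2, h3, h4⟩ := ih
      by_cases h5 : orb P v n = z
      · refine ⟨ρ, h2, h3, fun j hj hne => ?_⟩
        rcases Nat.lt_succ_iff_lt_or_eq.1 hj with h6 | h6
        · exact h4 j h6 hne
        · rw [h6] at hne
          exact absurd h5 hne
      · have h6 : 0 < ‖orb P v n - z‖ := norm_pos_iff.2 (sub_ne_zero.2 h5)
        refine ⟨min ρ ‖orb P v n - z‖, lt_min h2 h6, (min_le_left _ _).trans h3,
          fun j hj hne => ?_⟩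
        rcases Nat.lt_succ_iff_lt_or_eq.1 hj with h7 | h7
        · exact (min_le_left _ _).trans (h4 j h7 hne)
        · rw [h7]
          exact min_le_right _ _
  obtain ⟨ρ, h2, h3, h4⟩ := h1 J₁
  refine ⟨ρ, h2, fun j hne => ?_⟩
  rcases Nat.lt_or_ge j J₁ with h5 | h5
  · exact h4 j h5 hne
  · exact h3.trans (hJ₁ j h5).2

lemma res_stable (hE : Esc P R) {v : ℂ} {k : ℕ} (hk : R ≤ ‖orb P v k‖) (z : ℂ) :
    ∃ J₁ : ℕ, ∀ J, J₁ ≤ J → res P v z J = res P v z J₁ := by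
  classical
  obtain ⟨J₁, hJ₁⟩ := orb_ne hE hk z
  refine ⟨J₁, fun J hJ => ?_⟩
  unfold res
  congr 1
  ext j
  rw [Finset.mem_filter, Finset.mem_filter, Finset.mem_range, Finset.mem_range]
  constructor
  · rintro ⟨h1, h2⟩
    refine ⟨?_, h2⟩
    by_contra hcon
    exact (hJ₁ j (by omega)).1 h2
  · rintro ⟨h1, h2⟩
    exact ⟨by omega, h2⟩

/-- The matrix of the residues is invertible. -/
theorem res_matrix (hE : Esc P R) {e : ℕ} {v : Fin e → ℂ} (hv : Function.Injective v) {k : ℕ}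
    (hk : ∀ i, R ≤ ‖orb P (v i) k‖) : ∃ (c₀ : ℝ) (J₁ : ℕ), 0 < c₀ ∧ ∀ J, J₁ ≤ J →
      ∀ s : Fin e → ℂ, c₀ * ‖s‖ ≤ ‖fun i' => ∑ i, s i * res P (v i) (v i') J‖ := by
  classical
  choose J₁ hJ₁ using fun i i' => res_stable hE (hk i) (v i')
  obtain ⟨N, hN⟩ : ∃ N, ∀ i i', J₁ i i' ≤ N := by
    refine ⟨∑ i, ∑ i', J₁ i i', fun i i' => ?_⟩
    refine le_trans ?_ (Finset.single_le_sum (f := fun i => ∑ i', J₁ i i')
      (fun _ _ => Nat.zero_le _) (Finset.mem_univ i))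
    exact Finset.single_le_sum (f := fun i' => J₁ i i') (fun _ _ => Nat.zero_le _)
      (Finset.mem_univ i')
  obtain ⟨Mx, hMx⟩ : ∃ Mx : (Fin e → ℂ) →ₗ[ℂ] (Fin e → ℂ),
      ∀ s, Mx s = fun i' => ∑ i, s i * res P (v i) (v i') (N + 1) := by
    refine ⟨LinearMap.pi fun i' => ∑ i, (res P (v i) (v i') (N + 1)) • LinearMap.proj i,
      fun s => ?_⟩
    ext i'
    rw [LinearMap.pi_apply, LinearMap.sum_apply]
    refine Finset.sum_congr rfl fun i _ => ?_
    rw [LinearMap.smul_apply, LinearMap.proj_apply, smul_eq_mul, mul_comm]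
  have hinj : LinearMap.ker Mx = ⊥ := by
    rw [LinearMap.ker_eq_bot']
    intro s h0
    by_contra hs
    have hne : (Finset.univ.filter fun i => s i ≠ 0).Nonempty := by
      obtain ⟨i, hi⟩ := Function.ne_iff.1 hs
      exact ⟨i, Finset.mem_filter.2 ⟨Finset.mem_univ _, hi⟩⟩
    obtain ⟨i', hi', hmin⟩ := Finset.exists_min_image _ (fun i => ‖orb P (v i) k‖) hne
    rw [Finset.mem_filter] at hi'
    have h1 : ∀ i j, s i ≠ 0 → orb P (v i) j = v i' → i = i' ∧ j = 0 := by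
      intro i j hi hj
      have hj0 : j = 0 := by
        by_contra hcon
        have h2 := height hE (hk i) (show 1 ≤ j by omega)
        rw [hj] at h2
        have h3 := hmin i (Finset.mem_filter.2 ⟨Finset.mem_univ _, hi⟩)
        linarith
      rw [hj0, orb_zero] at hj
      exact ⟨hv hj, hj0⟩
    have h2 : Mx s i' = s i' := by
      rw [hMx]
      simp only
      rw [Finset.sum_eq_single i']
      · have h3 : (Finset.range (N + 1)).filter (fun j => orb P (v i') j = v i') = {0} := by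
          ext j
          rw [Finset.mem_filter, Finset.mem_range, Finset.mem_singleton]
          constructor
          · rintro ⟨-, h4⟩
            exact (h1 i' j hi'.2 h4).2
          · rintro rfl
            exact ⟨by omega, rfl⟩
        unfold res
        rw [h3, Finset.sum_singleton, dl_zero, mul_one]
      · intro i _ hii
        by_cases hsi : s i = 0
        · rw [hsi, zero_mul]
        · have h3 : (Finset.range (N + 1)).filter (fun j => orb P (v i) j = v i') = ∅ := by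
            rw [Finset.filter_eq_empty_iff]
            intro j _ h4
            exact hii (h1 i j hsi h4).1
          unfold res
          rw [h3, Finset.sum_empty, mul_zero]
      · intro h
        exact absurd (Finset.mem_univ _) h
    rw [h0] at h2
    exact hi'.2 h2.symm
  obtain ⟨Kc, hKc, hanti⟩ := Mx.exists_antilipschitzWith hinj
  refine ⟨(Kc : ℝ)⁻¹, N + 1, by positivity, fun J hJ s => ?_⟩
  have h1 : (fun i' => ∑ i, s i * res P (v i) (v i') J) = Mx s := by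
    rw [hMx]
    ext i'
    refine Finset.sum_congr rfl fun i _ => ?_
    rw [hJ₁ i i' J (by have := hN i i'; omega), hJ₁ i i' (N + 1) (by have := hN i i'; omega)]
  rw [h1]
  have h2 := hanti.le_mul_dist s 0
  rw [map_zero, dist_zero_right, dist_zero_right] at h2
  rw [inv_mul_le_iff₀ (by exact_mod_cast hKc)]
  exact h2

/-- The independence of the escaping critical orbits, at one point. -/
theorem esc_one (hE : Esc P R) (D : Dat P 1 d) {e : ℕ} {v : Fin e → ℂ} {k : ℕ}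
    (hk : ∀ i, R ≤ ‖orb P (v i) k‖) (i' : Fin e) {c₀ : ℝ} (hc₀ : 0 < c₀) :
    ∃ c₁ η : ℝ, 0 < c₁ ∧ 0 < η ∧ ∀ (J : ℕ) (ℓ : Fin e → ℂ[X] →ₗ[ℂ] ℂ) (β b : Fin e → ℂ),
      (∀ i, Tst P 1 d (orb P (v i)) (dl P (v i)) J (ℓ i) (β i) (b i)) → (∀ i, ‖β i‖ ≤ η) →
      ∀ s : Fin e → ℂ, ‖s‖ ≤ 1 → c₀ ≤ ‖∑ i, s i * res P (v i) (v i') J‖ →
      ∀ (Λ : ℂ[X] →ₗ[ℂ] ℂ) (κ : ℝ), 0 ≤ κ →
        (∀ᵐ x : ℂ, Λ (SP P 1 d x) = ∑ i, s i * ℓ i (SP P 1 d x)) →
        (∀ l ≤ 2 * d, ‖Λ (X ^ l)‖ ≤ κ) → c₁ ≤ κ := by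
  classical
  obtain ⟨v₀, hv₀⟩ : ∃ v₀, v₀ = v i' := ⟨_, rfl⟩
  rw [← hv₀]
  obtain ⟨R', hR'⟩ : ∃ R', R' = 3 / 2 * ‖orb P v₀ k‖ := ⟨_, rfl⟩
  have hkv : R ≤ ‖orb P v₀ k‖ := by rw [hv₀]; exact hk i'
  have hone := hE.one
  have hpos : 0 < ‖orb P v₀ k‖ := by linarith
  have hE' : Esc P R' := hE.mono (by rw [hR']; linarith)
  have hR1 : ‖orb P v₀ k‖ < R' := by rw [hR']; linarith
  have hR2 : R' < ‖orb P v₀ (k + 1)‖ := by
    have h1 := hE.big _ hkv
    rw [orb_succ, hR']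
    linarith
  have T := hE'.trap
  -- the disc
  obtain ⟨ρ₁, hρ₁, hball⟩ : ∃ ρ₁ > 0, ball v₀ ρ₁ ⊆ {z : ℂ | ‖orb P z k‖ < R'} ∩
      {z : ℂ | R' < ‖orb P z (k + 1)‖} := by
    have hc : ∀ n, Continuous fun z : ℂ => ‖orb P z n‖ := fun n =>
      (P.continuous.iterate n).norm
    have hop : IsOpen ({z : ℂ | ‖orb P z k‖ < R'} ∩ {z : ℂ | R' < ‖orb P z (k + 1)‖}) :=
      (isOpen_lt (hc k) continuous_const).inter (isOpen_lt continuous_const (hc (k + 1)))
    exact Metric.isOpen_iff.1 hop v₀ ⟨hR1, hR2⟩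
  choose ρ₂ hρ₂ hdist using fun i => orb_dist hE (hk i) v₀
  obtain ⟨ρ₃, hρ₃, hρ₃'⟩ : ∃ ρ₃ : ℝ, 0 < ρ₃ ∧ ∀ i, ρ₃ ≤ ρ₂ i := by
    by_cases he : (Finset.univ : Finset (Fin e)).Nonempty
    · obtain ⟨j, -, hj⟩ := Finset.exists_min_image Finset.univ ρ₂ he
      exact ⟨ρ₂ j, hρ₂ j, fun i => hj i (Finset.mem_univ i)⟩
    · exact ⟨1, one_pos, fun i => absurd ⟨i, Finset.mem_univ i⟩ he⟩
  obtain ⟨Cs, hCs⟩ : ∃ Cs : ℝ, Cs = ∑ i, ∑' j, ‖dl P (v i) j‖ := ⟨_, rfl⟩
  have hCs0 : 0 ≤ Cs := by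
    rw [hCs]
    exact Finset.sum_nonneg fun i _ => tsum_nonneg fun j => norm_nonneg _
  obtain ⟨ρ, hρ, hρ1, hρ3, hρc⟩ : ∃ ρ : ℝ, 0 < ρ ∧ ρ ≤ ρ₁ ∧ ρ ≤ ρ₃ / 2 ∧
      1 ≤ c₀ / ρ - 2 * Cs / ρ₃ := by
    refine ⟨min (min ρ₁ (ρ₃ / 2)) (c₀ / (1 + 2 * Cs / ρ₃)), by positivity,
      (min_le_left _ _).trans (min_le_left _ _), (min_le_left _ _).trans (min_le_right _ _), ?_⟩
    have h1 : 0 < min (min ρ₁ (ρ₃ / 2)) (c₀ / (1 + 2 * Cs / ρ₃)) := by positivity
    have h2 : 1 + 2 * Cs / ρ₃ ≤ c₀ / min (min ρ₁ (ρ₃ / 2)) (c₀ / (1 + 2 * Cs / ρ₃)) := by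
      rw [le_div_iff₀ h1]
      have h3 : min (min ρ₁ (ρ₃ / 2)) (c₀ / (1 + 2 * Cs / ρ₃)) ≤ c₀ / (1 + 2 * Cs / ρ₃) :=
        min_le_right _ _
      calc (1 + 2 * Cs / ρ₃) * min (min ρ₁ (ρ₃ / 2)) (c₀ / (1 + 2 * Cs / ρ₃))
          ≤ (1 + 2 * Cs / ρ₃) * (c₀ / (1 + 2 * Cs / ρ₃)) := by gcongr
        _ = c₀ := by field_simp
    linarith
  obtain ⟨b₀, hb₀m, hb₀f, hb₀⟩ := SP_major T D
  obtain ⟨Cp, hCp0, hCp⟩ := lintegral_pole T
  obtain ⟨Bk, hBk⟩ : ∃ Bk : ℝ, Bk = (∫⁻ x in ball 0 R', b₀ x).toReal := ⟨_, rfl⟩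
  have hBk0 : 0 ≤ Bk := by rw [hBk]; positivity
  have hBk' : ∫⁻ x in ball 0 R', b₀ x = ENNReal.ofReal Bk := by
    rw [hBk, ENNReal.ofReal_toReal hb₀f]
  have hpi := Real.pi_pos
  refine ⟨Real.pi * ρ ^ 2 / (2 * (Bk + 1)), Real.pi * ρ ^ 2 / (2 * (Cp + 1) * (e + 1)),
    by positivity, by positivity, ?_⟩
  intro J ℓ β b hT hβ s hs hres Λ κ hκ hΛ hΛk
  obtain ⟨q, hq⟩ : ∃ q : ℂ → ℂ, q = fun w => ∑ i, s i * QQ J (orb P (v i)) (dl P (v i)) w :=
    ⟨_, rfl⟩
  have hqm : Measurable q := by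
    rw [hq]
    exact Finset.measurable_fun_sum _ fun i _ => (measurable_QQ J _ _).const_mul _
  have hqf : ∫⁻ w in ball 0 R', ‖q w‖ₑ ≠ ⊤ := by
    have h1 : ∫⁻ w in ball 0 R', ‖q w‖ₑ ≤ ∑ i, ‖s i‖ₑ *
        ∫⁻ w in ball 0 R', ‖QQ J (orb P (v i)) (dl P (v i)) w‖ₑ := by
      calc ∫⁻ w in ball 0 R', ‖q w‖ₑ
          ≤ ∫⁻ w in ball 0 R', ∑ i, ‖s i‖ₑ * ‖QQ J (orb P (v i)) (dl P (v i)) w‖ₑ := by
            refine lintegral_mono fun w => ?_
            rw [hq]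
            refine (enorm_sum_le _ _).trans (le_of_eq ?_)
            exact Finset.sum_congr rfl fun i _ => enorm_mul _ _
        _ = _ := by
            rw [lintegral_finsetSum' _ fun i _ =>
              ((measurable_QQ J _ _).enorm.const_mul _).aemeasurable]
            exact Finset.sum_congr rfl fun i _ => lintegral_const_mul _ (measurable_QQ J _ _).enorm
    refine ne_top_of_le_ne_top ?_ h1
    exact ENNReal.sum_ne_top.2 fun i _ => ENNReal.mul_ne_top enorm_ne_top (QQ_fin _ _ _ _)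
  obtain ⟨ε, hε⟩ : ∃ ε : ℝ, ε = Bk * κ + Cp * ∑ i, ‖s i * β i‖ := ⟨_, rfl⟩
  have hpm : ∀ i, Measurable fun x : ℂ => ‖s i * β i / (x - b i)‖ₑ := fun i =>
    (measurable_const.div (measurable_id.sub_const _)).enorm
  have hsmall := small_gen T one_ne_zero hqm hqf
    (b := fun x => ENNReal.ofReal κ * b₀ x + ∑ i, ‖s i * β i / (x - b i)‖ₑ) (ε := ε) (by
      have h1 : ∀ᵐ x : ℂ, ∀ i, push P 1 (QQ J (orb P (v i)) (dl P (v i))) x -
          QQ J (orb P (v i)) (dl P (v i)) x = ℓ i (SP P 1 d x) + β i / (x - b i) := by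
        rw [ae_all_iff]
        exact fun i => (hT i).psh
      filter_upwards [h1, hΛ, hb₀ Λ κ hκ hΛk] with x hx hΛx hbx hxU
      have h2 : push P 1 q x - q x = Λ (SP P 1 d x) + ∑ i, s i * β i / (x - b i) := by
        rw [hq, push_lin, hΛx, ← Finset.sum_sub_distrib, ← Finset.sum_add_distrib]
        refine Finset.sum_congr rfl fun i _ => ?_
        linear_combination s i * hx i
      rw [h2]
      exact (enorm_add_le _ _).trans (add_le_add (hbx hxU) (enorm_sum_le _ _))) (by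
      rw [lintegral_add_left (hb₀m.const_mul _), lintegral_const_mul _ hb₀m, hBk',
        lintegral_finsetSum' _ fun i _ => (hpm i).aemeasurable, hε,
        ENNReal.ofReal_add (by positivity) (by positivity), mul_comm Bk,
        ENNReal.ofReal_mul hκ, Finset.mul_sum,
        ENNReal.ofReal_sum_of_nonneg fun i _ => by positivity]
      gcongr with i _
      exact hCp _ _) k
  -- the lower bound
  have hlow : ∀ w ∈ ball v₀ ρ, w ≠ v₀ → 1 ≤ ‖q w‖ := by
    intro w hw hwv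
    rw [mem_ball, dist_eq_norm] at hw
    have hw0 : 0 < ‖w - v₀‖ := norm_pos_iff.2 (sub_ne_zero.2 hwv)
    have h1 : q w = (∑ i, s i * res P (v i) v₀ J) / (w - v₀) +
        ∑ i, s i * ∑ j ∈ (Finset.range J).filter (fun j => ¬ orb P (v i) j = v₀),
          dl P (v i) j / (w - orb P (v i) j) := by
      rw [hq]
      simp only
      rw [Finset.sum_div, ← Finset.sum_add_distrib]
      refine Finset.sum_congr rfl fun i _ => ?_
      unfold QQ res
      rw [← Finset.sum_filter_add_sum_filter_not (Finset.range J)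
        (fun j => orb P (v i) j = v₀), mul_add]
      congr 1
      rw [mul_div_assoc, Finset.sum_div]
      congr 1
      refine Finset.sum_congr rfl fun j hj => ?_
      rw [(Finset.mem_filter.1 hj).2]
    have h2 : ‖∑ i, s i * ∑ j ∈ (Finset.range J).filter (fun j => ¬ orb P (v i) j = v₀),
          dl P (v i) j / (w - orb P (v i) j)‖ ≤ 2 * Cs / ρ₃ := by
      have h3 : 2 * Cs / ρ₃ = ∑ i, (2 / ρ₃) * ∑' j, ‖dl P (v i) j‖ := by
        rw [← Finset.mul_sum, hCs]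
        ring
      rw [h3]
      refine (norm_sum_le _ _).trans (Finset.sum_le_sum fun i _ => ?_)
      rw [norm_mul]
      have h4 : ‖∑ j ∈ (Finset.range J).filter (fun j => ¬ orb P (v i) j = v₀),
          dl P (v i) j / (w - orb P (v i) j)‖ ≤ (2 / ρ₃) * ∑' j, ‖dl P (v i) j‖ := by
        refine (norm_sum_le _ _).trans ?_
        have h5 : ∀ j ∈ (Finset.range J).filter (fun j => ¬ orb P (v i) j = v₀),
            ‖dl P (v i) j / (w - orb P (v i) j)‖ ≤ (2 / ρ₃) * ‖dl P (v i) j‖ := by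
          intro j hj
          have h6 := hdist i j (Finset.mem_filter.1 hj).2
          have h7 : ρ₃ / 2 ≤ ‖w - orb P (v i) j‖ := by
            have h8 := norm_sub_le (w - orb P (v i) j) (w - v₀)
            have h9 : w - orb P (v i) j - (w - v₀) = -(orb P (v i) j - v₀) := by ring
            rw [h9, norm_neg] at h8
            have := hρ₃' i
            linarith
          rw [norm_div, div_le_iff₀ (by linarith)]
          calc ‖dl P (v i) j‖ = 2 / ρ₃ * ‖dl P (v i) j‖ * (ρ₃ / 2) := by field_simp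
            _ ≤ 2 / ρ₃ * ‖dl P (v i) j‖ * ‖w - orb P (v i) j‖ := by gcongr
        refine (Finset.sum_le_sum h5).trans ?_
        rw [← Finset.mul_sum]
        gcongr
        exact (dl_summable hE (hk i)).sum_le_tsum _ fun j _ => norm_nonneg _
      calc ‖s i‖ * _ ≤ 1 * ((2 / ρ₃) * ∑' j, ‖dl P (v i) j‖) := by
            gcongr
            exact (norm_le_pi_norm s i).trans hs
        _ = _ := one_mul _
    have h3 : c₀ / ρ ≤ ‖(∑ i, s i * res P (v i) v₀ J) / (w - v₀)‖ := by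
      rw [norm_div]
      gcongr
    rw [h1]
    have h4 := norm_sub_le ((∑ i, s i * res P (v i) v₀ J) / (w - v₀) +
        ∑ i, s i * ∑ j ∈ (Finset.range J).filter (fun j => ¬ orb P (v i) j = v₀),
          dl P (v i) j / (w - orb P (v i) j))
        (∑ i, s i * ∑ j ∈ (Finset.range J).filter (fun j => ¬ orb P (v i) j = v₀),
          dl P (v i) j / (w - orb P (v i) j))
    rw [add_sub_cancel_right] at h4
    linarith
  have hvol : ENNReal.ofReal (Real.pi * ρ ^ 2) ≤ ENNReal.ofReal ε := by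
    calc ENNReal.ofReal (Real.pi * ρ ^ 2) = volume (ball v₀ ρ) := by
          rw [Complex.volume_ball, ENNReal.ofReal_mul hpi.le, mul_comm,
            ENNReal.ofReal_pow hρ.le]
          congr 1
          rw [← NNReal.coe_real_pi, ENNReal.ofReal_coe_nnreal]
      _ = ∫⁻ w in ball v₀ ρ, 1 := by rw [setLIntegral_one]
      _ ≤ ∫⁻ w in ball v₀ ρ, ‖q w‖ₑ := by
          apply lintegral_mono_ae
          rw [ae_restrict_iff' measurableSet_ball]
          have h1 : ∀ᵐ w : ℂ, w ≠ v₀ := by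
            rw [ae_iff]
            simp
          filter_upwards [h1] with w hw hwb
          have h2 := hlow w hwb hw
          rw [← ofReal_norm, ← ENNReal.ofReal_one]
          exact ENNReal.ofReal_le_ofReal h2
      _ ≤ ∫⁻ w in UR P 1 (ball 0 R') k \ UR P 1 (ball 0 R') (k + 1), ‖q w‖ₑ := by
          refine lintegral_mono_set fun w hw => ?_
          obtain ⟨h1, h2⟩ := hball (ball_subset_ball hρ1 hw)
          refine ⟨mem_UR.2 h1, fun h3 => ?_⟩
          have h4 := mem_UR.1 h3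
          exact absurd h4 (not_lt.2 (le_of_lt h2))
      _ ≤ _ := hsmall
  have hfin : Real.pi * ρ ^ 2 ≤ ε := by
    rwa [ENNReal.ofReal_le_ofReal_iff (by rw [hε]; positivity)] at hvol
  have hsb : ∑ i, ‖s i * β i‖ ≤ e * (Real.pi * ρ ^ 2 / (2 * (Cp + 1) * (e + 1))) := by
    calc ∑ i, ‖s i * β i‖ ≤ ∑ _i : Fin e, (Real.pi * ρ ^ 2 / (2 * (Cp + 1) * (e + 1))) := by
          refine Finset.sum_le_sum fun i _ => ?_
          rw [norm_mul]
          calc ‖s i‖ * ‖β i‖ ≤ 1 * (Real.pi * ρ ^ 2 / (2 * (Cp + 1) * (e + 1))) := by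
                gcongr
                · exact (norm_le_pi_norm s i).trans hs
                · exact hβ i
            _ = _ := one_mul _
      _ = _ := by rw [Finset.sum_const, Finset.card_univ, Fintype.card_fin, nsmul_eq_mul]
  have h5 : Cp * ∑ i, ‖s i * β i‖ ≤ Real.pi * ρ ^ 2 / 2 := by
    calc Cp * ∑ i, ‖s i * β i‖ ≤ (Cp + 1) *
          ((e + 1) * (Real.pi * ρ ^ 2 / (2 * (Cp + 1) * (e + 1)))) := by
          gcongr
          · linarith
          · refine hsb.trans ?_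
            gcongr
            linarith
      _ = Real.pi * ρ ^ 2 / 2 := by field_simp
  rw [div_le_iff₀ (by positivity)]
  rw [hε] at hfin
  nlinarith

end Pool.Agent.Zk29.Rat
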