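import Pool.Agent.Zk29.Rat.Inv
import Pool.Agent.H761R2.SV.Pomp

/-!
# The Cauchy transform of a bounded function with compact support
-/

set_option autoImplicit false
open Set Filter Topology Metric MeasureTheory Polynomial
open scoped ENNReal ContDiff

namespace Pool.Agent.Zk29.Rat

open Pool.Agent.H792R2.CE

/-- The Cauchy transform. -/
noncomputable def cau (μ : ℂ → ℂ) (a : ℂ) : ℂ := ∫ w, μ w * (w - a)⁻¹

/-- `μ` is measurable, bounded, and zero outside the compact set `K`. -/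
structure Bel (μ : ℂ → ℂ) (K : Set ℂ) : Prop where
  cpt : IsCompact K
  meas : Measurable μ
  bdd : ∃ B : ℝ, 0 ≤ B ∧ ∀ z, ‖μ z‖ ≤ B
  off : ∀ z, z ∉ K → μ z = 0

variable {μ : ℂ → ℂ} {K : Set ℂ}

lemma lint_mul_le (h : Bel μ K) {B : ℝ} (hB : ∀ z, ‖μ z‖ ≤ B) (q : ℂ → ℂ) :
    ∫⁻ w, ‖μ w * q w‖ₑ ≤ ENNReal.ofReal B * ∫⁻ w in K, ‖q w‖ₑ := by
  have hKm : MeasurableSet K := h.cpt.isClosed.measurableSet
  have h1 : ∫⁻ w, ‖μ w * q w‖ₑ ≤ ∫⁻ w in K, ENNReal.ofReal B * ‖q w‖ₑ := by
    rw [← lintegral_indicator hKm]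
    refine lintegral_mono fun w => ?_
    by_cases hw : w ∈ K
    · rw [indicator_of_mem hw, enorm_mul]
      gcongr
      rw [← ofReal_norm]
      exact ENNReal.ofReal_le_ofReal (hB w)
    · rw [h.off w hw, zero_mul, enorm_zero]
      exact bot_le
  rwa [lintegral_const_mul' _ _ ENNReal.ofReal_ne_top] at h1

lemma ker_cpt (hK : IsCompact K) : ∃ C : ℝ≥0∞, C ≠ ⊤ ∧ ∀ a : ℂ, ∫⁻ w in K, ‖(w - a)⁻¹‖ₑ ≤ C := by
  obtain ⟨R, hR⟩ := hK.isBounded.subset_ball (0 : ℂ)
  obtain ⟨C, hC, h⟩ := D3a_kernel R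
  exact ⟨C, hC, fun a => (lintegral_mono_set hR).trans (h a)⟩

lemma meas_ker (a : ℂ) : Measurable fun w : ℂ => (w - a)⁻¹ := (measurable_id.sub_const a).inv

lemma cau_integrable (h : Bel μ K) (a : ℂ) : Integrable fun w => μ w * (w - a)⁻¹ := by
  obtain ⟨B, hB0, hB⟩ := h.bdd
  obtain ⟨C, hC, hk⟩ := ker_cpt h.cpt
  refine ⟨(h.meas.mul (meas_ker a)).aestronglyMeasurable, ?_⟩
  rw [HasFiniteIntegral]
  refine lt_of_le_of_lt (lint_mul_le h hB _) ?_
  refine ENNReal.mul_lt_top ENNReal.ofReal_lt_top (lt_of_le_of_lt (hk a) hC.lt_top)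

theorem cau_bdd (h : Bel μ K) : ∃ C : ℝ, 0 ≤ C ∧ ∀ a, ‖cau μ a‖ ≤ C := by
  obtain ⟨B, hB0, hB⟩ := h.bdd
  obtain ⟨C, hC, hk⟩ := ker_cpt h.cpt
  refine ⟨B * C.toReal, by positivity, fun a => ?_⟩
  have h1 : ‖cau μ a‖ₑ ≤ ENNReal.ofReal B * C :=
    (enorm_integral_le_lintegral_enorm _).trans ((lint_mul_le h hB _).trans (by
      gcongr
      exact hk a))
  have h2 := ENNReal.toReal_mono (ENNReal.mul_ne_top ENNReal.ofReal_ne_top hC) h1
  rwa [toReal_enorm, ENNReal.toReal_mul, ENNReal.toReal_ofReal hB0] at h2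

theorem cau_cont (h : Bel μ K) : Continuous (cau μ) := by
  obtain ⟨B, hB0, hB⟩ := h.bdd
  obtain ⟨C, hC, hk⟩ := D3a_kernel 1
  have hV : volume K ≠ ⊤ := h.cpt.measure_lt_top.ne
  have hKm : MeasurableSet K := h.cpt.isClosed.measurableSet
  have hest : ∀ (a b : ℂ) (ρ : ℝ), 0 < ρ → ‖a - b‖ ≤ ρ / 2 → ‖cau μ a - cau μ b‖ ≤
      B * (2 * ρ * C.toReal + 2 * ‖a - b‖ / ρ ^ 2 * (volume K).toReal) := by
    intro a b ρ hρ hab
    have e0 : cau μ a - cau μ b = ∫ w, μ w * ((w - a)⁻¹ - (w - b)⁻¹) := by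
      unfold cau
      rw [← integral_sub (cau_integrable h a) (cau_integrable h b)]
      refine integral_congr_ae (Eventually.of_forall fun w => ?_)
      simp only
      ring
    have e1 : ‖cau μ a - cau μ b‖ₑ ≤ ENNReal.ofReal B *
        ∫⁻ w in K, ‖(w - a)⁻¹ - (w - b)⁻¹‖ₑ := by
      rw [e0]
      exact (enorm_integral_le_lintegral_enorm _).trans (lint_mul_le h hB _)
    have e2 : ∫⁻ w in ball b ρ, ‖(w - a)⁻¹ - (w - b)⁻¹‖ₑ ≤ 2 * (ENNReal.ofReal ρ * C) := by
      calc ∫⁻ w in ball b ρ, ‖(w - a)⁻¹ - (w - b)⁻¹‖ₑ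
          ≤ ∫⁻ w in ball b ρ, (‖(w - a)⁻¹‖ₑ + ‖(w - b)⁻¹‖ₑ) :=
            lintegral_mono fun w => enorm_sub_le
        _ = (∫⁻ w in ball b ρ, ‖(w - a)⁻¹‖ₑ) + ∫⁻ w in ball b ρ, ‖(w - b)⁻¹‖ₑ :=
            lintegral_add_left (meas_ker a).enorm _
        _ ≤ ENNReal.ofReal ρ * C + ENNReal.ofReal ρ * C :=
            add_le_add (D6x.scale C hk b a hρ) (D6x.scale C hk b b hρ)
        _ = _ := by rw [two_mul]
    have e3 : ∫⁻ w in K \ ball b ρ, ‖(w - a)⁻¹ - (w - b)⁻¹‖ₑ ≤
        ENNReal.ofReal (2 * ‖a - b‖ / ρ ^ 2) * volume K := by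
      calc ∫⁻ w in K \ ball b ρ, ‖(w - a)⁻¹ - (w - b)⁻¹‖ₑ
          ≤ ∫⁻ _ in K \ ball b ρ, ENNReal.ofReal (2 * ‖a - b‖ / ρ ^ 2) := by
            refine setLIntegral_mono' (hKm.diff measurableSet_ball) fun w hw => ?_
            have h1 : ρ ≤ ‖w - b‖ := by
              have := hw.2
              rw [mem_ball, dist_eq_norm, not_lt] at this
              exact this
            have h2 : ρ / 2 ≤ ‖w - a‖ := by
              have h3 : ‖w - b‖ ≤ ‖w - a‖ + ‖a - b‖ := by
                calc ‖w - b‖ = ‖(w - a) + (a - b)‖ := by ring_nf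
                  _ ≤ _ := norm_add_le _ _
              linarith
            have h3 : w - a ≠ 0 := by
              intro h0
              rw [h0, norm_zero] at h2
              linarith
            have h4 : w - b ≠ 0 := by
              intro h0
              rw [h0, norm_zero] at h1
              linarith
            rw [← ofReal_norm]
            apply ENNReal.ofReal_le_ofReal
            have h5 : (w - a)⁻¹ - (w - b)⁻¹ = (a - b) / ((w - a) * (w - b)) := by
              field_simp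
              ring
            rw [h5, norm_div, norm_mul]
            calc ‖a - b‖ / (‖w - a‖ * ‖w - b‖) ≤ ‖a - b‖ / (ρ / 2 * ρ) := by gcongr
              _ = _ := by field_simp
        _ = ENNReal.ofReal (2 * ‖a - b‖ / ρ ^ 2) * volume (K \ ball b ρ) := by
            rw [setLIntegral_const]
        _ ≤ _ := by
            gcongr
            exact sdiff_subset
    have e4 : ∫⁻ w in K, ‖(w - a)⁻¹ - (w - b)⁻¹‖ₑ ≤ 2 * (ENNReal.ofReal ρ * C) +
        ENNReal.ofReal (2 * ‖a - b‖ / ρ ^ 2) * volume K := by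
      have hsub : K ⊆ ball b ρ ∪ (K \ ball b ρ) := by
        intro w hw
        by_cases hb : w ∈ ball b ρ
        · exact Or.inl hb
        · exact Or.inr ⟨hw, hb⟩
      exact (lintegral_mono_set hsub).trans ((lintegral_union_le _ _ _).trans (add_le_add e2 e3))
    have e5 : ‖cau μ a - cau μ b‖ₑ ≤ ENNReal.ofReal
        (B * (2 * ρ * C.toReal + 2 * ‖a - b‖ / ρ ^ 2 * (volume K).toReal)) := by
      refine e1.trans ?_
      rw [ENNReal.ofReal_mul hB0, ENNReal.ofReal_add (by positivity) (by positivity)]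
      gcongr
      refine e4.trans (le_of_eq ?_)
      congr 1
      · rw [mul_assoc, ENNReal.ofReal_mul (by norm_num), ENNReal.ofReal_mul hρ.le,
          ENNReal.ofReal_toReal hC]
        norm_num
      · rw [ENNReal.ofReal_mul (by positivity), ENNReal.ofReal_toReal hV]
    rw [← ofReal_norm, ENNReal.ofReal_le_ofReal_iff (by positivity)] at e5
    exact e5
  rw [Metric.continuous_iff]
  intro b ε hε
  obtain ⟨C', hC'⟩ : ∃ C', C' = C.toReal := ⟨_, rfl⟩
  obtain ⟨V, hVd⟩ : ∃ V, V = (volume K).toReal := ⟨_, rfl⟩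
  have hC0 : 0 ≤ C' := by rw [hC']; positivity
  have hV0 : 0 ≤ V := by rw [hVd]; positivity
  obtain ⟨ρ, hρ⟩ : ∃ ρ, ρ = ε / (8 * (B + 1) * (C' + 1)) := ⟨_, rfl⟩
  have hρ0 : 0 < ρ := by rw [hρ]; positivity
  refine ⟨min (ρ / 2) (ε * ρ ^ 2 / (8 * (B + 1) * (V + 1))), by positivity, fun a ha => ?_⟩
  rw [dist_eq_norm] at ha ⊢
  have h1 : ‖a - b‖ ≤ ρ / 2 := ha.le.trans (min_le_left _ _)
  have h2 : ‖a - b‖ ≤ ε * ρ ^ 2 / (8 * (B + 1) * (V + 1)) := ha.le.trans (min_le_right _ _)
  have h3 := hest a b ρ hρ0 h1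
  rw [← hC', ← hVd] at h3
  have h4 : B * (2 * ρ * C') ≤ ε / 4 := by
    calc B * (2 * ρ * C') ≤ (B + 1) * (2 * ρ * (C' + 1)) := by gcongr <;> linarith
      _ = ε / 4 := by
          rw [hρ]
          field_simp
          norm_num
  have h5 : B * (2 * ‖a - b‖ / ρ ^ 2 * V) ≤ ε / 4 := by
    calc B * (2 * ‖a - b‖ / ρ ^ 2 * V)
        ≤ (B + 1) * (2 * (ε * ρ ^ 2 / (8 * (B + 1) * (V + 1))) / ρ ^ 2 * (V + 1)) := by
          gcongr <;> linarith
      _ = ε / 4 := by
          field_simp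
          norm_num
  calc ‖cau μ a - cau μ b‖ ≤ B * (2 * ρ * C') + B * (2 * ‖a - b‖ / ρ ^ 2 * V) := by
        rw [← mul_add]
        exact h3
    _ < ε := by linarith

theorem cau_diff (h : Bel μ K) {a : ℂ} (ha : a ∉ K) : DifferentiableAt ℂ (cau μ) a := by
  obtain ⟨B, hB0, hB⟩ := h.bdd
  obtain ⟨r, hr, hrs⟩ := Metric.isOpen_iff.1 h.cpt.isClosed.isOpen_compl a ha
  have hKm : MeasurableSet K := h.cpt.isClosed.measurableSet
  have hfar : ∀ x ∈ ball a (r / 2), ∀ w ∈ K, r / 2 ≤ ‖w - x‖ := by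
    intro x hx w hw
    by_contra hlt
    push Not at hlt
    rw [mem_ball, dist_eq_norm] at hx
    have h1 : w ∈ ball a r := by
      rw [mem_ball, dist_eq_norm]
      calc ‖w - a‖ = ‖(w - x) + (x - a)‖ := by ring_nf
        _ ≤ _ := norm_add_le _ _
        _ < r := by linarith
    exact hrs h1 hw
  have h1 := hasDerivAt_integral_of_dominated_loc_of_deriv_le (μ := volume)
    (F := fun x w => μ w * (w - x)⁻¹) (F' := fun x w => μ w * ((w - x) ^ 2)⁻¹) (x₀ := a)
    (s := ball a (r / 2)) (bound := K.indicator fun _ => B * ((r / 2) ^ 2)⁻¹)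
    (ball_mem_nhds a (by positivity))
    (Eventually.of_forall fun x => (h.meas.mul (meas_ker x)).aestronglyMeasurable)
    (cau_integrable h a)
    (h.meas.mul ((measurable_id.sub_const a).pow_const 2).inv).aestronglyMeasurable
    (Eventually.of_forall fun w x hx => by
      by_cases hw : w ∈ K
      · rw [indicator_of_mem hw, norm_mul, norm_inv, norm_pow]
        have := hfar x hx w hw
        gcongr
        exact hB w
      · rw [indicator_of_notMem hw, h.off w hw, zero_mul, norm_zero])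
    ((integrable_indicator_iff hKm).2 (integrableOn_const (h.cpt.measure_lt_top.ne)))
    (Eventually.of_forall fun w x hx => by
      by_cases hw : w ∈ K
      · have h2 := hfar x hx w hw
        have h3 : w - x ≠ 0 := by
          intro h0
          rw [h0, norm_zero] at h2
          linarith
        have h4 := ((hasDerivAt_id x).const_sub w).fun_inv h3
        exact (h4.const_mul (μ w)).congr_deriv (by
          simp only [id, neg_neg]
          rw [one_div])
      · rw [h.off w hw]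
        simp only [zero_mul]
        exact hasDerivAt_const _ _)
  exact h1.2.differentiableAt

open Pool.Agent.H761R2.SV in
theorem cau_inj (h : Bel μ K) (h0 : ∀ a, cau μ a = 0) : ∀ᵐ w, μ w = 0 := by
  obtain ⟨B, hB0, hB⟩ := h.bdd
  obtain ⟨C, hC, hk⟩ := ker_cpt h.cpt
  have hKm : MeasurableSet K := h.cpt.isClosed.measurableSet
  have hint : Integrable μ := by
    have h1 : Integrable (K.indicator fun _ : ℂ => B) :=
      (integrable_indicator_iff hKm).2 (integrableOn_const (h.cpt.measure_lt_top.ne))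
    refine h1.mono' h.meas.aestronglyMeasurable (Eventually.of_forall fun w => ?_)
    by_cases hw : w ∈ K
    · rw [indicator_of_mem hw]
      exact hB w
    · rw [indicator_of_notMem hw, h.off w hw, norm_zero]
  refine ae_eq_zero_of_integral_contDiff_smul_eq_zero hint.locallyIntegrable ?_
  intro g hg hgc
  obtain ⟨G, hG⟩ : ∃ G : ℂ → ℂ, G = fun w => ((g w : ℝ) : ℂ) := ⟨_, rfl⟩
  have hG1 : ContDiff ℝ 1 G := by
    rw [hG]
    exact (Complex.ofRealCLM.contDiff.comp hg).of_le (by simp)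
  have hGc : HasCompactSupport G := by
    rw [hG]
    exact hgc.comp_left Complex.ofReal_zero
  have hdc : Continuous (dbar G) := continuous_dbar hG1
  have hds : HasCompactSupport (dbar G) := by
    have h1 : HasCompactSupport (fderiv ℝ G) := hGc.fderiv (𝕜 := ℝ)
    refine h1.mono ?_
    intro w hw h2
    apply hw
    simp only [dbar, h2]
    simp
  obtain ⟨M, hM⟩ := hds.exists_bound_of_continuous hdc
  have hM0 : 0 ≤ M := (norm_nonneg _).trans (hM 0)
  obtain ⟨S, hS⟩ : ∃ S, S = tsupport (dbar G) := ⟨_, rfl⟩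
  have hSc : IsCompact S := by rw [hS]; exact hds.isCompact
  have hSm : MeasurableSet S := hSc.isClosed.measurableSet
  have hSoff : ∀ a ∉ S, dbar G a = 0 := fun a ha => by
    rw [hS] at ha
    exact image_eq_zero_of_notMem_tsupport ha
  -- Fubini
  have hprod : Integrable (fun p : ℂ × ℂ => μ p.1 * (dbar G p.2 * (p.1 - p.2)⁻¹))
      (volume.prod volume) := by
    refine ⟨?_, ?_⟩
    · apply Measurable.aestronglyMeasurable
      have h1 : Measurable μ := h.meas
      have h2 : Measurable (dbar G) := hdc.measurable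
      fun_prop
    · rw [hasFiniteIntegral_iff_enorm, lintegral_prod_symm' _ (by
        have h1 : Measurable μ := h.meas
        have h2 : Measurable (dbar G) := hdc.measurable
        fun_prop)]
      calc ∫⁻ a, ∫⁻ w, ‖μ w * (dbar G a * (w - a)⁻¹)‖ₑ
          ≤ ∫⁻ a, S.indicator (fun _ => ENNReal.ofReal B * (ENNReal.ofReal M * C)) a := by
            refine lintegral_mono fun a => ?_
            by_cases ha : a ∈ S
            · rw [indicator_of_mem ha]
              refine (lint_mul_le h hB _).trans ?_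
              gcongr
              calc ∫⁻ w in K, ‖dbar G a * (w - a)⁻¹‖ₑ
                  = ∫⁻ w in K, ‖dbar G a‖ₑ * ‖(w - a)⁻¹‖ₑ := by simp_rw [enorm_mul]
                _ = ‖dbar G a‖ₑ * ∫⁻ w in K, ‖(w - a)⁻¹‖ₑ :=
                    lintegral_const_mul _ (meas_ker a).enorm
                _ ≤ _ := by
                    gcongr
                    · rw [← ofReal_norm]
                      exact ENNReal.ofReal_le_ofReal (hM a)
                    · exact hk a
            · rw [indicator_of_notMem ha, hSoff a ha]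
              simp
        _ = ENNReal.ofReal B * (ENNReal.ofReal M * C) * volume S := by
            rw [lintegral_indicator hSm, setLIntegral_const]
        _ < ⊤ := ENNReal.mul_lt_top (ENNReal.mul_lt_top ENNReal.ofReal_lt_top
            (ENNReal.mul_lt_top ENNReal.ofReal_lt_top hC.lt_top)) hSc.measure_lt_top
  have hpom : ∀ w, ∫ a, dbar G a * (w - a)⁻¹ = Real.pi * G w := pompeiu_compact hG1 hGc
  have h1 : ∫ w, ∫ a, μ w * (dbar G a * (w - a)⁻¹) =
      ∫ a, ∫ w, μ w * (dbar G a * (w - a)⁻¹) := integral_integral_swap hprod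
  have h2 : ∀ a, ∫ w, μ w * (dbar G a * (w - a)⁻¹) = 0 := by
    intro a
    have h3 : (fun w => μ w * (dbar G a * (w - a)⁻¹)) =
        fun w => dbar G a * (μ w * (w - a)⁻¹) := by
      ext w
      ring
    rw [h3, integral_const_mul]
    change dbar G a * cau μ a = 0
    rw [h0, mul_zero]
  have h3 : ∀ w, ∫ a, μ w * (dbar G a * (w - a)⁻¹) = Real.pi * (g w • μ w) := by
    intro w
    rw [integral_const_mul, hpom, hG, Complex.real_smul]
    ring
  simp only [h2, h3, integral_zero] at h1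
  rw [integral_const_mul] at h1
  have hpi : ((Real.pi : ℝ) : ℂ) ≠ 0 := by exact_mod_cast Real.pi_ne_zero
  exact (mul_eq_zero.1 h1).resolve_left hpi

end Pool.Agent.Zk29.Rat
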