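import Pool.Agent.Zk29.Rat.EscI

/-!
# The bound for the number of the independent invariant line fields of a polynomial
-/

set_option autoImplicit false
open Set Filter Topology Metric MeasureTheory Polynomial
open scoped ENNReal

namespace Pool.Agent.Zk29.Rat

open Pool.Agent.H792R2.CE

variable {P : ℂ[X]} {d : ℕ} {R : ℝ}

/-- The independence of the escaping critical orbits. -/
theorem esc_indep (hE : Esc P R) (D : Dat P 1 d) {e : ℕ} {v : Fin e → ℂ}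
    (hv : Function.Injective v) {k : ℕ} (hk : ∀ i, R ≤ ‖orb P (v i) k‖) :
    ∃ (c₁ η : ℝ) (J₁ : ℕ), 0 < c₁ ∧ 0 < η ∧ ∀ J, J₁ ≤ J →
      ∀ (ℓ : Fin e → ℂ[X] →ₗ[ℂ] ℂ) (β b : Fin e → ℂ),
      (∀ i, Tst P 1 d (orb P (v i)) (dl P (v i)) J (ℓ i) (β i) (b i)) → (∀ i, ‖β i‖ ≤ η) →
      ∀ (s : Fin e → ℂ) (Λ : ℂ[X] →ₗ[ℂ] ℂ) (κ : ℝ), 0 ≤ κ →
        (∀ᵐ x : ℂ, Λ (SP P 1 d x) = ∑ i, s i * ℓ i (SP P 1 d x)) →
        (∀ l ≤ 2 * d, ‖Λ (X ^ l)‖ ≤ κ) → c₁ * ‖s‖ ≤ κ := by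
  classical
  obtain ⟨c₀, J₁, hc₀, hres⟩ := res_matrix hE hv hk
  choose c₁ η hc₁ hη hone using fun i' => esc_one hE D hk i' hc₀
  have hmin : ∀ f : Fin e → ℝ, (∀ i, 0 < f i) → ∃ a : ℝ, 0 < a ∧ ∀ i, a ≤ f i := by
    intro f hf
    by_cases he : (Finset.univ : Finset (Fin e)).Nonempty
    · obtain ⟨j, -, hj⟩ := Finset.exists_min_image Finset.univ f he
      exact ⟨f j, hf j, fun i => hj i (Finset.mem_univ i)⟩
    · exact ⟨1, one_pos, fun i => absurd ⟨i, Finset.mem_univ i⟩ he⟩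
  obtain ⟨c₂, hc₂, hc₂'⟩ := hmin c₁ hc₁
  obtain ⟨η₂, hη₂, hη₂'⟩ := hmin η hη
  refine ⟨c₂, η₂, J₁, hc₂, hη₂, ?_⟩
  intro J hJ ℓ β b hT hβ s Λ κ hκ hΛ hΛk
  by_cases hs : s = 0
  · rw [hs, norm_zero, mul_zero]
    exact hκ
  have hsn : 0 < ‖s‖ := norm_pos_iff.2 hs
  obtain ⟨s', hs'⟩ : ∃ s' : Fin e → ℂ, s' = ((‖s‖⁻¹ : ℝ) : ℂ) • s := ⟨_, rfl⟩
  have hs'1 : ‖s'‖ = 1 := by
    rw [hs', norm_smul, Complex.norm_real, norm_inv, norm_norm, inv_mul_cancel₀ hsn.ne']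
  have h1 := hres J hJ s'
  rw [hs'1, mul_one] at h1
  obtain ⟨i', hi'⟩ : ∃ i', c₀ ≤ ‖∑ i, s' i * res P (v i) (v i') J‖ := by
    by_contra hcon
    push Not at hcon
    have h2 := (pi_norm_lt_iff hc₀ (x := fun i' => ∑ i, s' i * res P (v i) (v i') J)).2 hcon
    linarith
  have h2 := hone i' J ℓ β b hT (fun i => (hβ i).trans (hη₂' i')) s' hs'1.le hi'
    (((‖s‖⁻¹ : ℝ) : ℂ) • Λ) (‖s‖⁻¹ * κ) (by positivity) (by
      filter_upwards [hΛ] with x hx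
      rw [LinearMap.smul_apply, hx, smul_eq_mul, Finset.mul_sum, hs']
      refine Finset.sum_congr rfl fun i _ => ?_
      rw [Pi.smul_apply, smul_eq_mul]
      ring) (by
      intro l hl
      rw [LinearMap.smul_apply, norm_smul, Complex.norm_real, norm_inv, norm_norm]
      gcongr
      exact hΛk l hl)
  have h3 : c₂ ≤ ‖s‖⁻¹ * κ := (hc₂' i').trans h2
  rw [inv_mul_eq_div, le_div_iff₀ hsn] at h3
  exact h3

/-- The linear algebra. -/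
theorem lin_alg2 {m n : ℕ} {ι : Type} [Fintype ι] (hmg : m < Fintype.card ι + n)
    (x : Fin n → Fin m → ℂ)
    (h : ∀ ε : ℝ, 0 < ε → ∃ (β : ι → Fin m → ℂ) (κ : ℝ), 0 < κ ∧
      (∀ t : ι → ℂ, κ * ‖t‖ ≤ ‖∑ i, t i • β i‖) ∧
      ∀ i l, ‖∑ u, β i u * x l u‖ ≤ ε * κ) :
    ∃ y : Fin n → ℂ, y ≠ 0 ∧ ∑ l, y l • x l = 0 := by
  refine lin_alg (g := Fintype.card ι) hmg x fun ε hε => ?_
  obtain ⟨β, κ, hκ, h1, h2⟩ := h ε hε
  refine ⟨fun i => β ((Fintype.equivFin ι).symm i), κ, hκ, fun t => ?_, fun i l => h2 _ l⟩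
  have h3 := h1 (fun i => t (Fintype.equivFin ι i))
  have h4 : ‖fun i => t (Fintype.equivFin ι i)‖ = ‖t‖ := by
    apply le_antisymm
    · rw [pi_norm_le_iff_of_nonneg (norm_nonneg _)]
      exact fun i => norm_le_pi_norm t _
    · rw [pi_norm_le_iff_of_nonneg (norm_nonneg _)]
      intro i
      have := norm_le_pi_norm (fun i => t (Fintype.equivFin ι i)) ((Fintype.equivFin ι).symm i)
      simpa using this
  rw [h4] at h3
  refine h3.trans (le_of_eq ?_)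
  congr 1
  refine Fintype.sum_equiv (Fintype.equivFin ι) _ _ fun i => ?_
  simp

lemma UR_UR {Q : ℂ[X]} {U : Set ℂ} (k n : ℕ) : UR P Q (UR P Q U k) n = UR P Q U (n + k) := by
  induction n with
  | zero => rw [zero_add]; rfl
  | succ n ih =>
    rw [show n + 1 + k = (n + k) + 1 by ring]
    change Pre P Q _ = Pre P Q _
    rw [ih]

theorem Trap.ur {Q : ℂ[X]} {U : Set ℂ} (T : Trap P Q U) (k : ℕ) : Trap P Q (UR P Q U k) :=
  ⟨T.cop, T.uopn k, T.bdd.subset (T.sub0 k), T.cl k⟩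

lemma KR_ur {Q : ℂ[X]} {U : Set ℂ} (k : ℕ) : KR P Q U ⊆ KR P Q (UR P Q U k) := by
  intro z hz
  unfold KR
  rw [mem_iInter]
  intro n
  rw [UR_UR]
  exact KR_sub _ hz

lemma UR_anti {Q : ℂ[X]} {U : Set ℂ} (T : Trap P Q U) (k n : ℕ) :
    UR P Q U (n + k) ⊆ UR P Q U n := by
  induction k with
  | zero => exact Subset.rfl
  | succ k ih => exact (T.anti (n + k)).trans ih

lemma dg_ur {Q : ℂ[X]} {U : Set ℂ} (T : Trap P Q U) (k M : ℕ) (x : ℂ) :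
    dg (UR P Q (UR P Q U k)) x M ≤ dg (UR P Q U) x M := by
  unfold dg
  rw [UR_UR]
  refine infDist_le_infDist_of_subset (compl_subset_compl.2 (UR_anti T k M)) ?_
  rw [Set.nonempty_compl]
  intro h
  have h1 := T.bdd.subset (T.sub0 M)
  rw [h] at h1
  exact (NormedSpace.unbounded_univ ℂ ℂ) h1

lemma cau_sum {n : ℕ} {μ : Fin n → ℂ → ℂ} {K : Set ℂ} (h : ∀ l, Bel (μ l) K) (y : Fin n → ℂ)
    (a : ℂ) : cau (fun w => ∑ l, y l * μ l w) a = ∑ l, y l * cau (μ l) a := by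
  unfold cau
  have h1 : (fun w => (∑ l, y l * μ l w) * (w - a)⁻¹) =
      fun w => ∑ l, y l * (μ l w * (w - a)⁻¹) := by
    ext w
    rw [Finset.sum_mul]
    refine Finset.sum_congr rfl fun l _ => ?_
    ring
  rw [h1, integral_finsetSum _ fun l _ => (cau_integrable (h l) a).const_mul _]
  refine Finset.sum_congr rfl fun l _ => ?_
  rw [integral_const_mul]

end Pool.Agent.Zk29.Rat
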