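import Pool.Agent.Zk29.Rat.Mass
import Pool.Agent.H792R2.CE.Main

/-!
# Trapping regions of rational maps
-/

set_option autoImplicit false
open Set Filter Topology Metric MeasureTheory Polynomial
open scoped ENNReal

namespace Pool.Agent.Zk29.Rat

open Pool.Agent.H792R2.CE

/-- The preimage of a set of the plane, without the poles. -/
def Pre (P Q : ℂ[X]) (S : Set ℂ) : Set ℂ := {z | Q.eval z ≠ 0 ∧ rf P Q z ∈ S}

/-- The points which stay in `U` for `k` steps. -/
def UR (P Q : ℂ[X]) (U : Set ℂ) : ℕ → Set ℂ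
  | 0 => U
  | k + 1 => Pre P Q (UR P Q U k)

/-- The points which stay in `U` forever. -/
def KR (P Q : ℂ[X]) (U : Set ℂ) : Set ℂ := ⋂ k, UR P Q U k

/-- `U` is a bounded open set which contains the closure of its preimage. -/
structure Trap (P Q : ℂ[X]) (U : Set ℂ) : Prop where
  cop : IsCoprime P Q
  opn : IsOpen U
  bdd : Bornology.IsBounded U
  cls : closure (Pre P Q U) ⊆ U

variable {P Q : ℂ[X]} {U : Set ℂ}

lemma rf_contAt {z : ℂ} (h : Q.eval z ≠ 0) : ContinuousAt (rf P Q) z :=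
  (rf_hasDerivAt h).continuousAt

lemma pre_open {S : Set ℂ} (hS : IsOpen S) : IsOpen (Pre P Q S) := by
  rw [isOpen_iff_mem_nhds]
  rintro z ⟨h1, h2⟩
  filter_upwards [Q.continuous.continuousAt.eventually_ne h1, rf_contAt h1 (hS.mem_nhds h2)]
    with w h3 h4 using ⟨h3, h4⟩

lemma pre_mono {S T : Set ℂ} (h : S ⊆ T) : Pre P Q S ⊆ Pre P Q T := fun _ hz => ⟨hz.1, h hz.2⟩

theorem Trap.uopn (T : Trap P Q U) (k : ℕ) : IsOpen (UR P Q U k) := by
  induction k with
  | zero => exact T.opn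
  | succ k ih => exact pre_open ih

theorem Trap.anti (T : Trap P Q U) (k : ℕ) : UR P Q U (k + 1) ⊆ UR P Q U k := by
  induction k with
  | zero => exact subset_closure.trans T.cls
  | succ k ih => exact pre_mono ih

theorem Trap.sub0 (T : Trap P Q U) (k : ℕ) : UR P Q U k ⊆ U := by
  induction k with
  | zero => exact subset_rfl
  | succ k ih => exact (T.anti k).trans ih

theorem Trap.cl (T : Trap P Q U) (k : ℕ) : closure (UR P Q U (k + 1)) ⊆ UR P Q U k := by
  induction k with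
  | zero => exact T.cls
  | succ k ih =>
    intro z hz
    obtain ⟨R, hR⟩ := T.bdd.exists_norm_le
    have h1 : ∀ w ∈ UR P Q U (k + 2), ‖P.eval w‖ ≤ R * ‖Q.eval w‖ := by
      rintro w ⟨h2, h3⟩
      have h4 := hR _ (T.sub0 _ h3)
      rw [rf, norm_div, div_le_iff₀ (norm_pos_iff.2 h2)] at h4
      exact h4
    have h2 : ‖P.eval z‖ ≤ R * ‖Q.eval z‖ := by
      have h3 : IsClosed {w : ℂ | ‖P.eval w‖ ≤ R * ‖Q.eval w‖} :=
        isClosed_le P.continuous.norm (continuous_const.mul Q.continuous.norm)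
      exact h3.closure_subset_iff.2 h1 hz
    have hQ : Q.eval z ≠ 0 := by
      intro h0
      rw [h0, norm_zero, mul_zero] at h2
      have hP : P.eval z = 0 := norm_le_zero_iff.1 h2
      obtain ⟨u, v, huv⟩ := T.cop
      have := congrArg (Polynomial.eval z) huv
      rw [eval_add, eval_mul, eval_mul, hP, h0, eval_one] at this
      simp at this
    refine ⟨hQ, ?_⟩
    apply ih
    have h3 : MapsTo (rf P Q) (UR P Q U (k + 2)) (UR P Q U (k + 1)) := fun w hw => hw.2
    exact (rf_contAt hQ).continuousWithinAt.mem_closure hz h3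

theorem KR_sub (k : ℕ) : KR P Q U ⊆ UR P Q U k := iInter_subset _ k

theorem Trap.kcpt (T : Trap P Q U) : IsCompact (KR P Q U) := by
  have h1 : KR P Q U = ⋂ k, closure (UR P Q U (k + 1)) := by
    apply Subset.antisymm
    · intro z hz
      rw [mem_iInter]
      exact fun k => subset_closure (KR_sub (k + 1) hz)
    · intro z hz
      rw [mem_iInter] at hz
      unfold KR
      rw [mem_iInter]
      exact fun k => T.cl k (hz k)
  refine Metric.isCompact_of_isClosed_isBounded ?_ (T.bdd.subset (KR_sub 0))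
  rw [h1]
  exact isClosed_iInter fun k => isClosed_closure

lemma UR_add (k l : ℕ) {z : ℂ} (hz : z ∈ UR P Q U (k + l)) : (rf P Q)^[l] z ∈ UR P Q U k := by
  induction l generalizing z with
  | zero => exact hz
  | succ l ih =>
    rw [Function.iterate_succ_apply]
    exact ih hz.2

lemma Trap.UR_iff (T : Trap P Q U) (k l : ℕ) {z : ℂ} (hz : z ∈ UR P Q U l)
    (h : (rf P Q)^[l] z ∈ UR P Q U k) : z ∈ UR P Q U (k + l) := by
  induction l generalizing z with
  | zero => exact h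
  | succ l ih =>
    rw [Function.iterate_succ_apply] at h
    exact ⟨hz.1, ih hz.2 h⟩

lemma KR_fwd {z : ℂ} (hz : z ∈ KR P Q U) : Q.eval z ≠ 0 ∧ rf P Q z ∈ KR P Q U := by
  refine ⟨(KR_sub 1 hz).1, ?_⟩
  unfold KR
  rw [mem_iInter]
  exact fun k => (KR_sub (k + 1) hz).2

lemma KR_iter {z : ℂ} (hz : z ∈ KR P Q U) (n : ℕ) : (rf P Q)^[n] z ∈ KR P Q U := by
  induction n with
  | zero => exact hz
  | succ n ih =>
    rw [Function.iterate_succ_apply']
    exact (KR_fwd ih).2

lemma UR_pole {k : ℕ} {z : ℂ} (hz : z ∈ UR P Q U k) {j : ℕ} (hj : j < k) :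
    Q.eval ((rf P Q)^[j] z) ≠ 0 := by
  obtain ⟨l, rfl⟩ := Nat.exists_eq_add_of_lt hj
  have h1 : z ∈ UR P Q U ((l + 1) + j) := by
    rw [show l + 1 + j = j + l + 1 by ring]; exact hz
  exact (UR_add _ _ h1).1

lemma UR_diff {k : ℕ} {z : ℂ} (hz : z ∈ UR P Q U k) : DifferentiableAt ℂ ((rf P Q)^[k]) z :=
  rf_iter_diff k fun _ hj => UR_pole hz hj

/-- The geometry of the trapping region. -/
theorem Trap.geo (T : Trap P Q U) : ∃ h L c₀ : ℝ, 0 < h ∧ h ≤ 1 ∧ 0 ≤ L ∧ 0 < c₀ ∧ c₀ ≤ 1 ∧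
    Geo (UR P Q U) (KR P Q U) h L ∧ ∀ x ∈ KR P Q U, c₀ ≤ dg (UR P Q U) x 0 := by
  obtain ⟨R, hR0, hR⟩ : ∃ R : ℝ, 0 < R ∧ ∀ z ∈ U, ‖z‖ ≤ R := by
    obtain ⟨R, hR⟩ := T.bdd.exists_norm_le
    exact ⟨max R 1, by positivity, fun z hz => (hR z hz).trans (le_max_left _ _)⟩
  have hne : ∀ k, ((UR P Q U k)ᶜ).Nonempty := by
    intro k
    refine ⟨((R + 1 : ℝ) : ℂ), fun h => ?_⟩
    have := hR _ (T.sub0 k h)
    rw [Complex.norm_real, Real.norm_eq_abs, abs_of_pos (by positivity)] at this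
    linarith
  obtain ⟨η₀, hη₀, hη₀s⟩ := T.kcpt.exists_thickening_subset_open (T.uopn 1) (KR_sub 1)
  have hc2 : IsCompact (closure (UR P Q U 2)) := (T.bdd.subset (T.sub0 2)).isCompact_closure
  obtain ⟨η₁, hη₁, hη₁s⟩ := hc2.exists_thickening_subset_open (T.uopn 1) (T.cl 1)
  have hK1 : ∀ p ∈ KR P Q U, ∀ w, w ∉ UR P Q U 1 → η₀ ≤ ‖w - p‖ := by
    intro p hp w hw
    by_contra hlt
    push Not at hlt
    apply hw
    apply hη₀s
    rw [mem_thickening_iff]
    exact ⟨p, hp, by rwa [dist_eq_norm]⟩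
  have hK2 : ∀ w w' : ℂ, w ∉ UR P Q U 1 → ‖w' - w‖ < η₁ → w' ∉ UR P Q U 2 := by
    intro w w' hw hww h2
    apply hw
    apply hη₁s
    rw [mem_thickening_iff]
    exact ⟨w', subset_closure h2, by rwa [dist_comm, dist_eq_norm]⟩
  obtain ⟨C, hC⟩ : ∃ C : ℝ, C = max 1 (2 * R / η₀) := ⟨_, rfl⟩
  have hC1 : 1 ≤ C := by rw [hC]; exact le_max_left _ _
  have hC2 : 2 * R / η₀ ≤ C := by rw [hC]; exact le_max_right _ _
  obtain ⟨L, hL⟩ : ∃ L : ℝ, L = Real.log C := ⟨_, rfl⟩
  have hL0 : 0 ≤ L := by rw [hL]; exact Real.log_nonneg hC1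
  have hLC : Real.exp L = C := by rw [hL]; exact Real.exp_log (by linarith)
  obtain ⟨h, hh⟩ : ∃ h : ℝ, h = min (η₁ / (4 * R)) (1 / (L + 1)) := ⟨_, rfl⟩
  have hh0 : 0 < h := by rw [hh]; apply lt_min <;> positivity
  have hhη : h ≤ η₁ / (4 * R) := by rw [hh]; exact min_le_left _ _
  have hhL : h ≤ 1 / (L + 1) := by rw [hh]; exact min_le_right _ _
  have hh1 : h ≤ 1 := hhL.trans (by rw [div_le_one (by linarith)]; linarith)
  have hhL1 : h * L ≤ 1 := by
    calc h * L ≤ 1 / (L + 1) * L := by gcongr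
      _ ≤ 1 := by
        rw [one_div_mul_eq_div, div_le_one (by linarith)]
        linarith
  have hex : ∀ (x : ℂ) (k : ℕ), ∃ y : ℂ, ‖y - x‖ = dg (UR P Q U) x k ∧ y ∉ UR P Q U k := by
    intro x k
    obtain ⟨y, hy, h1⟩ := (T.uopn k).isClosed_compl.exists_infDist_eq_dist (hne k) x
    exact ⟨y, by rw [dg, h1, dist_comm, dist_eq_norm], hy⟩
  have hball : ∀ (x : ℂ) (k : ℕ), ball x (dg (UR P Q U) x k) ⊆ UR P Q U k := by
    intro x k z hz
    by_contra hn
    have h1 := dg_le (x := x) hn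
    rw [mem_ball, dist_eq_norm] at hz
    linarith
  have hpos : ∀ x ∈ KR P Q U, ∀ k, 0 < dg (UR P Q U) x k := fun x hx k =>
    ((T.uopn k).isClosed_compl.notMem_iff_infDist_pos (hne k)).1 fun hn => hn (KR_sub k hx)
  have hanti : ∀ x k, dg (UR P Q U) x (k + 1) ≤ dg (UR P Q U) x k := fun x k =>
    infDist_le_infDist_of_subset (compl_subset_compl.2 (T.anti k)) (hne k)
  -- iterates on balls
  have hsch : ∀ (k : ℕ) (p : ℂ) (r : ℝ), 0 < r → ball p r ⊆ UR P Q U k → ∀ z ∈ ball p r,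
      ‖(rf P Q)^[k] z - (rf P Q)^[k] p‖ ≤ 2 * R / r * ‖z - p‖ := by
    intro k p r hr hb z hz
    have hd : DifferentiableOn ℂ ((rf P Q)^[k]) (ball p r) := fun w hw =>
      (UR_diff (hb hw)).differentiableWithinAt
    have hin : ∀ w ∈ ball p r, ‖(rf P Q)^[k] w‖ ≤ R := by
      intro w hw
      have h1 : w ∈ UR P Q U (0 + k) := by rw [zero_add]; exact hb hw
      exact hR _ (UR_add 0 k h1)
    have hm : MapsTo ((rf P Q)^[k]) (ball p r) (closedBall ((rf P Q)^[k] p) (2 * R)) := by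
      intro w hw
      rw [mem_closedBall, dist_eq_norm]
      have h1 := hin w hw
      have h2 := hin p (mem_ball_self hr)
      have h3 := norm_sub_le ((rf P Q)^[k] w) ((rf P Q)^[k] p)
      linarith
    have h4 := Complex.dist_le_div_mul_dist_of_mapsTo_ball hd hm hz
    rwa [dist_eq_norm, dist_eq_norm] at h4
  refine ⟨h, L, min η₀ 1, hh0, hh1, hL0, by positivity, min_le_right _ _, ?_, ?_⟩
  · refine ⟨T.uopn, hne, T.anti, KR_sub, hh0, hh1, hL0, hhL1, ?_, ?_⟩
    · intro x hx k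
      rw [hLC]
      obtain ⟨y, hy1, hy2⟩ := hex x (k + 1)
      have hp := hpos x hx (k + 1)
      have hp0 := hpos x hx k
      by_cases hlt : dg (UR P Q U) x k ≤ ‖y - x‖
      · rw [hy1] at hlt
        nlinarith
      · push Not at hlt
        have hyb : y ∈ ball x (dg (UR P Q U) x k) := by rwa [mem_ball, dist_eq_norm]
        have hyk : y ∈ UR P Q U k := hball x k hyb
        have h1 : (rf P Q)^[k] y ∉ UR P Q U 1 := by
          intro h2
          apply hy2
          rw [add_comm]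
          exact T.UR_iff 1 k hyk h2
        have h2 := hK1 _ (KR_iter hx k) _ h1
        have h3 := hsch k x _ hp0 (hball x k) y hyb
        rw [hy1] at h3
        have h4 : η₀ ≤ 2 * R / dg (UR P Q U) x k * dg (UR P Q U) x (k + 1) := h2.trans h3
        rw [div_mul_eq_mul_div, le_div_iff₀ hp0] at h4
        calc dg (UR P Q U) x k = (η₀ * dg (UR P Q U) x k) / η₀ := by field_simp
          _ ≤ (2 * R * dg (UR P Q U) x (k + 1)) / η₀ := by gcongr
          _ = 2 * R / η₀ * dg (UR P Q U) x (k + 1) := by ring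
          _ ≤ C * dg (UR P Q U) x (k + 1) := by gcongr
    · intro x hx k hk lam hlam hd
      obtain ⟨y, hy1, hy2⟩ := hex x k
      have hδ := hpos x hx k
      refine ⟨y, hy1, ?_⟩
      obtain ⟨k', rfl⟩ : ∃ k', k = k' + 1 := ⟨k - 1, by omega⟩
      rw [Nat.add_sub_cancel] at hd ⊢
      set δ := dg (UR P Q U) x (k' + 1) with hδdef
      have hr0 : 0 < lam * δ := mul_pos hlam hδ
      have hsub : ball y (lam * δ) ⊆ UR P Q U k' := by
        intro z hz
        apply hball x k'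
        rw [mem_ball, dist_eq_norm] at hz ⊢
        calc ‖z - x‖ = ‖(z - y) + (y - x)‖ := by ring_nf
          _ ≤ ‖z - y‖ + ‖y - x‖ := norm_add_le _ _
          _ < lam * δ + δ := by rw [hy1]; linarith
          _ = (1 + lam) * δ := by ring
          _ ≤ _ := hd
      have hy1' : (rf P Q)^[k'] y ∉ UR P Q U 1 := by
        intro h2
        apply hy2
        rw [add_comm]
        exact T.UR_iff 1 k' (hsub (mem_ball_self hr0)) h2
      intro z hz
      have hz1 : z ∈ ball y (lam * δ) := by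
        apply ball_subset_ball _ hz
        calc h * lam * δ ≤ 1 * lam * δ := by gcongr
          _ = lam * δ := by ring
      refine ⟨hsub hz1, fun h2 => ?_⟩
      have h3 : (rf P Q)^[k'] z ∈ UR P Q U 2 := by
        have h4 : z ∈ UR P Q U (2 + k') := by
          rw [show 2 + k' = k' + 1 + 1 by ring]; exact h2
        exact UR_add 2 k' h4
      refine hK2 _ _ hy1' ?_ h3
      have h5 := hsch k' y _ hr0 hsub z hz1
      refine lt_of_le_of_lt h5 ?_
      rw [mem_ball, dist_eq_norm] at hz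
      calc 2 * R / (lam * δ) * ‖z - y‖ ≤ 2 * R / (lam * δ) * (h * lam * δ) := by gcongr
        _ = 2 * R * h := by field_simp
        _ ≤ 2 * R * (η₁ / (4 * R)) := by gcongr
        _ = η₁ / 2 := by field_simp; norm_num
        _ < η₁ := by linarith
  · intro x hx
    obtain ⟨y, hy1, hy2⟩ := hex x 0
    rw [← hy1]
    refine (min_le_left _ _).trans (hK1 x hx y fun h1 => hy2 (T.anti 0 h1))

end Pool.Agent.Zk29.Rat
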