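import Pool.Agent.Zk29.Rat.Hit

/-!
# Escaping critical orbits
-/

set_option autoImplicit false
open Set Filter Topology Metric MeasureTheory Polynomial
open scoped ENNReal

namespace Pool.Agent.Zk29.Rat

open Pool.Agent.H792R2.CE

variable {P : ℂ[X]} {d : ℕ} {R : ℝ}

/-- The orbit of `v`. -/
noncomputable def orb (P : ℂ[X]) (v : ℂ) (j : ℕ) : ℂ := (fun w : ℂ => P.eval w)^[j] v

/-- The inverses of the derivatives along the orbit of `v`. -/
noncomputable def dl (P : ℂ[X]) (v : ℂ) (j : ℕ) : ℂ := (deriv ((fun w : ℂ => P.eval w)^[j]) v)⁻¹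

lemma orb_zero (v : ℂ) : orb P v 0 = v := rfl

lemma orb_succ (v : ℂ) (j : ℕ) : orb P v (j + 1) = P.eval (orb P v j) := by
  unfold orb
  rw [Function.iterate_succ_apply']

lemma orb_add (v : ℂ) (i j : ℕ) : orb P v (i + j) = orb P (orb P v j) i := by
  unfold orb
  rw [Function.iterate_add_apply]

lemma dl_zero (v : ℂ) : dl P v 0 = 1 := by
  unfold dl
  rw [Function.iterate_zero, deriv_id, inv_one]

lemma iter_differentiable (j : ℕ) : Differentiable ℂ ((fun w : ℂ => P.eval w)^[j]) := by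
  induction j with
  | zero => exact differentiable_id
  | succ j ih =>
    rw [Function.iterate_succ']
    exact P.differentiable.comp ih

lemma deriv_iter_succ (v : ℂ) (j : ℕ) : deriv ((fun w : ℂ => P.eval w)^[j + 1]) v =
    (derivative P).eval (orb P v j) * deriv ((fun w : ℂ => P.eval w)^[j]) v := by
  rw [Function.iterate_succ']
  rw [deriv_comp v P.differentiable.differentiableAt (iter_differentiable j v), P.deriv]
  rfl

lemma dl_succ (v : ℂ) (j : ℕ) : dl P v (j + 1) = dl P v j * (1 / (derivative P).eval (orb P v j)) := by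
  unfold dl
  rw [deriv_iter_succ, mul_inv, one_div, mul_comm]

lemma far (hE : Esc P R) {z : ℂ} (hz : R ≤ ‖z‖) (n : ℕ) : R ≤ ‖orb P z n‖ ∧
    2 ^ n * ‖z‖ ≤ ‖orb P z n‖ := by
  induction n with
  | zero => exact ⟨hz, by rw [orb_zero, pow_zero, one_mul]⟩
  | succ n ih =>
    have h1 := hE.big _ ih.1
    have h2 := hE.one
    rw [orb_succ]
    refine ⟨by linarith [ih.1], ?_⟩
    rw [pow_succ]
    linarith [ih.2]

lemma far_add (hE : Esc P R) {v : ℂ} {k : ℕ} (hk : R ≤ ‖orb P v k‖) {j : ℕ} (hj : k ≤ j) :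
    R ≤ ‖orb P v j‖ := by
  obtain ⟨n, rfl⟩ : ∃ n, j = n + k := ⟨j - k, by omega⟩
  rw [orb_add]
  exact (far hE hk n).1

/-- The height increases along the orbit. -/
lemma height (hE : Esc P R) {v : ℂ} {k : ℕ} (hk : R ≤ ‖orb P v k‖) {j : ℕ} (hj : 1 ≤ j) :
    ‖orb P v k‖ < ‖orb P (orb P v j) k‖ := by
  rw [← orb_add, add_comm, orb_add]
  have h1 := (far hE hk j).2
  have h2 := hE.one
  have h3 : (2 : ℝ) ^ 1 ≤ 2 ^ j := pow_le_pow_right₀ (by norm_num) hj
  have h4 : 0 < ‖orb P v k‖ := by linarith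
  nlinarith

lemma dl_summable (hE : Esc P R) {v : ℂ} {k : ℕ} (hk : R ≤ ‖orb P v k‖) :
    Summable fun j => ‖dl P v j‖ := by
  rw [← summable_nat_add_iff k]
  have h1 : ∀ n, ‖dl P v (n + k)‖ ≤ ‖dl P v k‖ * (1 / 2) ^ n := by
    intro n
    induction n with
    | zero => rw [zero_add, pow_zero, mul_one]
    | succ n ih =>
      have h2 := hE.der _ (far_add hE hk (show k ≤ n + k by omega))
      rw [show n + 1 + k = (n + k) + 1 by ring, dl_succ, norm_mul, norm_div, norm_one, pow_succ]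
      have h3 : 1 / ‖(derivative P).eval (orb P v (n + k))‖ ≤ 1 / 2 :=
        one_div_le_one_div_of_le (by norm_num) h2
      calc ‖dl P v (n + k)‖ * (1 / ‖(derivative P).eval (orb P v (n + k))‖)
          ≤ (‖dl P v k‖ * (1 / 2) ^ n) * (1 / 2) := by gcongr
        _ = _ := by ring
  refine Summable.of_nonneg_of_le (fun n => norm_nonneg _) h1 ?_
  exact (summable_geometric_of_lt_one (by norm_num) (by norm_num)).mul_left _

/-- The test differentials of an escaping critical orbit. -/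
theorem esc_tst (D : Dat P 1 d) (hP : 1 ≤ P.natDegree) (hE : Esc P R) {c : ℂ}
    (hc : (derivative P).eval c = 0) {k : ℕ} (hk : R ≤ ‖orb P (P.eval c) k‖) {η : ℝ} (hη : 0 < η) :
    ∃ J₀ : ℕ, ∀ J, J₀ ≤ J → ∃ (ℓ : ℂ[X] →ₗ[ℂ] ℂ) (β b : ℂ),
      Tst P 1 d (orb P (P.eval c)) (dl P (P.eval c)) J ℓ β b ∧ ‖β‖ ≤ η := by
  have hO : ∀ n, (∀ j < n, (derivative P).eval (orb P (P.eval c) j) ≠ 0) →
      Orb P 1 c (orb P (P.eval c)) (dl P (P.eval c)) n := by
    intro n hn
    refine ⟨by rw [wr_one]; exact hc, by simp, by rw [rf_one]; rfl, fun j _ => ?_, dl_zero _,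
      fun j _ => ?_, fun j _ => by simp, fun j hj => by rw [wr_one]; exact hn j hj⟩
    · rw [rf_one]
      exact orb_succ _ _
    · rw [dl_succ, wr_one, eval_one, one_pow]
  by_cases hhit : ∃ j, (derivative P).eval (orb P (P.eval c) j) = 0
  · classical
    obtain ⟨n, hn, hmin⟩ : ∃ n, (derivative P).eval (orb P (P.eval c) n) = 0 ∧
        ∀ j < n, (derivative P).eval (orb P (P.eval c) j) ≠ 0 :=
      ⟨Nat.find hhit, Nat.find_spec hhit, fun j hj => Nat.find_min hhit hj⟩
    have hz : ∀ j, n < j → dl P (P.eval c) j = 0 := by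
      intro j hj
      induction j with
      | zero => omega
      | succ j ih =>
        rw [dl_succ]
        rcases Nat.lt_or_ge n j with h1 | h1
        · rw [ih h1, zero_mul]
        · have : j = n := by omega
          rw [this, hn, div_zero, mul_zero]
    refine ⟨n + 1, fun J hJ => ?_⟩
    exact ⟨_, 0, 0, hit_tst D hP (hO n hmin) hn hz (by omega), by rw [norm_zero]; exact hη.le⟩
  · push Not at hhit
    have h1 := (dl_summable hE hk).tendsto_atTop_zero
    obtain ⟨J₀, hJ₀⟩ := Filter.eventually_atTop.1 (h1.eventually (Iic_mem_nhds hη))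
    refine ⟨J₀, fun J hJ => ⟨_, _, _, (hO J fun j _ => hhit j).tst D, hJ₀ J hJ⟩⟩

end Pool.Agent.Zk29.Rat
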