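import Pool.Agent.Zk29.Rat.Orb

/-!
# The mass lemma for several critical orbits, and linear algebra
-/

set_option autoImplicit false
open Set Filter Topology Metric MeasureTheory Polynomial
open scoped ENNReal

namespace Pool.Agent.Zk29.Rat

open Pool.Agent.H792R2.CE

variable {P Q : ℂ[X]} {U : Set ℂ} {d : ℕ}

/-- An enumeration of a finite set starting at a given element. -/
lemma enum {ι : Type} [DecidableEq ι] (s : Finset ι) {i0 : ι} (hi0 : i0 ∈ s) :
    ∃ (m : ℕ) (e : ℕ → ι), e 0 = i0 ∧ (∀ n < m + 1, e n ∈ s) ∧ (∀ n < m, e (n + 1) ≠ i0) ∧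
      Set.InjOn e (Finset.range (m + 1) : Finset ℕ) ∧ (Finset.range (m + 1)).image e = s := by
  obtain ⟨s', hs'⟩ : ∃ s', s' = s.erase i0 := ⟨_, rfl⟩
  obtain ⟨e, he⟩ : ∃ e : ℕ → ι, e = fun n => if h : n - 1 < s'.card ∧ 1 ≤ n then
    ((s'.equivFin.symm ⟨n - 1, h.1⟩ : s') : ι) else i0 := ⟨_, rfl⟩
  have he0 : e 0 = i0 := by
    rw [he]
    simp
  have he1 : ∀ n (h : n < s'.card), e (n + 1) = ((s'.equivFin.symm ⟨n, h⟩ : s') : ι) := by
    intro n h
    rw [he]
    simp only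
    rw [dif_pos ⟨by omega, by omega⟩]
    rfl
  have hmem : ∀ n < s'.card, e (n + 1) ∈ s' := by
    intro n h
    rw [he1 n h]
    exact Subtype.coe_prop _
  have hne : ∀ n < s'.card, e (n + 1) ≠ i0 := by
    intro n h
    have := hmem n h
    rw [hs'] at this
    exact Finset.ne_of_mem_erase this
  have hin : ∀ n < s'.card + 1, e n ∈ s := by
    intro n hn
    rcases Nat.eq_zero_or_eq_succ_pred n with h0 | h0
    · rw [h0, he0]
      exact hi0
    · rw [h0]
      have := hmem (n.pred) (by omega)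
      rw [hs'] at this
      exact Finset.mem_of_mem_erase this
  refine ⟨s'.card, e, he0, hin, hne, ?_, ?_⟩
  · intro x hx y hy hxy
    rw [Finset.mem_coe, Finset.mem_range] at hx hy
    cases x with
    | zero =>
      cases y with
      | zero => rfl
      | succ y =>
        rw [he0] at hxy
        exact absurd hxy.symm (hne y (by omega))
    | succ x =>
      cases y with
      | zero =>
        rw [he0] at hxy
        exact absurd hxy (hne x (by omega))
      | succ y =>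
        rw [he1 x (by omega), he1 y (by omega)] at hxy
        have h1 := s'.equivFin.symm.injective (Subtype.ext hxy)
        have h2 : x = y := by
          have := congrArg Fin.val h1
          exact this
        rw [h2]
  · ext p
    rw [Finset.mem_image]
    constructor
    · rintro ⟨n, hn, rfl⟩
      exact hin n (Finset.mem_range.1 hn)
    · intro hp
      by_cases h0 : p = i0
      · exact ⟨0, Finset.mem_range.2 (by omega), by rw [he0, h0]⟩
      · have hp' : p ∈ s' := by rw [hs']; exact Finset.mem_erase.2 ⟨h0, hp⟩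
        refine ⟨(s'.equivFin ⟨p, hp'⟩ : ℕ) + 1, ?_, ?_⟩
        · rw [Finset.mem_range]
          have := (s'.equivFin ⟨p, hp'⟩).2
          omega
        · rw [he1 _ (s'.equivFin ⟨p, hp'⟩).2]
          simp

lemma push_lin {ι : Type} (s : Finset ι) (t : ι → ℂ) (q : ι → ℂ → ℂ) (x : ℂ) :
    push P Q (fun w => ∑ i ∈ s, t i * q i w) x = ∑ i ∈ s, t i * push P Q (q i) x := by
  unfold push
  simp_rw [Finset.mul_sum]
  rw [Finset.sum_comm]
  refine Finset.sum_congr rfl fun i _ => Finset.sum_congr rfl fun w _ => ?_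
  ring

/-- **The mass lemma for several critical orbits.** -/
theorem mass_multi (T : Trap P Q U) (D : Dat P Q d) : ∃ A : ℝ, 1 ≤ A ∧
    ∀ (g : ℕ) (c : Fin g → ℂ) (a α : Fin g → ℕ → ℂ) (J : Fin g → ℕ),
    (∀ i, 1 ≤ J i) → (∀ i, Orb P Q (c i) (a i) (α i) (J i)) →
    (∀ i, ∀ j < J i, a i j ∈ KR P Q U) →
    ∀ (t : Fin g → ℂ) (i0 : Fin g), t i0 = 1 → (∀ i, ‖t i‖ ≤ 1) →
    ∀ W : ℝ, 1 ≤ W → ∑ i, ∑ j ∈ Finset.range (J i), ‖α i j‖ ≤ Real.exp W →
    ∀ (Λ : ℂ[X] →ₗ[ℂ] ℂ) (κ : ℝ), 0 < κ →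
    (∀ᵐ x : ℂ, Λ (SP P Q d x) = ∑ i, t i * ell P Q (c i) (a i) (α i) (J i) (SP P Q d x)) →
    (∀ k ≤ 2 * d, ‖Λ (X ^ k)‖ ≤ κ) →
    ∀ δ : ℝ, 0 < δ → δ ≤ 1 →
    (∀ i, ∀ j < J i, (i ≠ i0 ∨ j ≠ 0) → δ ≤ ‖a i j - a i0 0‖) →
    ∀ M : ℕ, 1 ≤ M → A * W ^ A * dg (UR P Q U) (a i0 0) M ≤ δ →
      δ ≤ A * W ^ A * (M : ℝ) ^ 2 * (κ + ∑ i, ‖α i (J i)‖) := by
  classical
  obtain ⟨A, hA1, hA⟩ := mass_r T D
  obtain ⟨Cp, hCp0, hCp⟩ := lintegral_pole T
  obtain ⟨h, L, c₀, hh0, hh1, hL0, hc₀, hc₁, hG, hdg⟩ := T.geo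
  have hgen := gen_ae D
  refine ⟨A * (Cp + 1), by nlinarith, ?_⟩
  intro g c a α J hJ O haK t i0 ht0 ht W hW1 hW Λ κ hκ hΛ hΛk δ hδ hδ1 hsep M hM hx
  have hW0 : 0 < W := by linarith
  have hAA : A ≤ A * (Cp + 1) := le_mul_of_one_le_right (by linarith) (by linarith)
  have hWA : W ^ A ≤ W ^ (A * (Cp + 1)) := Real.rpow_le_rpow_of_exponent_le hW1 hAA
  have hWA0 : 0 < W ^ A := Real.rpow_pos_of_pos hW0 A
  have hWA0' : 0 < W ^ (A * (Cp + 1)) := Real.rpow_pos_of_pos hW0 _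
  have hA0 : 0 < A := by linarith
  have hd0 := hG.pos (haK i0 0 (by have := hJ i0; omega)) M
  -- enumeration of the poles
  obtain ⟨s, hs⟩ : ∃ s : Finset (Σ _ : Fin g, ℕ),
    s = Finset.univ.sigma fun i => Finset.range (J i) := ⟨_, rfl⟩
  have hmems : ∀ p : (Σ _ : Fin g, ℕ), p ∈ s ↔ p.2 < J p.1 := by
    intro p
    rw [hs, Finset.mem_sigma]
    simp
  have hi0s : (⟨i0, 0⟩ : Σ _ : Fin g, ℕ) ∈ s := (hmems _).2 (by have := hJ i0; simp; omega)
  obtain ⟨m, e, he0, hin, hne, hinj, himg⟩ := enum s hi0s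
  obtain ⟨b, hb⟩ : ∃ b : ℕ → ℂ, b = fun n => a (e n).1 (e n).2 := ⟨_, rfl⟩
  obtain ⟨β, hβ⟩ : ∃ β : ℕ → ℂ, β = fun n => t (e n).1 * α (e n).1 (e n).2 := ⟨_, rfl⟩
  have hb0 : b 0 = a i0 0 := by rw [hb]; simp only; rw [he0]
  have hsumC : ∀ F : (Σ _ : Fin g, ℕ) → ℂ, ∑ n ∈ Finset.range (m + 1), F (e n) =
      ∑ i, ∑ j ∈ Finset.range (J i), F ⟨i, j⟩ := by
    intro F
    rw [← Finset.sum_image hinj, himg, hs, Finset.sum_sigma]
  have hsumR : ∀ F : (Σ _ : Fin g, ℕ) → ℝ, ∑ n ∈ Finset.range (m + 1), F (e n) =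
      ∑ i, ∑ j ∈ Finset.range (J i), F ⟨i, j⟩ := by
    intro F
    rw [← Finset.sum_image hinj, himg, hs, Finset.sum_sigma]
  have hQQ : QQ (m + 1) b β = fun w => ∑ i, t i * QQ (J i) (a i) (α i) w := by
    ext w
    unfold QQ
    rw [hb, hβ]
    have h1 := hsumC fun p => t p.1 * α p.1 p.2 / (w - a p.1 p.2)
    rw [h1]
    refine Finset.sum_congr rfl fun i _ => ?_
    rw [Finset.mul_sum]
    refine Finset.sum_congr rfl fun j _ => ?_
    ring
  have key := hA m b β (fun n hn => by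
      rw [hb]
      exact haK _ _ ((hmems _).1 (hin n hn)))
    (by rw [hβ]; simp only; rw [he0, ht0, (O i0).α0, one_mul]) W hW1 (by
      have h1 : 1 + ∑ j ∈ Finset.range m, ‖β (j + 1)‖ = ∑ j ∈ Finset.range (m + 1), ‖β j‖ := by
        rw [Finset.sum_range_succ', add_comm]
        congr 1
        rw [hβ]
        simp only
        rw [he0, ht0, (O i0).α0, one_mul, norm_one]
      rw [h1, hβ]
      have h2 := hsumR fun p => ‖t p.1 * α p.1 p.2‖
      rw [h2]
      refine le_trans ?_ hW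
      refine Finset.sum_le_sum fun i _ => Finset.sum_le_sum fun j _ => ?_
      rw [norm_mul]
      exact mul_le_of_le_one_left (norm_nonneg _) (ht i)) Λ κ (Cp * ∑ i, ‖α i (J i)‖)
    (fun x => ∑ i, ‖α i (J i) / (x - a i (J i))‖ₑ) hκ (by positivity) hΛk (by
      have h1 : ∀ᵐ x : ℂ, ∀ i j, x ≠ a i j := by
        rw [ae_all_iff]
        intro i
        rw [ae_all_iff]
        intro j
        rw [ae_iff]
        simp
      filter_upwards [hgen, h1, hΛ] with x hx hxa hΛx _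
      rw [hQQ, push_lin, hΛx, ← Finset.sum_sub_distrib, ← Finset.sum_sub_distrib]
      refine (enorm_sum_le _ _).trans (Finset.sum_le_sum fun i _ => ?_)
      have h2 := push_orb D (O i) hx (hxa i)
      have h3 : t i * push P Q (QQ (J i) (a i) (α i)) x - t i * QQ (J i) (a i) (α i) x -
          t i * ell P Q (c i) (a i) (α i) (J i) (SP P Q d x) =
          t i * (α i (J i) / (x - a i (J i))) := by
        linear_combination t i * h2
      rw [h3, enorm_mul]
      refine mul_le_of_le_one_left bot_le ?_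
      rw [← ofReal_norm, ENNReal.ofReal_le_one]
      exact ht i) (by
      rw [lintegral_finsetSum' _ fun i _ => by
        have : Measurable fun x : ℂ => ‖α i (J i) / (x - a i (J i))‖ₑ :=
          (measurable_const.div (measurable_id.sub_const _)).enorm
        exact this.aemeasurable]
      rw [Finset.mul_sum, ENNReal.ofReal_sum_of_nonneg fun i _ => by positivity]
      exact Finset.sum_le_sum fun i _ => hCp _ _) δ hδ hδ1 (fun n hn => by
      rw [hb0, hb]
      have h1 := (hmems _).1 (hin (n + 1) (by omega))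
      refine hsep _ _ h1 ?_
      by_contra hcon
      push Not at hcon
      apply hne n hn
      rcases hen : e (n + 1) with ⟨i, j⟩
      rw [hen] at hcon
      simp only at hcon
      rw [hcon.1, hcon.2]) M hM (by
      rw [hb0]
      refine le_trans ?_ hx
      gcongr)
  refine key.trans ?_
  obtain ⟨Sα, hSα⟩ : ∃ Sα, Sα = ∑ i, ‖α i (J i)‖ := ⟨_, rfl⟩
  have hSα0 : 0 ≤ Sα := by rw [hSα]; positivity
  rw [← hSα]
  have h6 : κ + Cp * Sα ≤ (Cp + 1) * (κ + Sα) := by nlinarith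
  calc A * W ^ A * (M : ℝ) ^ 2 * (κ + Cp * Sα)
      ≤ A * W ^ (A * (Cp + 1)) * (M : ℝ) ^ 2 * ((Cp + 1) * (κ + Sα)) := by gcongr
    _ = A * (Cp + 1) * W ^ (A * (Cp + 1)) * (M : ℝ) ^ 2 * (κ + Sα) := by ring

/-- The linear algebra. -/
theorem lin_alg {m n g : ℕ} (hmg : m < g + n) (x : Fin n → Fin m → ℂ)
    (h : ∀ ε : ℝ, 0 < ε → ∃ (β : Fin g → Fin m → ℂ) (κ : ℝ), 0 < κ ∧
      (∀ t : Fin g → ℂ, κ * ‖t‖ ≤ ‖∑ i, t i • β i‖) ∧
      ∀ i l, ‖∑ u, β i u * x l u‖ ≤ ε * κ) :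
    ∃ y : Fin n → ℂ, y ≠ 0 ∧ ∑ l, y l • x l = 0 := by
  -- the pairing
  obtain ⟨B, hB⟩ : ∃ B : (Fin m → ℂ) →ₗ[ℂ] (Fin n → ℂ),
      ∀ β l, B β l = ∑ u, β u * x l u := by
    refine ⟨LinearMap.pi fun l => ∑ u, (x l u) • LinearMap.proj u, fun β l => ?_⟩
    rw [LinearMap.pi_apply, LinearMap.sum_apply]
    refine Finset.sum_congr rfl fun u _ => ?_
    rw [LinearMap.smul_apply, LinearMap.proj_apply, smul_eq_mul, mul_comm]
  by_cases hsurj : LinearMap.range B = ⊤
  · exfalso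
    obtain ⟨s, hs⟩ := B.exists_rightInverse_of_surjective hsurj
    have hBs : ∀ y, B (s y) = y := fun y => by
      have := congrArg (fun f : (Fin n → ℂ) →ₗ[ℂ] (Fin n → ℂ) => f y) hs
      simpa using this
    obtain ⟨Cs, hCs0, hCs⟩ : ∃ Cs : ℝ, 0 < Cs ∧ ∀ y, ‖s y‖ ≤ Cs * ‖y‖ := by
      obtain ⟨sc, hsc⟩ : ∃ sc : (Fin n → ℂ) →L[ℂ] (Fin m → ℂ), sc = LinearMap.toContinuousLinearMap s :=
        ⟨_, rfl⟩
      refine ⟨‖sc‖ + 1, by positivity, fun y => ?_⟩
      have h1 := sc.le_opNorm y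
      rw [hsc] at h1 ⊢
      have h2 : (LinearMap.toContinuousLinearMap s) y = s y := rfl
      rw [h2] at h1
      refine h1.trans ?_
      gcongr
      linarith
    obtain ⟨β, κ, hκ, h1, h2⟩ := h (1 / (2 * Cs * (g + 1))) (by positivity)
    -- a combination in the complement of the kernel
    obtain ⟨p, hp⟩ : ∃ p : (Fin g → ℂ) →ₗ[ℂ] LinearMap.ker B, ∀ t : Fin g → ℂ,
        ((p t : LinearMap.ker B) : Fin m → ℂ) = (∑ i, t i • β i) - s (B (∑ i, t i • β i)) := by
      obtain ⟨q, hq⟩ : ∃ q : (Fin g → ℂ) →ₗ[ℂ] (Fin m → ℂ), ∀ t, q t = ∑ i, t i • β i := by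
        refine ⟨∑ i, (LinearMap.proj i).smulRight (β i), fun t => ?_⟩
        rw [LinearMap.sum_apply]
        rfl
      refine ⟨(q - s.comp (B.comp q)).codRestrict _ fun t => ?_, fun t => ?_⟩
      · rw [LinearMap.mem_ker, LinearMap.sub_apply, LinearMap.comp_apply, LinearMap.comp_apply,
          map_sub, hBs, sub_self]
      · rw [LinearMap.codRestrict_apply, LinearMap.sub_apply, LinearMap.comp_apply,
          LinearMap.comp_apply, hq]
    have hrk : Module.finrank ℂ (LinearMap.ker B) < Module.finrank ℂ (Fin g → ℂ) := by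
      have h3 := B.finrank_range_add_finrank_ker
      rw [hsurj, finrank_top, Module.finrank_fin_fun, Module.finrank_fin_fun] at h3
      rw [Module.finrank_fin_fun]
      omega
    have h3 := LinearMap.ker_ne_bot_of_finrank_lt (f := p) hrk
    obtain ⟨t, ht, ht0⟩ := (Submodule.ne_bot_iff _).1 h3
    rw [LinearMap.mem_ker] at ht
    have h4 : (∑ i, t i • β i) = s (B (∑ i, t i • β i)) := by
      have h5 := hp t
      rw [ht] at h5
      rw [eq_comm, ← sub_eq_zero, ← neg_sub, neg_eq_zero]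
      exact h5.symm
    have htn : 0 < ‖t‖ := norm_pos_iff.2 ht0
    have h5 : ‖B (∑ i, t i • β i)‖ ≤ g * (‖t‖ * (1 / (2 * Cs * (g + 1)) * κ)) := by
      rw [map_sum]
      refine (norm_sum_le _ _).trans ?_
      have h6 : ∀ i ∈ (Finset.univ : Finset (Fin g)), ‖B (t i • β i)‖ ≤
          ‖t‖ * (1 / (2 * Cs * (g + 1)) * κ) := by
        intro i _
        rw [map_smul, norm_smul]
        gcongr
        · exact norm_le_pi_norm t i
        · rw [pi_norm_le_iff_of_nonneg (by positivity)]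
          intro l
          rw [hB]
          exact h2 i l
      refine (Finset.sum_le_sum h6).trans (le_of_eq ?_)
      rw [Finset.sum_const, Finset.card_univ, Fintype.card_fin, nsmul_eq_mul]
    have h7 := h1 t
    have h8 : ‖∑ i, t i • β i‖ ≤ Cs * (g * (‖t‖ * (1 / (2 * Cs * (g + 1)) * κ))) := by
      rw [h4]
      exact (hCs _).trans (by gcongr)
    have h9 : Cs * (g * (‖t‖ * (1 / (2 * Cs * (g + 1)) * κ))) = κ * ‖t‖ * (g / (2 * (g + 1))) := by
      field_simp
    have h10 : (g : ℝ) / (2 * (g + 1)) < 1 := by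
      rw [div_lt_one (by positivity)]
      have : (0 : ℝ) ≤ g := Nat.cast_nonneg g
      linarith
    have h11 : 0 < κ * ‖t‖ := by positivity
    nlinarith
  · obtain ⟨φ, hφ0, hφ⟩ := Submodule.exists_le_ker_of_lt_top _ (lt_top_iff_ne_top.2 hsurj)
    obtain ⟨y, hy⟩ : ∃ y : Fin n → ℂ, y = fun l => φ (Pi.single l 1) := ⟨_, rfl⟩
    have hφy : ∀ z : Fin n → ℂ, φ z = ∑ l, z l * y l := by
      intro z
      conv_lhs => rw [← Finset.univ_sum_single z]
      rw [map_sum]
      refine Finset.sum_congr rfl fun l _ => ?_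
      have h1 : (Pi.single l (z l) : Fin n → ℂ) = z l • (Pi.single l (1 : ℂ)) := by
        rw [← Pi.single_smul, smul_eq_mul, mul_one]
      rw [h1, map_smul, smul_eq_mul, hy]
    refine ⟨y, ?_, ?_⟩
    · intro h0
      apply hφ0
      ext l
      simp only [LinearMap.comp_apply, LinearMap.zero_apply]
      have := congrFun h0 l
      rw [hy] at this
      exact this
    · ext u
      have h1 : φ (B (Pi.single u 1)) = 0 := hφ ⟨_, rfl⟩
      rw [hφy] at h1
      rw [Finset.sum_apply, Pi.zero_apply]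
      simp only [Pi.smul_apply, smul_eq_mul]
      rw [← h1]
      refine Finset.sum_congr rfl fun l _ => ?_
      rw [hB, Finset.sum_eq_single u]
      · rw [Pi.single_eq_same]
        ring
      · intro v _ hv
        rw [Pi.single_eq_of_ne hv, zero_mul]
      · intro h
        exact absurd (Finset.mem_univ u) h

end Pool.Agent.Zk29.Rat
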