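import Pool.Agent.Zk29.Rat.Cau

/-!
# The infinitesimal deformation defined by an invariant line field
-/

set_option autoImplicit false
open Set Filter Topology Metric MeasureTheory Polynomial
open scoped ENNReal

namespace Pool.Agent.Zk29.Rat

open Pool.Agent.H792R2.CE

variable {P Q : ℂ[X]} {U : Set ℂ} {d : ℕ} {μ : ℂ → ℂ}

/-- `μ` is a bounded invariant Beltrami differential which vanishes outside `KR`. -/
structure InvK (P Q : ℂ[X]) (U : Set ℂ) (μ : ℂ → ℂ) : Prop where
  inv : IsInv P Q μ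
  off : ∀ z, z ∉ KR P Q U → μ z = 0

theorem InvK.bel (h : InvK P Q U μ) (T : Trap P Q U) : Bel μ (KR P Q U) := by
  obtain ⟨B, hB⟩ := h.inv.bdd
  exact ⟨T.kcpt, h.inv.meas, ⟨B, (norm_nonneg _).trans (hB 0), hB⟩, h.off⟩

lemma preim_KR (T : Trap P Q U) : rf P Q ⁻¹' KR P Q U ⊆ KR P Q U ∪ {z : ℂ | Q.eval z = 0} := by
  intro z hz
  by_cases h0 : Q.eval z = 0
  · exact Or.inr h0
  · left
    have hz' : rf P Q z ∈ KR P Q U := hz
    unfold KR
    rw [mem_iInter]
    intro k
    cases k with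
    | zero => exact T.anti 0 ⟨h0, KR_sub 0 hz'⟩
    | succ k => exact ⟨h0, KR_sub k hz'⟩

theorem pair_push (T : Trap P Q U) (D : Dat P Q d) (h : InvK P Q U μ) {q : ℂ → ℂ}
    (hq : Measurable q) (hint : ∫⁻ w in KR P Q U, ‖q w‖ₑ ≠ ⊤) :
    Integrable (fun x => μ x * push P Q q x) ∧
      ∫ x, μ x * push P Q q x = ∫ w, μ w * q w := by
  have hKm : MeasurableSet (KR P Q U) := T.kcpt.isClosed.measurableSet
  have hint' : ∫⁻ w in rf P Q ⁻¹' KR P Q U, ‖q w‖ₑ ≠ ⊤ := by
    refine ne_top_of_le_ne_top hint ((lintegral_mono_set (preim_KR T)).trans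
      ((lintegral_union_le _ _ _).trans (le_of_eq ?_)))
    rw [setLIntegral_measure_zero _ _ (pole_null D.q0), add_zero]
  obtain ⟨h1, h2⟩ := inv_int D h.inv hq hKm hint'
  have h3 : ∀ x, x ∉ KR P Q U → μ x * push P Q q x = 0 := fun x hx => by
    rw [h.off x hx, zero_mul]
  have h4 : ∀ x, x ∉ rf P Q ⁻¹' KR P Q U → μ x * q x = 0 := fun x hx => by
    rw [h.off x (fun hk => hx (KR_fwd hk).2), zero_mul]
  constructor
  · have h5 := (integrable_indicator_iff hKm).2 h1
    refine h5.congr (Eventually.of_forall fun x => ?_)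
    by_cases hx : x ∈ KR P Q U
    · rw [indicator_of_mem hx]
    · rw [indicator_of_notMem hx]
      exact (h3 x hx).symm
  · rw [← setIntegral_eq_integral_of_forall_compl_eq_zero h3, h2,
      setIntegral_eq_integral_of_forall_compl_eq_zero h4]

theorem sp_node (T : Trap P Q U) (D : Dat P Q d) (h : InvK P Q U μ) (z : ℂ) :
    Integrable (fun x => μ x * (SP P Q d x).eval z) ∧
      ∫ x, μ x * (SP P Q d x).eval z =
        (wr P Q).eval z * cau μ z - Q.eval z ^ 2 * cau μ (rf P Q z) := by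
  have hB := h.bel T
  obtain ⟨Cn, hCn, hk⟩ := ker_cpt T.kcpt
  have hq : Measurable fun w : ℂ => 1 / (w - z) := measurable_const.div (measurable_id.sub_const z)
  obtain ⟨h1, h2⟩ := pair_push T D h hq (by
    simp only [one_div]
    exact ne_top_of_le_ne_top hCn (hk z))
  have h3 := cau_integrable hB (rf P Q z)
  have hae : ∀ᵐ x : ℂ, (wr P Q).eval z * (μ x * push P Q (fun w => 1 / (w - z)) x) -
      Q.eval z ^ 2 * (μ x * (x - rf P Q z)⁻¹) = μ x * (SP P Q d x).eval z := by
    have e1 : ∀ᵐ x : ℂ, x ≠ rf P Q z := by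
      rw [ae_iff]
      simp
    filter_upwards [gen_ae D, e1] with x hx hxz
    have hD : (P - C x * Q).eval z ≠ 0 := by
      intro h0
      exact sub_eval_ne (D4x.coprime_ne D.cop h0) hxz h0
    have e2 := (SP_spec D hx).2 z hD
    rw [push_neg]
    have e3 : Q.eval z ^ 3 / (P - C x * Q).eval z = -(Q.eval z ^ 2 * (x - rf P Q z)⁻¹) := by
      by_cases hQ : Q.eval z = 0
      · rw [hQ]
        simp
      · rw [cube_div hQ hxz, div_eq_mul_inv]
    rw [e3] at e2
    linear_combination μ x * e2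
  have h4 := (h1.const_mul ((wr P Q).eval z)).sub (h3.const_mul (Q.eval z ^ 2))
  refine ⟨h4.congr hae, ?_⟩
  rw [← integral_congr_ae hae, integral_sub (h1.const_mul _) (h3.const_mul _),
    integral_const_mul, integral_const_mul, h2]
  congr 2
  unfold cau
  simp only [one_div]

/-- The polynomial of the infinitesimal deformation. -/
theorem Smu_exists (T : Trap P Q U) (D : Dat P Q d) (h : InvK P Q U μ) :
    ∃ S : ℂ[X], S.natDegree ≤ 2 * d ∧
      (∀ Λ : ℂ[X] →ₗ[ℂ] ℂ, Integrable (fun x => μ x * Λ (SP P Q d x)) ∧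
        Λ S = ∫ x, μ x * Λ (SP P Q d x)) ∧
      ∀ z, S.eval z = (wr P Q).eval z * cau μ z - Q.eval z ^ 2 * cau μ (rf P Q z) := by
  obtain ⟨z, hz⟩ : ∃ z : ℕ → ℂ, z = fun i : ℕ => (i : ℂ) := ⟨_, rfl⟩
  have hzinj : Function.Injective z := by
    intro i j hij
    rw [hz] at hij
    exact Nat.cast_injective hij
  obtain ⟨l, hl⟩ : ∃ l : ℕ → ℂ[X], l = fun i => if i ∈ Finset.range (2 * d + 1) then
    Lagrange.basis (Finset.range (2 * d + 1)) z i else 0 := ⟨_, rfl⟩
  have hld : ∀ i, (l i).natDegree ≤ 2 * d := by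
    intro i
    rw [hl]
    simp only
    split_ifs with hi
    · have h1 := Lagrange.degree_basis (v := z) (hzinj.injOn) hi
      rw [Finset.card_range] at h1
      exact natDegree_le_of_degree_le (by rw [h1]; simp)
    · simp
  have hlag : ∀ (Λ : ℂ[X] →ₗ[ℂ] ℂ) (S : ℂ[X]), S.natDegree ≤ 2 * d → Λ S =
      ∑ i ∈ Finset.range (2 * d + 1), S.eval (z i) * Λ (l i) := by
    intro Λ S hS
    have h1 := Lagrange.eq_interpolate (f := S) (s := Finset.range (2 * d + 1)) (v := z)
      hzinj.injOn (by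
        rw [Finset.card_range]
        refine lt_of_le_of_lt degree_le_natDegree ?_
        exact_mod_cast Nat.lt_succ_of_le hS)
    rw [Lagrange.interpolate_apply] at h1
    conv_lhs => rw [h1]
    rw [map_sum]
    refine Finset.sum_congr rfl fun i hi => ?_
    rw [← smul_eq_C_mul, map_smul, smul_eq_mul, hl]
    simp only
    rw [if_pos hi]
  obtain ⟨σ, hσ⟩ : ∃ σ : ℕ → ℂ, σ = fun i => ∫ x, μ x * (SP P Q d x).eval (z i) := ⟨_, rfl⟩
  obtain ⟨S, hS⟩ : ∃ S : ℂ[X], S = ∑ i ∈ Finset.range (2 * d + 1), σ i • l i := ⟨_, rfl⟩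
  have hSd : S.natDegree ≤ 2 * d := by
    rw [hS]
    exact natDegree_sum_le_of_forall_le _ _ fun i _ => (natDegree_smul_le _ _).trans (hld i)
  have hkey : ∀ Λ : ℂ[X] →ₗ[ℂ] ℂ, Integrable (fun x => μ x * Λ (SP P Q d x)) ∧
        Λ S = ∫ x, μ x * Λ (SP P Q d x) := by
    intro Λ
    have hae : ∀ᵐ x : ℂ, ∑ i ∈ Finset.range (2 * d + 1),
        μ x * (SP P Q d x).eval (z i) * Λ (l i) = μ x * Λ (SP P Q d x) := by
      filter_upwards [gen_ae D] with x hx
      rw [hlag Λ _ (SP_spec D hx).1, Finset.mul_sum]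
      refine Finset.sum_congr rfl fun i _ => ?_
      ring
    have hI : ∀ i ∈ Finset.range (2 * d + 1),
        Integrable fun x => μ x * (SP P Q d x).eval (z i) * Λ (l i) :=
      fun i _ => (sp_node T D h (z i)).1.mul_const _
    refine ⟨(integrable_finsetSum _ hI).congr hae, ?_⟩
    rw [← integral_congr_ae hae, integral_finsetSum _ hI, hS, map_sum]
    refine Finset.sum_congr rfl fun i _ => ?_
    rw [map_smul, smul_eq_mul, integral_mul_const, hσ]
  refine ⟨S, hSd, hkey, fun w => ?_⟩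
  have h1 := (hkey (leval w)).2
  simp only [leval_apply] at h1
  rw [h1]
  exact (sp_node T D h w).2

/-- The functional of a critical orbit on the infinitesimal deformation. -/
theorem ell_Smu {c : ℂ} {a α : ℕ → ℂ} {J : ℕ} (O : Orb P Q c a α J) {S : ℂ[X]}
    (hS : ∀ z, S.eval z = (wr P Q).eval z * cau μ z - Q.eval z ^ 2 * cau μ (rf P Q z)) :
    ell P Q c a α J S = -(α J * cau μ (a J)) := by
  rw [ell_apply, hS c, O.c0, ← O.a0]
  have h1 : ∀ n ≤ J, ∑ j ∈ Finset.range n, α j / (wr P Q).eval (a j) * S.eval (a j) =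
      cau μ (a 0) - α n * cau μ (a n) := by
    intro n
    induction n with
    | zero =>
      intro _
      rw [Finset.sum_range_zero, O.α0]
      ring
    | succ n ih =>
      intro hn
      rw [Finset.sum_range_succ, ih (by omega), hS, O.αs n (by omega), O.as n (by omega)]
      have h2 := O.na n (by omega)
      field_simp
      ring
  rw [h1 J le_rfl]
  have h3 := O.qc
  field_simp
  ring

end Pool.Agent.Zk29.Rat
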