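import Pool.Agent.Zk29.Rat.MassR2
import Pool.Agent.Zk29.Rat.Smu
import Pool.Agent.Zk29.Rat.Multi

/-!
# Test differentials
-/

set_option autoImplicit false
open Set Filter Topology Metric MeasureTheory Polynomial
open scoped ENNReal

namespace Pool.Agent.Zk29.Rat

open Pool.Agent.H792R2.CE

variable {P Q : ℂ[X]} {U : Set ℂ} {d : ℕ}

/-- The quadratic differential with the residues `α j` at the points `a j` is almost invariant. -/
structure Tst (P Q : ℂ[X]) (d : ℕ) (a α : ℕ → ℂ) (J : ℕ) (ℓ : ℂ[X] →ₗ[ℂ] ℂ) (β b : ℂ) : Prop where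
  psh : ∀ᵐ x : ℂ, push P Q (QQ J a α) x - QQ J a α x = ℓ (SP P Q d x) + β / (x - b)

theorem Orb.tst (D : Dat P Q d) {c : ℂ} {a α : ℕ → ℂ} {J : ℕ} (O : Orb P Q c a α J) :
    Tst P Q d a α J (ell P Q c a α J) (α J) (a J) := by
  constructor
  have h1 : ∀ᵐ x : ℂ, ∀ j, x ≠ a j := by
    rw [ae_all_iff]
    intro j
    rw [ae_iff]
    simp
  filter_upwards [gen_ae D, h1] with x hx hxa
  exact push_orb D O hx hxa

variable {a α : ℕ → ℂ} {J : ℕ} {ℓ : ℂ[X] →ₗ[ℂ] ℂ} {β b : ℂ} {μ : ℂ → ℂ}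

/-- The functional of a test differential on the infinitesimal deformation. -/
theorem Tst.smu (T : Trap P Q U) (D : Dat P Q d) (h : InvK P Q U μ)
    (t : Tst P Q d a α J ℓ β b) {S : ℂ[X]}
    (hS : ∀ Λ : ℂ[X] →ₗ[ℂ] ℂ, Λ S = ∫ x, μ x * Λ (SP P Q d x)) : ℓ S = -(β * cau μ b) := by
  obtain ⟨R, hR⟩ := T.bdd.exists_norm_le
  have hKR : KR P Q U ⊆ ball 0 (R + 1) := by
    intro z hz
    rw [mem_ball_zero_iff]
    have := hR z (KR_sub 0 hz)
    linarith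
  have hqm := measurable_QQ J a α
  have hfin : ∫⁻ w in KR P Q U, ‖QQ J a α w‖ₑ ≠ ⊤ :=
    ne_top_of_le_ne_top (QQ_fin (R + 1) J a α) (lintegral_mono_set hKR)
  obtain ⟨h1, h2⟩ := pair_push T D h hqm hfin
  have hB := h.bel T
  have h3 : Integrable fun x => μ x * QQ J a α x := by
    unfold QQ
    simp_rw [Finset.mul_sum]
    refine integrable_finsetSum _ fun j _ => ?_
    have := (cau_integrable hB (a j)).const_mul (α j)
    refine this.congr (Eventually.of_forall fun x => ?_)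
    simp only [div_eq_mul_inv]
    ring
  have h4 := (cau_integrable hB b).const_mul β
  rw [hS ℓ]
  have h5 : ∀ᵐ x : ℂ, μ x * ℓ (SP P Q d x) = μ x * push P Q (QQ J a α) x -
      μ x * QQ J a α x - β * (μ x * (x - b)⁻¹) := by
    filter_upwards [t.psh] with x hx
    have h6 : ℓ (SP P Q d x) = push P Q (QQ J a α) x - QQ J a α x - β / (x - b) := by
      rw [hx]
      ring
    rw [h6]
    ring
  have h13 : Integrable fun x => μ x * push P Q (QQ J a α) x - μ x * QQ J a α x := h1.sub h3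
  rw [integral_congr_ae h5, integral_sub h13 h4, integral_sub h1 h3, h2,
    integral_const_mul]
  unfold cau
  ring

/-- A majorant of the values of the functionals. -/
theorem SP_major (T : Trap P Q U) (D : Dat P Q d) : ∃ b₀ : ℂ → ℝ≥0∞, Measurable b₀ ∧
    ∫⁻ x in U, b₀ x ≠ ⊤ ∧ ∀ (Λ : ℂ[X] →ₗ[ℂ] ℂ) (κ : ℝ), 0 ≤ κ → (∀ i ≤ 2 * d, ‖Λ (X ^ i)‖ ≤ κ) →
      ∀ᵐ x : ℂ, x ∈ U → ‖Λ (SP P Q d x)‖ₑ ≤ ENNReal.ofReal κ * b₀ x := by
  obtain ⟨R, hR⟩ := T.bdd.exists_norm_le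
  obtain ⟨z, hz⟩ : ∃ z : ℕ → ℂ, z = fun i : ℕ => ((|R| + 1 + (i : ℝ) : ℝ) : ℂ) := ⟨_, rfl⟩
  have hzU : ∀ i, ∀ w ∈ U, 1 ≤ ‖z i - w‖ := by
    intro i w hw
    have h1 := hR w hw
    have h2 : ‖z i‖ = |R| + 1 + i := by
      rw [hz]
      simp only
      rw [Complex.norm_real, Real.norm_eq_abs, abs_of_nonneg (by positivity)]
    have h3 := norm_sub_norm_le (z i) w
    have h4 := le_abs_self R
    have h5 : (0 : ℝ) ≤ i := Nat.cast_nonneg i
    linarith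
  have hzinj : Function.Injective z := by
    intro i j hij
    rw [hz] at hij
    simp only at hij
    have h1 : |R| + 1 + (i : ℝ) = |R| + 1 + (j : ℝ) := Complex.ofReal_injective hij
    exact_mod_cast (add_left_cancel h1)
  obtain ⟨l, hl⟩ : ∃ l : ℕ → ℂ[X], l = fun i => if i ∈ Finset.range (2 * d + 1) then
    Lagrange.basis (Finset.range (2 * d + 1)) z i else 0 := ⟨_, rfl⟩
  have hld : ∀ i, (l i).natDegree ≤ 2 * d := by
    intro i
    rw [hl]
    simp only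
    split_ifs with hi
    · have h1 := Lagrange.degree_basis (v := z) (hzinj.injOn) hi
      rw [Finset.card_range] at h1
      exact natDegree_le_of_degree_le (by rw [h1]; simp)
    · simp
  choose bb hbm hb1 hb2 using fun i => SP_int T D (hzU i)
  obtain ⟨Cl, hCl⟩ : ∃ Cl : ℝ, Cl = ∑ i ∈ Finset.range (2 * d + 1),
    ∑ k ∈ Finset.range (2 * d + 1), ‖(l i).coeff k‖ := ⟨_, rfl⟩
  have hCl0 : 0 ≤ Cl := by rw [hCl]; positivity
  have hbs : Measurable fun x => ∑ i ∈ Finset.range (2 * d + 1), bb i x :=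
    Finset.measurable_fun_sum _ fun i _ => hbm i
  refine ⟨fun x => ENNReal.ofReal Cl * ∑ i ∈ Finset.range (2 * d + 1), bb i x,
    hbs.const_mul _, ?_, ?_⟩
  · rw [lintegral_const_mul _ hbs, lintegral_finsetSum' _ fun i _ => (hbm i).aemeasurable]
    exact ENNReal.mul_ne_top ENNReal.ofReal_ne_top (ENNReal.sum_ne_top.2 fun i _ => hb2 i)
  intro Λ κ hκ hΛ'
  have hΛ : ∀ i ∈ Finset.range (2 * d + 1), ‖Λ (l i)‖ ≤ Cl * κ := by
    intro i hi
    have h1 : l i = ∑ k ∈ Finset.range (2 * d + 1), (l i).coeff k • (X : ℂ[X]) ^ k := by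
      conv_lhs => rw [(l i).as_sum_range_C_mul_X_pow' (Nat.lt_succ_of_le (hld i))]
      simp only [smul_eq_C_mul]
    rw [h1, map_sum, hCl, Finset.sum_mul]
    refine (norm_sum_le _ _).trans ?_
    refine le_trans ?_ (Finset.single_le_sum (f := fun i => (∑ k ∈ Finset.range (2 * d + 1),
      ‖(l i).coeff k‖) * κ) (fun i _ => by positivity) hi)
    rw [Finset.sum_mul]
    refine Finset.sum_le_sum fun k hk => ?_
    rw [map_smul, norm_smul]
    gcongr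
    apply hΛ'
    rw [Finset.mem_range] at hk
    omega
  have hlag : ∀ S : ℂ[X], S.natDegree ≤ 2 * d → Λ S =
      ∑ i ∈ Finset.range (2 * d + 1), S.eval (z i) * Λ (l i) := by
    intro S hS
    have h1 := Lagrange.eq_interpolate (f := S) (s := Finset.range (2 * d + 1)) (v := z)
      hzinj.injOn (by
        rw [Finset.card_range]
        refine lt_of_le_of_lt degree_le_natDegree ?_
        exact_mod_cast Nat.lt_succ_of_le hS)
    rw [Lagrange.interpolate_apply] at h1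
    conv_lhs => rw [h1]
    rw [map_sum]
    refine Finset.sum_congr rfl fun i hi => ?_
    rw [← smul_eq_C_mul, map_smul, smul_eq_mul, hl]
    simp only
    rw [if_pos hi]
  have hzae : ∀ᵐ x : ℂ, ∀ i, x ≠ rf P Q (z i) := by
    rw [ae_all_iff]
    intro i
    rw [ae_iff]
    simp
  filter_upwards [gen_ae D, hzae] with x h2 h3 hxU
  rw [hlag _ (SP_spec D h2).1, ← mul_assoc, ← ENNReal.ofReal_mul hκ, Finset.mul_sum]
  refine (enorm_sum_le _ _).trans (Finset.sum_le_sum fun i hi => ?_)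
  rw [enorm_mul, mul_comm]
  gcongr
  · rw [← ofReal_norm]
    apply ENNReal.ofReal_le_ofReal
    rw [mul_comm κ]
    exact hΛ i hi
  · exact hb1 i x hxU h2 (h3 i)

/-- If the push-forward of a quadratic differential is close to it in `U`, then its masses in
the annuli are small. -/
theorem small_gen (T : Trap P Q U) (hQ : Q ≠ 0) {q : ℂ → ℂ} (hqm : Measurable q)
    (hqf : ∫⁻ w in U, ‖q w‖ₑ ≠ ⊤) {b : ℂ → ℝ≥0∞} {ε : ℝ}
    (hb : ∀ᵐ x : ℂ, x ∈ U → ‖push P Q q x - q x‖ₑ ≤ b x)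
    (hε : ∫⁻ x in U, b x ≤ ENNReal.ofReal ε) (k : ℕ) :
    ∫⁻ w in UR P Q U k \ UR P Q U (k + 1), ‖q w‖ₑ ≤ ENNReal.ofReal ε := by
  obtain ⟨E, hE⟩ : ∃ E, E = UR P Q U k := ⟨_, rfl⟩
  rw [← hE]
  have hEm : MeasurableSet E := by rw [hE]; exact (T.uopn k).measurableSet
  have hEU : E ⊆ U := by rw [hE]; exact T.sub0 k
  obtain ⟨Tm, hTm, hT1, hT2⟩ := major T.cop hqm.enorm
  have hfin : ∫⁻ w in E, ‖q w‖ₑ ≠ ⊤ :=
    ne_top_of_le_ne_top hqf (lintegral_mono_set hEU)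
  have her : ∫⁻ w in E, b w ≤ ENNReal.ofReal ε := (lintegral_mono_set hEU).trans hε
  have key : ∫⁻ w in E, ‖q w‖ₑ ≤ (∫⁻ w in UR P Q U (k + 1), ‖q w‖ₑ) +
      ENNReal.ofReal ε := by
    calc ∫⁻ w in E, ‖q w‖ₑ
        ≤ ∫⁻ w in E, (Tm w + b w) := by
          apply lintegral_mono_ae
          rw [ae_restrict_iff' hEm]
          filter_upwards [hb] with w hw hwE
          have h1 := hw (hEU hwE)
          have h2 : q w = push P Q q w - (push P Q q w - q w) := by ring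
          calc ‖q w‖ₑ = ‖push P Q q w - (push P Q q w - q w)‖ₑ := by rw [← h2]
            _ ≤ ‖push P Q q w‖ₑ + ‖push P Q q w - q w‖ₑ := enorm_sub_le
            _ ≤ _ := add_le_add ((enorm_push_le _ _).trans (hT1 w)) h1
      _ = (∫⁻ w in E, Tm w) + ∫⁻ w in E, b w := lintegral_add_left hTm _
      _ ≤ _ := by
          refine add_le_add ((hT2 E hEm).trans ?_) her
          have hsub : rf P Q ⁻¹' E ⊆ UR P Q U (k + 1) ∪ {z : ℂ | Q.eval z = 0} := by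
            intro z hz
            by_cases h0 : Q.eval z = 0
            · exact Or.inr h0
            · refine Or.inl ⟨h0, ?_⟩
              rw [← hE]
              exact hz
          calc ∫⁻ w in rf P Q ⁻¹' E, ‖q w‖ₑ
              ≤ ∫⁻ w in UR P Q U (k + 1) ∪ {z : ℂ | Q.eval z = 0}, ‖q w‖ₑ :=
                lintegral_mono_set hsub
            _ ≤ (∫⁻ w in UR P Q U (k + 1), ‖q w‖ₑ) +
                ∫⁻ w in {z : ℂ | Q.eval z = 0}, ‖q w‖ₑ := lintegral_union_le _ _ _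
            _ = _ := by rw [setLIntegral_measure_zero _ _ (pole_null hQ), add_zero]
  have hsub : UR P Q U (k + 1) ⊆ E := by rw [hE]; exact T.anti k
  have h3 : (∫⁻ w in UR P Q U (k + 1), ‖q w‖ₑ) +
      ∫⁻ w in E \ UR P Q U (k + 1), ‖q w‖ₑ ≤
      (∫⁻ w in UR P Q U (k + 1), ‖q w‖ₑ) + ENNReal.ofReal ε := by
    have h4 := lintegral_inter_add_sdiff (μ := volume) (fun w => ‖q w‖ₑ) E
      (T.uopn (k + 1)).measurableSet
    rw [inter_eq_right.mpr hsub] at h4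
    rw [h4]
    exact key
  refine ENNReal.le_of_add_le_add_left ?_ h3
  exact ne_top_of_le_ne_top hfin (lintegral_mono_set hsub)

/-- **The mass lemma for test differentials.** -/
theorem mass_tst (T : Trap P Q U) (D : Dat P Q d) : ∃ A : ℝ, 1 ≤ A ∧
    ∀ (ι : Type) [Fintype ι] [DecidableEq ι] (a α : ι → ℕ → ℂ) (J : ι → ℕ)
      (ℓ : ι → ℂ[X] →ₗ[ℂ] ℂ) (β b : ι → ℂ),
    (∀ i, Tst P Q d (a i) (α i) (J i) (ℓ i) (β i) (b i)) →
    (∀ i, ∀ j < J i, a i j ∈ KR P Q U ∨ a i j ∉ U) →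
    ∀ (t : ι → ℂ) (i0 : ι), 1 ≤ J i0 → t i0 = 1 → α i0 0 = 1 → a i0 0 ∈ KR P Q U →
    ∀ W : ℝ, 1 ≤ W → ∑ i, ∑ j ∈ Finset.range (J i), ‖t i * α i j‖ ≤ Real.exp W →
    ∀ (Λ : ℂ[X] →ₗ[ℂ] ℂ) (κ : ℝ), 0 < κ →
    (∀ᵐ x : ℂ, Λ (SP P Q d x) = ∑ i, t i * ℓ i (SP P Q d x)) →
    (∀ k ≤ 2 * d, ‖Λ (X ^ k)‖ ≤ κ) →
    ∀ δ : ℝ, 0 < δ → δ ≤ 1 →
    (∀ i, ∀ j < J i, (i ≠ i0 ∨ j ≠ 0) → δ ≤ ‖a i j - a i0 0‖) →
    ∀ M : ℕ, 1 ≤ M → A * W ^ A * dg (UR P Q U) (a i0 0) M ≤ δ →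
      δ ≤ A * W ^ A * (M : ℝ) ^ 2 * (κ + ∑ i, ‖t i‖ * ‖β i‖) := by
  classical
  obtain ⟨A, hA1, hA⟩ := mass_r2 T D
  obtain ⟨Cp, hCp0, hCp⟩ := lintegral_pole T
  obtain ⟨h, L, c₀, hh0, hh1, hL0, hc₀, hc₁, hG, hdg⟩ := T.geo
  refine ⟨A * (Cp + 1), by nlinarith, ?_⟩
  intro ι _ _ a α J ℓ β b hT haK t i0 hJ0 ht0 hα0 ha0 W hW1 hW Λ κ hκ hΛ hΛk δ hδ hδ1 hsep M hM hx
  have hW0 : 0 < W := by linarith
  have hAA : A ≤ A * (Cp + 1) := le_mul_of_one_le_right (by linarith) (by linarith)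
  have hWA : W ^ A ≤ W ^ (A * (Cp + 1)) := Real.rpow_le_rpow_of_exponent_le hW1 hAA
  have hWA0 : 0 < W ^ A := Real.rpow_pos_of_pos hW0 A
  have hWA0' : 0 < W ^ (A * (Cp + 1)) := Real.rpow_pos_of_pos hW0 _
  have hA0 : 0 < A := by linarith
  have hd0 := hG.pos ha0 M
  -- enumeration of the poles
  obtain ⟨s, hs⟩ : ∃ s : Finset (Σ _ : ι, ℕ),
    s = Finset.univ.sigma fun i => Finset.range (J i) := ⟨_, rfl⟩
  have hmems : ∀ p : (Σ _ : ι, ℕ), p ∈ s ↔ p.2 < J p.1 := by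
    intro p
    rw [hs, Finset.mem_sigma]
    simp
  have hi0s : (⟨i0, 0⟩ : Σ _ : ι, ℕ) ∈ s := (hmems _).2 (by simp; omega)
  obtain ⟨m, e, he0, hin, hne, hinj, himg⟩ := enum s hi0s
  obtain ⟨bb, hb⟩ : ∃ bb : ℕ → ℂ, bb = fun n => a (e n).1 (e n).2 := ⟨_, rfl⟩
  obtain ⟨γ, hγ⟩ : ∃ γ : ℕ → ℂ, γ = fun n => t (e n).1 * α (e n).1 (e n).2 := ⟨_, rfl⟩
  have hb0 : bb 0 = a i0 0 := by rw [hb]; simp only; rw [he0]
  have hsumC : ∀ F : (Σ _ : ι, ℕ) → ℂ, ∑ n ∈ Finset.range (m + 1), F (e n) =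
      ∑ i, ∑ j ∈ Finset.range (J i), F ⟨i, j⟩ := by
    intro F
    rw [← Finset.sum_image hinj, himg, hs, Finset.sum_sigma]
  have hsumR : ∀ F : (Σ _ : ι, ℕ) → ℝ, ∑ n ∈ Finset.range (m + 1), F (e n) =
      ∑ i, ∑ j ∈ Finset.range (J i), F ⟨i, j⟩ := by
    intro F
    rw [← Finset.sum_image hinj, himg, hs, Finset.sum_sigma]
  have hQQ : QQ (m + 1) bb γ = fun w => ∑ i, t i * QQ (J i) (a i) (α i) w := by
    ext w
    unfold QQ
    rw [hb, hγ]
    have h1 := hsumC fun p => t p.1 * α p.1 p.2 / (w - a p.1 p.2)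
    rw [h1]
    refine Finset.sum_congr rfl fun i _ => ?_
    rw [Finset.mul_sum]
    refine Finset.sum_congr rfl fun j _ => ?_
    ring
  have hγ0 : γ 0 = 1 := by
    rw [hγ]
    simp only
    rw [he0, ht0, hα0, one_mul]
  have key := hA m bb γ (fun n hn => by
      rw [hb]
      exact haK _ _ ((hmems _).1 (hin n hn))) (by rw [hb0]; exact ha0)
    hγ0 W hW1 (by
      have h1 : 1 + ∑ j ∈ Finset.range m, ‖γ (j + 1)‖ = ∑ j ∈ Finset.range (m + 1), ‖γ j‖ := by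
        rw [Finset.sum_range_succ', add_comm, hγ0, norm_one]
      rw [h1, hγ]
      have h2 := hsumR fun p => ‖t p.1 * α p.1 p.2‖
      rw [h2]
      exact hW) Λ κ (Cp * ∑ i, ‖t i‖ * ‖β i‖)
    (fun x => ∑ i, ‖t i * β i / (x - b i)‖ₑ) hκ (by positivity) hΛk (by
      have h1 : ∀ᵐ x : ℂ, ∀ i, push P Q (QQ (J i) (a i) (α i)) x - QQ (J i) (a i) (α i) x =
          ℓ i (SP P Q d x) + β i / (x - b i) := by
        rw [ae_all_iff]
        exact fun i => (hT i).psh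
      filter_upwards [h1, hΛ] with x hx hΛx _
      rw [hQQ, push_lin, hΛx, ← Finset.sum_sub_distrib, ← Finset.sum_sub_distrib]
      refine (enorm_sum_le _ _).trans (Finset.sum_le_sum fun i _ => ?_)
      have h3 : t i * push P Q (QQ (J i) (a i) (α i)) x - t i * QQ (J i) (a i) (α i) x -
          t i * ℓ i (SP P Q d x) = t i * β i / (x - b i) := by
        linear_combination t i * hx i
      rw [h3]) (by
      rw [lintegral_finsetSum' _ fun i _ => by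
        have : Measurable fun x : ℂ => ‖t i * β i / (x - b i)‖ₑ :=
          (measurable_const.div (measurable_id.sub_const _)).enorm
        exact this.aemeasurable]
      rw [Finset.mul_sum, ENNReal.ofReal_sum_of_nonneg fun i _ => by positivity]
      refine Finset.sum_le_sum fun i _ => ?_
      have := hCp (t i * β i) (b i)
      rwa [norm_mul] at this) δ hδ hδ1 (fun n hn => by
      rw [hb0, hb]
      have h1 := (hmems _).1 (hin (n + 1) (by omega))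
      refine hsep _ _ h1 ?_
      by_contra hcon
      push Not at hcon
      apply hne n hn
      rcases hen : e (n + 1) with ⟨i, j⟩
      rw [hen] at hcon
      simp only at hcon
      rw [hcon.1, hcon.2]) M hM (by
      rw [hb0]
      refine le_trans ?_ hx
      gcongr)
  refine key.trans ?_
  obtain ⟨Sα, hSα⟩ : ∃ Sα, Sα = ∑ i, ‖t i‖ * ‖β i‖ := ⟨_, rfl⟩
  have hSα0 : 0 ≤ Sα := by rw [hSα]; positivity
  rw [← hSα]
  have h6 : κ + Cp * Sα ≤ (Cp + 1) * (κ + Sα) := by nlinarith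
  calc A * W ^ A * (M : ℝ) ^ 2 * (κ + Cp * Sα)
      ≤ A * W ^ (A * (Cp + 1)) * (M : ℝ) ^ 2 * ((Cp + 1) * (κ + Sα)) := by gcongr
    _ = A * (Cp + 1) * W ^ (A * (Cp + 1)) * (M : ℝ) ^ 2 * (κ + Sα) := by ring

end Pool.Agent.Zk29.Rat
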