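import Pool.Agent.Zk29.Rat.Rig
import Pool.Agent.Zk29.Rat.Tst

/-!
# Test differentials of critical orbits which hit a critical point, and of escaping critical orbits
-/

set_option autoImplicit false
open Set Filter Topology Metric MeasureTheory Polynomial
open scoped ENNReal

namespace Pool.Agent.Zk29.Rat

open Pool.Agent.H792R2.CE

variable {P : ℂ[X]} {d : ℕ}

/-- The functional of a pole at a critical point. -/
noncomputable def tau (P : ℂ[X]) (c : ℂ) : ℂ[X] →ₗ[ℂ] ℂ :=
  ((taylor c (derivative P)).coeff (rootMultiplicity c (derivative P)))⁻¹ •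
    (lcoeff ℂ (rootMultiplicity c (derivative P)) ∘ₗ taylor c)

lemma tau_apply (c : ℂ) (S : ℂ[X]) : tau P c S =
    (taylor c S).coeff (rootMultiplicity c (derivative P)) /
      (taylor c (derivative P)).coeff (rootMultiplicity c (derivative P)) := by
  unfold tau
  rw [LinearMap.smul_apply, LinearMap.comp_apply, lcoeff_apply, smul_eq_mul, inv_mul_eq_div]

lemma taylor_pow_mul (c : ℂ) (k : ℕ) (G : ℂ[X]) (i : ℕ) :
    (taylor c ((X - C c) ^ k * G)).coeff i = if k ≤ i then (taylor c G).coeff (i - k) else 0 := by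
  have h1 : taylor c ((X - C c) ^ k * G) = taylor c G * X ^ k := by
    rw [taylor_mul, mul_comm]
    congr 1
    have h2 : taylor c ((X - C c) ^ k) = (taylor c (X - C c)) ^ k := by
      simp
    rw [h2, map_sub, taylor_X, taylor_C, add_sub_cancel_right]
  rw [h1, coeff_mul_X_pow']

/-- The push-forward of a pole at a critical point of any order. -/
theorem push_crit2 (D : Dat P 1 d) (hP : 1 ≤ P.natDegree) {c x : ℂ} (hx : Gen P 1 d x)
    (hc : (derivative P).eval c = 0) (hxc : x ≠ P.eval c) :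
    push P 1 (fun w => 1 / (w - c)) x = tau P c (SP P 1 d x) := by
  obtain ⟨T, -, h1, h2⟩ := SP_poly D hx
  obtain ⟨S, hS⟩ : ∃ S, S = SP P 1 d x := ⟨_, rfl⟩
  rw [← hS] at h1 ⊢
  have hne : P.eval c - x ≠ 0 := sub_ne_zero.2 hxc.symm
  have hN0 : derivative P ≠ 0 := by
    rw [derivative_ne_zero]
    omega
  obtain ⟨k, hk⟩ : ∃ k, k = rootMultiplicity c (derivative P) := ⟨_, rfl⟩
  have hk1 : 1 ≤ k := by rw [hk]; exact (crit_mult hP).2 hc
  obtain ⟨N1, hN1, hN1c⟩ : ∃ N1, derivative P = (X - C c) ^ k * N1 ∧ N1.eval c ≠ 0 := by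
    obtain ⟨N1, h3, h4⟩ := exists_eq_pow_rootMultiplicity_mul_and_not_dvd _ hN0 c
    rw [← hk] at h3
    refine ⟨N1, h3, fun h5 => h4 (dvd_iff_isRoot.2 h5)⟩
  obtain ⟨G, hG⟩ : ∃ G, G = P - C (P.eval c) := ⟨_, rfl⟩
  have hGd : (X - C c) ^ (k + 1) ∣ G := by
    have hr : G.IsRoot c := by
      rw [hG, IsRoot.def, eval_sub, eval_C, sub_self]
    have hG' : derivative G = derivative P := by rw [hG, derivative_sub, derivative_C, sub_zero]
    have h3 := derivative_rootMultiplicity_of_root hr
    rw [hG', ← hk] at h3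
    have h4 : k + 1 = rootMultiplicity c G := by omega
    rw [h4]
    exact pow_rootMultiplicity_dvd _ _
  obtain ⟨G1, hG1⟩ := hGd
  have h3 : (1 : ℂ[X]) = (X - C c) ^ (k + 1) * (S * G1) + C (P.eval c - x) * S +
      (X - C c) ^ k * (N1 * T) := by
    have h4 : P - C x = G + C (P.eval c - x) := by
      rw [hG, C_sub]
      ring
    rw [h4, hG1, hN1] at h1
    linear_combination h1
  have h4 := congrArg (fun F : ℂ[X] => (taylor c F).coeff k) h3
  simp only [map_add, coeff_add, taylor_pow_mul] at h4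
  rw [if_neg (by omega), if_pos le_rfl, Nat.sub_self, zero_add, taylor_one, coeff_C,
    if_neg (by omega), taylor_coeff_zero, eval_mul, taylor_mul, taylor_C, coeff_C_mul] at h4
  have h5 : (taylor c (derivative P)).coeff k = N1.eval c := by
    rw [hN1, taylor_pow_mul, if_pos le_rfl, Nat.sub_self, taylor_coeff_zero]
  have h6 := h2 c (by rw [eval_sub, eval_C]; exact hne)
  rw [eval_sub, eval_C] at h6
  rw [tau_apply, ← hk, h5, eq_div_iff hN1c, push_neg]
  simp only [eval_one, one_pow, wr_one]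
  rw [h6] at h4
  have h7 : (P.eval c - x) * ((taylor c S).coeff k + N1.eval c *
      ∑ w ∈ (P - C x * 1).roots.toFinset, 1 / (derivative P).eval w ^ 2 / (c - w)) = 0 := by
    linear_combination -h4
  have h8 := (mul_eq_zero.1 h7).resolve_left hne
  linear_combination -h8

/-- A critical orbit which hits a critical point. -/
theorem hit_tst (D : Dat P 1 d) (hP : 1 ≤ P.natDegree) {c : ℂ} {a α : ℕ → ℂ} {k : ℕ}
    (O : Orb P 1 c a α k) (hk : (derivative P).eval (a k) = 0) (hα : ∀ j, k < j → α j = 0)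
    {J : ℕ} (hJ : k < J) : Tst P 1 d a α J (ell P 1 c a α k + α k • tau P (a k)) 0 0 := by
  constructor
  have h1 : ∀ᵐ x : ℂ, ∀ j, x ≠ a j := by
    rw [ae_all_iff]
    intro j
    rw [ae_iff]
    simp
  have h2 : ∀ᵐ x : ℂ, x ≠ P.eval (a k) := by
    rw [ae_iff]
    simp
  have hQQ : QQ J a α = fun w => QQ k a α w + α k * (1 / (w - a k)) := by
    ext w
    unfold QQ
    obtain ⟨n, rfl⟩ : ∃ n, J = (k + 1) + n := ⟨J - (k + 1), by omega⟩
    rw [Finset.sum_range_add, Finset.sum_range_succ]
    have h3 : ∑ j ∈ Finset.range n, α (k + 1 + j) / (w - a (k + 1 + j)) = 0 := by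
      refine Finset.sum_eq_zero fun j _ => ?_
      rw [hα _ (by omega), zero_div]
    rw [h3, add_zero]
    ring
  filter_upwards [gen_ae D, h1, h2] with x hx hxa hxk
  have h3 := push_orb D O hx hxa
  have h4 := push_crit2 D hP hx hk hxk
  have h5 : push P 1 (QQ J a α) x = push P 1 (QQ k a α) x +
      α k * push P 1 (fun w => 1 / (w - a k)) x := by
    rw [hQQ]
    unfold push
    rw [Finset.mul_sum, ← Finset.sum_add_distrib]
    refine Finset.sum_congr rfl fun w _ => ?_
    ring
  rw [h5, h4, hQQ, LinearMap.add_apply, LinearMap.smul_apply, smul_eq_mul]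
  simp only
  linear_combination h3

end Pool.Agent.Zk29.Rat
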