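import Pool.Agent.Zk29.Rat.Orb

/-!
# Invariant line fields and the push-forward
-/

set_option autoImplicit false
open Set Filter Topology Metric MeasureTheory Polynomial
open scoped ENNReal

namespace Pool.Agent.Zk29.Rat

open Pool.Agent.H792R2.CE Pool.Agent.H792R2.CE.D4x

variable {P Q : ℂ[X]} {U : Set ℂ} {d : ℕ}

/-- The density of the push-forward. -/
noncomputable def termC (P Q : ℂ[X]) (q : ℂ → ℂ) (w : ℂ) : ℂ :=
  Q.eval w ^ 4 / (wr P Q).eval w ^ 2 * q w

theorem measurable_termC (P Q : ℂ[X]) {q : ℂ → ℂ} (hq : Measurable q) :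
    Measurable (termC P Q q) :=
  (((measurable_eval Q).pow_const 4).div ((measurable_eval (wr P Q)).pow_const 2)).mul hq

/-- The branch of the push-forward on a set of injectivity. -/
noncomputable def GC (P Q : ℂ[X]) (q : ℂ → ℂ) (S : Set ℂ) : ℂ → ℂ :=
  Function.extend (S.domRestrict (rf P Q)) (S.domRestrict (termC P Q q)) 0

theorem measurable_GC {q : ℂ → ℂ} (hq : Measurable q) {S : Set ℂ}
    (hS : MeasurableSet S) (hV : S ⊆ V P Q) (hinj : InjOn (rf P Q) S) :
    Measurable (GC P Q q S) :=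
  (emb hS hV hinj).measurable_extend ((measurable_termC P Q hq).comp measurable_subtype_coe)
    measurable_const

theorem GC_apply {q : ℂ → ℂ} {S : Set ℂ} (hinj : InjOn (rf P Q) S) {w : ℂ}
    (hw : w ∈ S) : GC P Q q S (rf P Q w) = termC P Q q w := by
  have h1 : Function.Injective (S.domRestrict (rf P Q)) := injOn_iff_injective.mp hinj
  exact h1.extend_apply (S.domRestrict (termC P Q q)) 0 ⟨w, hw⟩

theorem GC_zero {q : ℂ → ℂ} {S : Set ℂ} {x : ℂ} (hx : x ∉ rf P Q '' S) :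
    GC P Q q S x = 0 := by
  unfold GC
  rw [Function.extend_apply']
  · rfl
  · rintro ⟨a, ha⟩
    exact hx ⟨a, a.2, ha⟩

theorem enorm_GC {q : ℂ → ℂ} {S : Set ℂ} (hinj : InjOn (rf P Q) S) (x : ℂ) :
    ‖GC P Q q S x‖ₑ = G P Q (fun w => ‖q w‖ₑ) S x := by
  by_cases hx : x ∈ rf P Q '' S
  · obtain ⟨w, hw, rfl⟩ := hx
    rw [GC_apply hinj hw, G_apply hinj hw, termC, term, enorm_mul]
  · rw [GC_zero hx, G_zero hx, enorm_zero]

theorem hasSum_push (hc : IsCoprime P Q) {t : ℕ → Set ℂ}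
    (hdisj : Pairwise (Function.onFun Disjoint t)) (hcov : V P Q ⊆ ⋃ n, t n)
    (hinj : ∀ n, InjOn (rf P Q) (V P Q ∩ t n)) {x : ℂ} (hx : Gen P Q d x) (q : ℂ → ℂ) :
    HasSum (fun n => GC P Q q (V P Q ∩ t n) x) (push P Q q x) := by
  classical
  have hmem : ∀ w ∈ (P - C x * Q).roots.toFinset, w ∈ V P Q ∧ rf P Q w = x := by
    intro w hw
    rw [Multiset.mem_toFinset, Polynomial.mem_roots hx.2.1, IsRoot.def] at hw
    have h2 := coprime_ne hc hw
    refine ⟨⟨h2, hx.2.2 w hw⟩, ?_⟩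
    simp only [eval_sub, eval_mul, eval_C] at hw
    rw [rf, div_eq_iff h2]
    linear_combination hw
  have hk : ∀ w ∈ V P Q, ∃ n, w ∈ t n := fun w hw => by simpa using hcov hw
  choose! k hk using hk
  have hkinj : Set.InjOn k ((P - C x * Q).roots.toFinset : Set ℂ) := by
    intro a ha b hb hab
    obtain ⟨ha1, ha2⟩ := hmem a ha
    obtain ⟨hb1, hb2⟩ := hmem b hb
    refine hinj (k a) ⟨ha1, hk a ha1⟩ ⟨hb1, ?_⟩ (ha2.trans hb2.symm)
    rw [hab]; exact hk b hb1
  have h1 : push P Q q x = ∑ n ∈ (P - C x * Q).roots.toFinset.image k,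
      GC P Q q (V P Q ∩ t n) x := by
    rw [Finset.sum_image hkinj]
    unfold push
    refine Finset.sum_congr rfl (fun w hw => ?_)
    obtain ⟨h1, h2⟩ := hmem w hw
    have h3 := GC_apply (q := q) (hinj (k w)) (show w ∈ V P Q ∩ t (k w) from ⟨h1, hk w h1⟩)
    rw [h2] at h3
    rw [h3, termC]
  rw [h1]
  refine hasSum_sum_of_ne_finset_zero fun n hn => ?_
  apply GC_zero
  rintro ⟨w, ⟨hwV, hwt⟩, hwx⟩
  apply hn
  rw [Finset.mem_image]
  refine ⟨w, ?_, ?_⟩
  · rw [Multiset.mem_toFinset, Polynomial.mem_roots hx.2.1, IsRoot.def, sub_eval hwV.1, hwx,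
      sub_self, mul_zero, neg_zero]
  · by_contra hne
    exact Set.disjoint_left.1 (hdisj hne) (hk w hwV) hwt

/-- `μ` is a bounded invariant Beltrami differential. -/
structure IsInv (P Q : ℂ[X]) (μ : ℂ → ℂ) : Prop where
  meas : Measurable μ
  bdd : ∃ B : ℝ, ∀ z, ‖μ z‖ ≤ B
  inv : ∀ᵐ z : ℂ, μ (rf P Q z) * (starRingEnd ℂ (deriv (rf P Q) z) / deriv (rf P Q) z) = μ z

theorem int_GC {μ : ℂ → ℂ} (hμ : IsInv P Q μ) {q : ℂ → ℂ} {S : Set ℂ}
    (hS : MeasurableSet S) (hV : S ⊆ V P Q) (hinj : InjOn (rf P Q) S) {A : Set ℂ}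
    (hA : MeasurableSet A) :
    ∫ x in A, μ x * GC P Q q S x = ∫ w in S ∩ rf P Q ⁻¹' A, μ w * q w := by
  have hf := measurable_rf P Q
  have hSA : MeasurableSet (S ∩ rf P Q ⁻¹' A) := hS.inter (hf hA)
  have him : rf P Q '' (S ∩ rf P Q ⁻¹' A) = A ∩ rf P Q '' S := by
    ext x
    constructor
    · rintro ⟨w, ⟨hw, hwA⟩, rfl⟩
      exact ⟨hwA, w, hw, rfl⟩
    · rintro ⟨hx, w, hw, rfl⟩
      exact ⟨w, ⟨hw, hx⟩, rfl⟩
  have hmimg : MeasurableSet (rf P Q '' S) := by
    have := (emb hS hV hinj).measurableSet_range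
    rwa [range_domRestrict] at this
  have h1 : ∫ x in A, μ x * GC P Q q S x = ∫ x in A ∩ rf P Q '' S, μ x * GC P Q q S x := by
    rw [← integral_indicator hA, ← integral_indicator (hA.inter hmimg)]
    congr 1
    ext x
    by_cases hx : x ∈ A
    · by_cases hx2 : x ∈ rf P Q '' S
      · rw [indicator_of_mem hx, indicator_of_mem (show x ∈ A ∩ rf P Q '' S from ⟨hx, hx2⟩)]
      · rw [indicator_of_mem hx, indicator_of_notMem (fun h => hx2 h.2), GC_zero hx2, mul_zero]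
    · rw [indicator_of_notMem hx, indicator_of_notMem (fun h => hx h.1)]
  rw [h1, ← him, integral_image_eq_integral_abs_det_fderiv_smul volume hSA
    (f' := D P Q) (fun x hx => (hasFDerivAt_rf (hV hx.1).1).hasFDerivWithinAt)
    (hinj.mono inter_subset_left)]
  refine setIntegral_congr_ae hSA ?_
  filter_upwards [hμ.inv] with w hw hwS
  have hw1 := hV hwS.1
  have hd : deriv (rf P Q) w = (wr P Q).eval w / Q.eval w ^ 2 := (hasDerivAt_rf hw1.1).deriv
  have hz : (wr P Q).eval w / Q.eval w ^ 2 ≠ 0 := div_ne_zero hw1.2 (pow_ne_zero _ hw1.1)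
  rw [GC_apply hinj hwS.1, termC, D, det_smulRight, Complex.real_smul]
  rw [hd] at hw
  obtain ⟨z, hzd⟩ : ∃ z, z = (wr P Q).eval w / Q.eval w ^ 2 := ⟨_, rfl⟩
  have h2 : Q.eval w ^ 4 / (wr P Q).eval w ^ 2 = (z ^ 2)⁻¹ := by
    rw [hzd]
    have := hw1.1
    have := hw1.2
    field_simp
  rw [h2, ← hzd]
  rw [← hzd] at hw hz
  rw [← hw]
  have h3 : ((‖z‖ ^ 2 : ℝ) : ℂ) = starRingEnd ℂ z * z := by
    rw [← Complex.normSq_eq_norm_sq, ← Complex.normSq_eq_conj_mul_self]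
  rw [h3]
  field_simp

/-- The invariance of the pairing with `μ` under the push-forward. -/
theorem inv_int (Dt : Dat P Q d) {μ : ℂ → ℂ} (hμ : IsInv P Q μ) {q : ℂ → ℂ} (hq : Measurable q)
    {A : Set ℂ} (hA : MeasurableSet A) (hint : ∫⁻ w in rf P Q ⁻¹' A, ‖q w‖ₑ ≠ ⊤) :
    IntegrableOn (fun x => μ x * push P Q q x) A ∧
      ∫ x in A, μ x * push P Q q x = ∫ w in rf P Q ⁻¹' A, μ w * q w := by
  obtain ⟨t, hdisj, hmeas, hcov, hinj⟩ := partition P Q
  obtain ⟨B, hB⟩ := hμ.bdd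
  have hB0 : 0 ≤ B := (norm_nonneg _).trans (hB 0)
  have hVm := measurableSet_V P Q
  have hm : ∀ n, MeasurableSet (V P Q ∩ t n) := fun n => hVm.inter (hmeas n)
  have hfA : MeasurableSet (rf P Q ⁻¹' A) := measurable_rf P Q hA
  have hmA : ∀ n, MeasurableSet ((V P Q ∩ t n) ∩ rf P Q ⁻¹' A) := fun n => (hm n).inter hfA
  have hGm : ∀ n, Measurable (GC P Q q (V P Q ∩ t n)) := fun n =>
    measurable_GC hq (hm n) inter_subset_left (hinj n)
  have hdisj' : Pairwise (Function.onFun Disjoint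
      fun n => (V P Q ∩ t n) ∩ rf P Q ⁻¹' A) := by
    intro i j hij
    exact (hdisj hij).mono (fun x hx => hx.1.2) (fun x hx => hx.1.2)
  -- the integrals of the norms
  have hlint : ∀ n, ∫⁻ x in A, ‖μ x * GC P Q q (V P Q ∩ t n) x‖ₑ ≤
      ENNReal.ofReal B * ∫⁻ w in (V P Q ∩ t n) ∩ rf P Q ⁻¹' A, ‖q w‖ₑ := by
    intro n
    rw [← int_G (hm n) inter_subset_left (hinj n) hA, ← lintegral_const_mul _
      (measurable_G hq.enorm (hm n) inter_subset_left (hinj n))]
    refine lintegral_mono fun x => ?_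
    rw [enorm_mul, enorm_GC (hinj n)]
    gcongr
    rw [← ofReal_norm]
    exact ENNReal.ofReal_le_ofReal (hB x)
  have htot : ∑' n, ∫⁻ w in (V P Q ∩ t n) ∩ rf P Q ⁻¹' A, ‖q w‖ₑ ≤
      ∫⁻ w in rf P Q ⁻¹' A, ‖q w‖ₑ := by
    rw [← lintegral_iUnion hmA hdisj']
    exact lintegral_mono_set (iUnion_subset fun n => inter_subset_right)
  have hfin : ∑' n, ∫⁻ x in A, ‖μ x * GC P Q q (V P Q ∩ t n) x‖ₑ ≠ ⊤ := by
    refine ne_top_of_le_ne_top (ENNReal.mul_ne_top (ENNReal.ofReal_ne_top (r := B)) hint)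
      ((ENNReal.tsum_le_tsum hlint).trans ?_)
    rw [ENNReal.tsum_mul_left]
    gcongr
  have hI : ∀ n, Integrable (fun x => μ x * GC P Q q (V P Q ∩ t n) x) (volume.restrict A) := by
    intro n
    refine ⟨(hμ.meas.mul (hGm n)).aestronglyMeasurable, ?_⟩
    rw [HasFiniteIntegral]
    exact (ENNReal.ne_top_of_tsum_ne_top hfin n).lt_top
  have hsummable : Summable fun n => ∫ x in A, ‖μ x * GC P Q q (V P Q ∩ t n) x‖ := by
    have h1 : (fun n => ∫ x in A, ‖μ x * GC P Q q (V P Q ∩ t n) x‖) =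
        fun n => (∫⁻ x in A, ‖μ x * GC P Q q (V P Q ∩ t n) x‖ₑ).toReal := by
      ext n
      rw [integral_norm_eq_lintegral_enorm (hI n).1]
    rw [h1]
    exact ENNReal.summable_toReal hfin
  have hkey := hasSum_integral_of_summable_integral_norm hI hsummable
  have hae : ∀ᵐ x ∂(volume.restrict A), ∑' n, μ x * GC P Q q (V P Q ∩ t n) x =
      μ x * push P Q q x := by
    refine ae_restrict_of_ae ?_
    filter_upwards [gen_ae Dt] with x hx
    exact ((hasSum_push Dt.cop hdisj hcov hinj hx q).mul_left (μ x)).tsum_eq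
  rw [integral_congr_ae hae] at hkey
  have h2 : HasSum (fun n => ∫ x in A, μ x * GC P Q q (V P Q ∩ t n) x)
      (∫ w in rf P Q ⁻¹' A, μ w * q w) := by
    have e1 : (fun n => ∫ x in A, μ x * GC P Q q (V P Q ∩ t n) x) = fun n =>
        ∫ w in (V P Q ∩ t n) ∩ rf P Q ⁻¹' A, μ w * q w := by
      ext n
      exact int_GC hμ (hm n) inter_subset_left (hinj n) hA
    rw [e1]
    have hint2 : IntegrableOn (fun w => μ w * q w) (rf P Q ⁻¹' A) := by
      refine ⟨(hμ.meas.mul hq).aestronglyMeasurable, ?_⟩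
      rw [HasFiniteIntegral]
      refine lt_of_le_of_lt ?_ (ENNReal.mul_lt_top (ENNReal.ofReal_lt_top (r := B)) hint.lt_top)
      rw [← lintegral_const_mul _ hq.enorm]
      refine lintegral_mono fun x => ?_
      rw [enorm_mul]
      gcongr
      rw [← ofReal_norm]
      exact ENNReal.ofReal_le_ofReal (hB x)
    have hU : (⋃ n, (V P Q ∩ t n) ∩ rf P Q ⁻¹' A) = V P Q ∩ rf P Q ⁻¹' A := by
      ext w
      rw [mem_iUnion]
      constructor
      · rintro ⟨n, h1, h2⟩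
        exact ⟨h1.1, h2⟩
      · rintro ⟨h1, h2⟩
        obtain ⟨n, hn⟩ := mem_iUnion.1 (hcov h1)
        exact ⟨n, ⟨h1, hn⟩, h2⟩
    have h3 := hasSum_integral_iUnion (f := fun w => μ w * q w) (μ := volume) hmA hdisj'
      (hint2.mono_set (iUnion_subset fun n => inter_subset_right))
    rw [hU] at h3
    have h4 : (V P Q ∩ rf P Q ⁻¹' A : Set ℂ) =ᵐ[volume] (rf P Q ⁻¹' A : Set ℂ) := by
      have h5 : volume (V P Q)ᶜ = 0 := by
        refine measure_mono_null (t := {z : ℂ | Q.eval z = 0} ∪ {z : ℂ | (wr P Q).eval z = 0})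
          ?_ (measure_union_null (pole_null Dt.q0) (pole_null Dt.wn))
        intro z hz
        by_contra h
        rw [mem_union, not_or] at h
        exact hz ⟨h.1, h.2⟩
      have h6 : (V P Q : Set ℂ) =ᵐ[volume] (univ : Set ℂ) := by
        rw [eventuallyEq_univ, mem_ae_iff]
        exact h5
      have h7 := h6.inter (EventuallyEq.refl (ae volume) (rf P Q ⁻¹' A))
      rwa [univ_inter] at h7
    rw [setIntegral_congr_set h4] at h3
    exact h3
  refine ⟨?_, hkey.unique h2⟩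
  -- integrability
  refine ⟨?_, ?_⟩
  · have h3 : AEStronglyMeasurable (fun x => ∑' n, μ x * GC P Q q (V P Q ∩ t n) x)
        (volume.restrict A) := by
      have h4 : ∀ᵐ x ∂(volume.restrict A), Tendsto
          (fun N => ∑ n ∈ Finset.range N, μ x * GC P Q q (V P Q ∩ t n) x) atTop
          (𝓝 (∑' n, μ x * GC P Q q (V P Q ∩ t n) x)) := by
        refine ae_restrict_of_ae ?_
        filter_upwards [gen_ae Dt] with x hx
        exact (((hasSum_push Dt.cop hdisj hcov hinj hx q).mul_left (μ x)).summable.hasSum).tendsto_sum_nat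
      refine aestronglyMeasurable_of_tendsto_ae atTop (fun N => ?_) h4
      exact (Finset.measurable_fun_sum _ fun n _ => hμ.meas.mul (hGm n)).aestronglyMeasurable
    exact h3.congr hae
  · rw [HasFiniteIntegral]
    have h3 : ∫⁻ x in A, ‖μ x * push P Q q x‖ₑ ≤
        ∑' n, ∫⁻ x in A, ‖μ x * GC P Q q (V P Q ∩ t n) x‖ₑ := by
      have hme : ∀ n, AEMeasurable (fun x => ‖μ x * GC P Q q (V P Q ∩ t n) x‖ₑ)
          (volume.restrict A) := fun n => (hμ.meas.mul (hGm n)).enorm.aemeasurable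
      rw [← lintegral_tsum hme]
      refine lintegral_mono_ae ?_
      filter_upwards [hae] with x hx
      rw [← hx]
      exact enorm_tsum_le_tsum_enorm
    exact lt_of_le_of_lt h3 hfin.lt_top

end Pool.Agent.Zk29.Rat
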