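import Pool.Agent.Zk29.Rat.Mass

/-!
# The lower bound for the mass of the error term, abstract form, with poles outside the domain
-/

set_option autoImplicit false
open Set Filter Topology Metric MeasureTheory Polynomial Finset
open scoped ENNReal

namespace Pool.Agent.Zk29.Rat

open Pool.Agent.T2H09.LU Pool.Agent.T2H09.LW

variable {U : ℕ → Set ℂ} {K : Set ℂ} {h L : ℝ} {a α : ℕ → ℂ}

theorem Geo.sub0 (G : Geo U K h L) (k : ℕ) : U k ⊆ U 0 := by
  induction k with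
  | zero => exact Subset.rfl
  | succ k ih => exact (G.anti k).trans ih

/-- The value of the quadratic differential in a hole. -/
lemma QQ_le2 (G : Geo U K h L) {J : ℕ} (ha : ∀ j < J, a j ∈ K ∨ a j ∉ U 0) {ε : ℝ} (hε0 : 0 ≤ ε)
    (hmass : Small U J a α ε) {k : ℕ}
    (hk : 1 ≤ k) {w : ℂ} {s : ℝ} (hs : 0 < s)
    (hA : ∀ x ∈ ball w s, x ∈ U (k - 1) ∧ x ∉ U (k + 1)) :
    ‖QQ J a α w‖ ≤ 2 * ε / s ^ 2 := by
  have hz : ∀ j < J, s ≤ ‖a j - w‖ := by
    intro j hj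
    by_contra hcon
    push Not at hcon
    have h1 : a j ∈ ball w s := by rwa [mem_ball, dist_eq_norm]
    rcases ha j hj with h2 | h2
    · exact (hA _ h1).2 (G.sub _ h2)
    · exact h2 (G.sub0 _ (hA _ h1).1)
  have h1 := hole J a α w (s := s) (δ := 1)
    (B := 2 / s) hs one_pos hz X (by simp) (by
      intro u hu
      rw [eval_X]
      simpa using hu)
  have h2 : ∫⁻ w in ball w s, ‖QQ J a α w‖ₑ ≤ ENNReal.ofReal (((1 : ℕ) + 1) * ε) := by
    have hsub : ball w s ⊆ (U (k - 1) \ U (k - 1 + 1)) ∪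
        (U k \ U (k + 1)) := by
      intro z hz'
      obtain ⟨h2, h3⟩ := hA z hz'
      by_cases h4 : z ∈ U k
      · exact Or.inr ⟨h4, h3⟩
      · refine Or.inl ⟨h2, ?_⟩
        rwa [Nat.sub_add_cancel hk]
    calc ∫⁻ w in ball w s, ‖QQ J a α w‖ₑ
        ≤ ∫⁻ w in (U (k - 1) \ U (k - 1 + 1)) ∪ (U k \ U (k + 1)),
            ‖QQ J a α w‖ₑ := lintegral_mono_set hsub
      _ ≤ (∫⁻ w in U (k - 1) \ U (k - 1 + 1), ‖QQ J a α w‖ₑ) +
            ∫⁻ w in U k \ U (k + 1), ‖QQ J a α w‖ₑ := lintegral_union_le _ _ _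
      _ ≤ ENNReal.ofReal ε + ENNReal.ofReal ε := add_le_add (hmass (k - 1)) (hmass k)
      _ = _ := by
          rw [← ENNReal.ofReal_add hε0 hε0]
          congr 1
          push_cast
          ring
  have h3 : ENNReal.ofReal (Real.pi * s *
      ‖∑ j ∈ Finset.range J, α j * (X : ℂ[X]).eval (((1 : ℝ) : ℂ) / (a j - w))‖) ≤
      ENNReal.ofReal (2 / s * (((1 : ℕ) + 1) * ε)) := by
    rw [ENNReal.ofReal_mul (show (0 : ℝ) ≤ 2 / s by positivity)]
    refine h1.trans ?_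
    gcongr
    exact h2
  rw [ENNReal.ofReal_le_ofReal_iff (by positivity)] at h3
  have e : ∑ j ∈ Finset.range J, α j *
      (X : ℂ[X]).eval (((1 : ℝ) : ℂ) / (a j - w)) = -QQ J a α w := by
    unfold QQ
    rw [← Finset.sum_neg_distrib]
    refine Finset.sum_congr rfl fun j _ => ?_
    rw [eval_X, Complex.ofReal_one, mul_one_div, ← neg_sub w, div_neg]
  rw [e, norm_neg] at h3
  have h4 : 2 * s * ‖QQ J a α w‖ ≤ Real.pi * s * ‖QQ J a α w‖ := by
    have := Real.pi_gt_three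
    gcongr
    linarith
  rw [le_div_iff₀ (by positivity)]
  push_cast at h3
  have h5 : 2 * s * ‖QQ J a α w‖ ≤ 2 / s * ((1 + 1) * ε) := h4.trans h3
  have h6 : 2 / s * ((1 + 1) * ε) = 4 * ε / s := by ring
  rw [h6, le_div_iff₀ hs] at h5
  nlinarith

theorem main_g2 (G : Geo U K h L) {J' : ℕ} (ha : ∀ j < J' + 1, a j ∈ K ∨ a j ∉ U 0)
    (ha0 : a 0 ∈ K) (hα0 : α 0 = 1)
    {W : ℝ} (hW0 : 0 ≤ W) (hW : 1 + ∑ j ∈ range J', ‖α (j + 1)‖ ≤ Real.exp W)
    {ε : ℝ} (hε : 0 < ε) (hmass : Small U (J' + 1) a α ε)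
    {m : ℝ} (hm : kg U (a 0) 0 ≤ m) (hdeep : ∀ j < J', Real.exp (-m) ≤ ‖a (j + 1) - a 0‖)
    {m0 K' : ℝ} (hm0 : m0 = Real.exp (-(2 + L)) * h / 4) (hK : K' = 8 * Real.exp 1 / m0) {q : ℕ}
    (hq : W + 2 ≤ 2 ^ q) {Dm : ℕ}
    (hDm : ⌊(W + (2 * Real.log (K' + 2) + 2)) / 2⌋₊ + 1 ≤ Dm) {M : ℕ}
    (hx : m + Real.log (4 * K' ^ 2) + q * Real.log (2 * K' ^ 2) + 2 ≤ kg U (a 0) M) :
    -(2 * Real.log (K' + 2) + 2) < Real.log ε + Real.log (12 * (Dm * (M + 1)) ^ 2 / h ^ 2) +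
      (m + Real.log (4 * K' ^ 2) + q * Real.log (2 * K' ^ 2) + 2 + L) := by
  have hh0 : 0 < h := G.h0
  have hh1 : h ≤ 1 := G.h1
  have hL0 : 0 ≤ L := G.L0
  have hLh : h * L ≤ 1 := G.hL
  have hm00 : 0 < m0 := by rw [hm0]; positivity
  have hm01 : m0 ≤ 1 := by
    rw [hm0]
    have h1 : Real.exp (-(2 + L)) ≤ 1 := by rw [Real.exp_le_one_iff]; linarith
    have h2 : 0 ≤ Real.exp (-(2 + L)) := (Real.exp_pos _).le
    nlinarith
  have hK8 : 8 * Real.exp 1 ≤ K' := by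
    rw [hK, le_div_iff₀ hm00]
    nlinarith [Real.exp_pos 1]
  have hexp1 : 2 ≤ Real.exp 1 := by
    have := Real.add_one_le_exp (1 : ℝ)
    linarith
  have hK16 : 16 ≤ K' := by linarith
  have hK0 : 0 < K' := by linarith
  have hK1 : 1 ≤ K' ^ 2 := one_le_pow₀ (by linarith)
  have hlK4 : 0 ≤ Real.log (4 * K' ^ 2) := Real.log_nonneg (by linarith)
  have hlK2 : 0 ≤ Real.log (2 * K' ^ 2) := Real.log_nonneg (by linarith)
  obtain ⟨hG, hGl⟩ := GG_disc (a := a) (α := α) hW hdeep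
  obtain ⟨e, he⟩ : ∃ e, e = -(2 * Real.log (K' + 2) + 2) := ⟨_, rfl⟩
  rw [← he]
  by_contra hcon
  push Not at hcon
  obtain ⟨x, hxd⟩ : ∃ x : ℕ → ℝ, x = fun i : ℕ => m + Real.log (4 * K' ^ 2) +
    (i : ℝ) * Real.log (2 * K' ^ 2) := ⟨_, rfl⟩
  have hx0 : ∀ i, kg U (a 0) 0 ≤ x i := by
    intro i
    rw [hxd]
    have : 0 ≤ (i : ℝ) * Real.log (2 * K' ^ 2) := by positivity
    simp only
    linarith
  have hxq : ∀ i < q, x i ≤ m + Real.log (4 * K' ^ 2) + q * Real.log (2 * K' ^ 2) := by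
    intro i hi
    rw [hxd]
    have h1 : (i : ℝ) ≤ q := by exact_mod_cast hi.le
    have h2 : (i : ℝ) * Real.log (2 * K' ^ 2) ≤ q * Real.log (2 * K' ^ 2) := by gcongr
    simp only
    linarith
  have h4K : Real.exp (-Real.log (4 * K' ^ 2)) = 1 / (4 * K' ^ 2) := by
    rw [Real.exp_neg, Real.exp_log (by positivity), one_div]
  have h2K : Real.exp (-Real.log (2 * K' ^ 2)) = 1 / (2 * K' ^ 2) := by
    rw [Real.exp_neg, Real.exp_log (by positivity), one_div]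
  have hlt := blocks (G := GG a α J') (c := a 0) (m := m0) (K := K') (R' := Real.exp (-m) / 2)
    (e := e) (A := W) hm00 hm01 hK hG hGl hW0 he hq (fun i => Real.exp (-x i))
    (fun i _ => Real.exp_pos _)
    (by
      have e1 : Real.exp (-x 0) = Real.exp (-m) * (1 / (4 * K' ^ 2)) := by
        rw [← h4K, ← Real.exp_add]
        congr 1
        rw [hxd]
        simp only
        push_cast
        ring
      change K' ^ 2 * Real.exp (-x 0) < Real.exp (-m) / 2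
      rw [e1]
      have e2 : K' ^ 2 * (Real.exp (-m) * (1 / (4 * K' ^ 2))) = Real.exp (-m) / 4 := by field_simp
      rw [e2]
      have := Real.exp_pos (-m)
      linarith)
    (by
      intro i hi
      have e1 : Real.exp (-x (i + 1)) = Real.exp (-x i) * (1 / (2 * K' ^ 2)) := by
        rw [← h2K, ← Real.exp_add]
        congr 1
        rw [hxd]
        simp only
        push_cast
        ring
      change K' ^ 2 * Real.exp (-x (i + 1)) < Real.exp (-x i)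
      rw [e1]
      have e2 : K' ^ 2 * (Real.exp (-x i) * (1 / (2 * K' ^ 2))) = Real.exp (-x i) / 2 := by
        field_simp
      rw [e2]
      have := Real.exp_pos (-x i)
      linarith)
    (by
      intro i hi D hD1 hD2
      have hDle : D ≤ Dm := by
        refine hD2.trans (le_trans (le_of_eq ?_) hDm)
        rw [he, sub_neg_eq_add]
      have hxi := hxq i hi
      obtain ⟨w, hw1, hw2, hw3⟩ := G.nodes ha0 (M := M) (hx0 i) (by linarith) hD1
      refine ⟨w, hw1, ?_, ?_⟩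
      · intro j hj k hk
        have := hw2 j hj k hk
        rw [← hm0] at this
        exact this
      · intro j hj
        obtain ⟨k, k1, k2, k3, k4, k5, k6, k7⟩ := hw3 j hj
        have hδ := G.pos ha0 k
        obtain ⟨lam, hlam⟩ : ∃ lam, lam = kg U (a 0) k - kg U (a 0) (k - 1) := ⟨_, rfl⟩
        rw [← hlam] at k3 k4 k7
        have hqd := QQ_le2 G ha hε.le hmass k1
          (s := h / 2 * lam * dg U (a 0) k) (by positivity) k7
        rw [GG_eq J' hα0 k5, norm_mul]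
        have hD0 : (0 : ℝ) < D := by exact_mod_cast hD1
        have hDm' : (D : ℝ) ≤ Dm := by exact_mod_cast hDle
        have hlam' : 1 / lam ≤ Dm * (M + 1) := by
          rw [div_le_iff₀ k3]
          have h1 : 1 ≤ (D : ℝ) * (M + 1) * lam := by
            rw [div_le_iff₀ (by positivity)] at k4
            linarith
          refine h1.trans ?_
          gcongr
        have hδ' : 1 / dg U (a 0) k ≤ Real.exp (x i + 2 + L) := by
          rw [← G.exp_kg ha0 k, one_div, ← Real.exp_neg, neg_neg]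
          exact Real.exp_le_exp.mpr k2
        have hD0m : (0 : ℝ) < Dm := by linarith
        calc ‖w j - a 0‖ * ‖QQ (J' + 1) a α (w j)‖
            ≤ 3 / 2 * dg U (a 0) k * (2 * ε / (h / 2 * lam * dg U (a 0) k) ^ 2) := by gcongr
          _ = 12 * ε / h ^ 2 * (1 / lam) ^ 2 * (1 / dg U (a 0) k) := by
              field_simp
              norm_num
          _ ≤ 12 * ε / h ^ 2 * (Dm * (M + 1)) ^ 2 * Real.exp (x i + 2 + L) := by gcongr
          _ = Real.exp (Real.log ε + Real.log (12 * (Dm * (M + 1)) ^ 2 / h ^ 2) +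
                (x i + 2 + L)) := by
              rw [Real.exp_add (Real.log ε + _) _, Real.exp_add (Real.log ε) _, Real.exp_log hε,
                Real.exp_log (by positivity)]
              ring
          _ ≤ Real.exp e := by
              apply Real.exp_le_exp.mpr
              linarith)
  rw [GG_self, norm_one] at hlt
  exact lt_irrefl _ hlt

/-- **The lower bound for the mass of the error term**, abstract form. -/
theorem mass_g2 {h L c₀ : ℝ} (hh0 : 0 < h) (hh1 : h ≤ 1) (hL0 : 0 ≤ L) (hc₀ : 0 < c₀)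
    (hc₁ : c₀ ≤ 1) : ∃ A : ℝ, 1 ≤ A ∧
    ∀ (U : ℕ → Set ℂ) (K : Set ℂ), Geo U K h L → (∀ x ∈ K, c₀ ≤ dg U x 0) →
    ∀ (J' : ℕ) (a α : ℕ → ℂ), (∀ j < J' + 1, a j ∈ K ∨ a j ∉ U 0) → a 0 ∈ K → α 0 = 1 →
    ∀ W : ℝ, 1 ≤ W → 1 + ∑ j ∈ range J', ‖α (j + 1)‖ ≤ Real.exp W →
    ∀ ε : ℝ, 0 < ε → Small U (J' + 1) a α ε →
    ∀ δ : ℝ, 0 < δ → δ ≤ 1 → (∀ j < J', δ ≤ ‖a (j + 1) - a 0‖) →
    ∀ M : ℕ, 1 ≤ M → A * W ^ A * dg U (a 0) M ≤ δ → δ ≤ A * W ^ A * (M : ℝ) ^ 2 * ε := by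
  obtain ⟨m0, hm0⟩ : ∃ m0, m0 = Real.exp (-(2 + L)) * h / 4 := ⟨_, rfl⟩
  have hm00 : 0 < m0 := by rw [hm0]; positivity
  obtain ⟨K, hK⟩ : ∃ K, K = 8 * Real.exp 1 / m0 := ⟨_, rfl⟩
  have hm01 : m0 ≤ 1 := by
    rw [hm0]
    have h1 : Real.exp (-(2 + L)) ≤ 1 := by rw [Real.exp_le_one_iff]; linarith
    have h2 : 0 ≤ Real.exp (-(2 + L)) := (Real.exp_pos _).le
    nlinarith
  have hexp1 : 2 ≤ Real.exp 1 := by
    have := Real.add_one_le_exp (1 : ℝ)
    linarith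
  have hK16 : 16 ≤ K := by
    rw [hK, le_div_iff₀ hm00]
    nlinarith
  have hK0 : 0 < K := by linarith
  have hK1 : 1 ≤ K ^ 2 := one_le_pow₀ (by linarith)
  have hlK4 : 0 ≤ Real.log (4 * K ^ 2) := Real.log_nonneg (by linarith)
  have hlK2 : 0 ≤ Real.log (2 * K ^ 2) := Real.log_nonneg (by linarith)
  have hlKK : 0 ≤ Real.log (K + 2) := Real.log_nonneg (by linarith)
  obtain ⟨l2, hl2⟩ : ∃ l2, l2 = Real.log 2 := ⟨_, rfl⟩
  have hl20 : 0 < l2 := by rw [hl2]; exact Real.log_pos (by norm_num)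
  obtain ⟨LK, hLK⟩ : ∃ LK, LK = Real.log (2 * K ^ 2) := ⟨_, rfl⟩
  rw [← hLK] at hlK2
  obtain ⟨B2, hB2⟩ : ∃ B2, B2 = Real.log (K + 2) + 4 := ⟨_, rfl⟩
  have hB21 : 1 ≤ B2 := by rw [hB2]; linarith
  have hlog3 : 0 ≤ Real.log 3 := Real.log_nonneg (by norm_num)
  obtain ⟨A3, hA3⟩ : ∃ A3, A3 = Real.log 3 / l2 + 1 := ⟨_, rfl⟩
  have hA30 : 0 ≤ A3 := by rw [hA3]; positivity
  obtain ⟨lc, hlc⟩ : ∃ lc, lc = -Real.log c₀ := ⟨_, rfl⟩
  have hlc0 : 0 ≤ lc := by
    rw [hlc]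
    have := Real.log_nonpos hc₀.le hc₁
    linarith
  -- the constants
  obtain ⟨A1, hA1⟩ : ∃ A1, A1 = lc + Real.log (4 * K ^ 2) + A3 * LK + 2 + L +
    (2 * Real.log (K + 2) + 2) + Real.log (48 * B2 ^ 2 / h ^ 2) := ⟨_, rfl⟩
  have hl48 : 0 ≤ Real.log (48 * B2 ^ 2 / h ^ 2) := by
    apply Real.log_nonneg
    rw [le_div_iff₀ (by positivity)]
    have h1 : h ^ 2 ≤ 1 := pow_le_one₀ hh0.le hh1
    have h2 : 1 ≤ B2 ^ 2 := one_le_pow₀ hB21
    linarith
  have hA10 : 0 ≤ A1 := by rw [hA1]; positivity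
  refine ⟨Real.exp A1 + LK / l2 + 2, ?_, ?_⟩
  · have := Real.exp_pos A1
    have : 0 ≤ LK / l2 := by positivity
    linarith
  intro U Kc G hz J' a α ha ha0 hα0 W hW1 hW ε hε hmass δ hδ hδ1 hdeep M hM hx
  obtain ⟨A, hA⟩ : ∃ A, A = Real.exp A1 + LK / l2 + 2 := ⟨_, rfl⟩
  rw [← hA] at hx ⊢
  have hA0 : 0 < A := by rw [hA]; positivity
  have hWpos : 0 < W := by linarith
  have hd0 := G.pos ha0 M
  have hM1 : (1 : ℝ) ≤ M := by exact_mod_cast hM
  obtain ⟨l, hl⟩ : ∃ l, l = Real.log W := ⟨_, rfl⟩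
  have hl0 : 0 ≤ l := by rw [hl]; exact Real.log_nonneg hW1
  -- the number of blocks
  obtain ⟨q, hq⟩ : ∃ q : ℕ, q = ⌈Real.log (3 * W) / l2⌉₊ := ⟨_, rfl⟩
  have hlBM : Real.log (3 * W) = Real.log 3 + l := by
    rw [Real.log_mul (by norm_num) hWpos.ne', ← hl]
  have hq1 : W + 2 ≤ 2 ^ q := by
    have h1 : Real.log (3 * W) / l2 ≤ q := by rw [hq]; exact Nat.le_ceil _
    rw [div_le_iff₀ hl20] at h1
    have h2 : 3 * W ≤ 2 ^ q := by
      have h3 : (2 : ℝ) ^ q = Real.exp (q * l2) := by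
        rw [Real.exp_nat_mul, hl2, Real.exp_log (by norm_num)]
      rw [h3, ← Real.exp_log (show 0 < 3 * W by positivity)]
      exact Real.exp_le_exp.mpr h1
    linarith
  have hq2 : (q : ℝ) ≤ A3 + l / l2 := by
    have h1 : (q : ℝ) ≤ (Real.log 3 + l) / l2 + 1 := by
      rw [hq, ← hlBM]
      apply (Nat.ceil_lt_add_one _).le
      rw [hlBM]
      positivity
    rw [add_div] at h1
    rw [hA3]
    linarith
  -- the number of nodes
  obtain ⟨Dm, hDm⟩ : ∃ Dm : ℕ, Dm = ⌊(W + (2 * Real.log (K + 2) + 2)) / 2⌋₊ + 1 := ⟨_, rfl⟩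
  have hDm1 : (1 : ℝ) ≤ Dm := by
    rw [hDm]
    push_cast
    have : (0 : ℝ) ≤ (⌊(W + (2 * Real.log (K + 2) + 2)) / 2⌋₊ : ℝ) := Nat.cast_nonneg _
    linarith
  have hDm2 : (Dm : ℝ) ≤ B2 * W := by
    have h1 : (Dm : ℝ) ≤ (W + (2 * Real.log (K + 2) + 2)) / 2 + 1 := by
      rw [hDm]
      push_cast
      have := Nat.floor_le (show 0 ≤ (W + (2 * Real.log (K + 2) + 2)) / 2 by positivity)
      linarith
    rw [hB2]
    have h2 : Real.log (K + 2) + 3 ≤ (Real.log (K + 2) + 3) * W :=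
      le_mul_of_one_le_right (by linarith) hW1
    linarith
  have hqLK : (q : ℝ) * LK ≤ A3 * LK + LK / l2 * l := by
    calc (q : ℝ) * LK ≤ (A3 + l / l2) * LK := by gcongr
      _ = _ := by ring
  obtain ⟨m, hm⟩ : ∃ m, m = lc - Real.log δ := ⟨_, rfl⟩
  have hlδ : Real.log δ ≤ 0 := Real.log_nonpos hδ.le hδ1
  have hm00' : kg U (a 0) 0 ≤ m := by
    have h1 := Real.log_le_log hc₀ (hz (a 0) ha0)
    unfold kg
    rw [hm, hlc]
    linarith
  have hexpm : Real.exp (-m) ≤ δ := by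
    calc Real.exp (-m) ≤ Real.exp (Real.log δ) := Real.exp_le_exp.mpr (by rw [hm]; linarith)
      _ = δ := Real.exp_log hδ
  have hlogA : A1 ≤ Real.log A := by
    rw [Real.le_log_iff_exp_le hA0, hA]
    have : 0 ≤ LK / l2 := by positivity
    linarith
  have hAl : LK / l2 * l + 2 * l ≤ A * l := by
    rw [hA]
    have := Real.exp_pos A1
    nlinarith
  have hkx : m - lc + Real.log A + A * l ≤ kg U (a 0) M := by
    have h1 := Real.log_le_log (by positivity) hx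
    rw [Real.log_mul (by positivity) hd0.ne', Real.log_mul hA0.ne' (by positivity),
      Real.log_rpow hWpos, ← hl] at h1
    unfold kg
    rw [hm]
    linarith
  have hcond : m + Real.log (4 * K ^ 2) + q * Real.log (2 * K ^ 2) + 2 ≤ kg U (a 0) M := by
    rw [← hLK]
    rw [hA1] at hlogA
    linarith only [hkx, hlogA, hAl, hqLK, hl0, hlKK, hl48, hL0]
  have key := main_g2 G ha ha0 hα0 (by linarith) hW hε hmass hm00'
    (fun j hj => hexpm.trans (hdeep j hj)) hm0 hK hq1 hDm.ge hcond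
  rw [← hLK] at key
  have hlog : Real.log (12 * (Dm * (M + 1)) ^ 2 / h ^ 2) ≤
      Real.log (48 * B2 ^ 2 / h ^ 2) + 2 * l + 2 * Real.log M := by
    have h1 : 12 * ((Dm : ℝ) * (M + 1)) ^ 2 / h ^ 2 ≤ (48 * B2 ^ 2 / h ^ 2) * W ^ 2 * (M : ℝ) ^ 2 := by
      have h2 : (Dm : ℝ) * (M + 1) ≤ B2 * W * (2 * M) := by
        gcongr
        linarith
      have h3 : (48 * B2 ^ 2 / h ^ 2) * W ^ 2 * (M : ℝ) ^ 2 = 12 * (B2 * W * (2 * M)) ^ 2 / h ^ 2 := by
        ring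
      rw [h3]
      gcongr
    refine (Real.log_le_log (by positivity) h1).trans (le_of_eq ?_)
    rw [Real.log_mul (by positivity) (by positivity), Real.log_mul (by positivity) (by positivity),
      Real.log_pow, Real.log_pow, ← hl]
    push_cast
    ring
  have hfin : Real.log δ ≤ Real.log (A * W ^ A * (M : ℝ) ^ 2 * ε) := by
    rw [Real.log_mul (by positivity) hε.ne', Real.log_mul (by positivity) (by positivity),
      Real.log_mul hA0.ne' (by positivity), Real.log_rpow hWpos, Real.log_pow, ← hl]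
    push_cast
    have : Real.log δ = lc - m := by rw [hm]; ring
    rw [this]
    rw [hA1] at hlogA
    linarith only [key, hlog, hlogA, hAl, hqLK, hl0, hlKK, hl48, hL0]
  exact (Real.log_le_log_iff hδ (by positivity)).mp hfin

end Pool.Agent.Zk29.Rat
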