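import Pool.Agent.Zk29.Rat.Pf

/-!
# The mass lemma for rational maps
-/

set_option autoImplicit false
open Set Filter Topology Metric MeasureTheory Polynomial
open scoped ENNReal

namespace Pool.Agent.Zk29.Rat

open Pool.Agent.H792R2.CE

variable {P Q : ℂ[X]} {U : Set ℂ} {d : ℕ}

/-- The values of `SP` at a point far from `U` are integrable on `U`. -/
theorem SP_int (T : Trap P Q U) (D : Dat P Q d) {z : ℂ}
    (hz : ∀ w ∈ U, 1 ≤ ‖z - w‖) : ∃ b : ℂ → ℝ≥0∞, Measurable b ∧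
      (∀ x ∈ U, Gen P Q d x → x ≠ rf P Q z → ‖(SP P Q d x).eval z‖ₑ ≤ b x) ∧
      ∫⁻ x in U, b x ≠ ⊤ := by
  have hUm : MeasurableSet U := T.opn.measurableSet
  obtain ⟨R, hR⟩ := T.bdd.exists_norm_le
  have hUR : U ⊆ ball 0 (R + 1) := by
    intro z hz
    rw [mem_ball_zero_iff]
    have := hR z hz
    linarith
  obtain ⟨Cn, hCn, hk⟩ := D3a_kernel (R + 1)
  obtain ⟨Tm, hTm, hT1, hT2⟩ := major T.cop (u := U.indicator 1)
    (measurable_one.indicator hUm)
  have hm : Measurable fun w : ℂ => ‖(w - rf P Q z)⁻¹‖ₑ :=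
    (measurable_id.sub_const (rf P Q z)).inv.enorm
  refine ⟨fun x => ‖Q.eval z ^ 2‖ₑ * ‖(x - rf P Q z)⁻¹‖ₑ + ‖(wr P Q).eval z‖ₑ * Tm x, ?_, ?_, ?_⟩
  · exact (hm.const_mul _).add (hTm.const_mul _)
  · intro x hxU hx hxz
    by_cases hD : (P - C x * Q).eval z = 0
    · exfalso
      have hQ := D4x.coprime_ne T.cop hD
      exact sub_eval_ne hQ hxz hD
    have h1 := (SP_spec D hx).2 z hD
    have h2 : (SP P Q d x).eval z = Q.eval z ^ 3 / (P - C x * Q).eval z - (wr P Q).eval z *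
        ∑ w ∈ (P - C x * Q).roots.toFinset, Q.eval w ^ 4 / (wr P Q).eval w ^ 2 / (z - w) := by
      linear_combination -h1
    rw [h2]
    refine enorm_sub_le.trans (add_le_add ?_ ?_)
    · by_cases hQ : Q.eval z = 0
      · rw [hQ]
        simp
      · rw [cube_div hQ hxz, enorm_neg, div_eq_mul_inv, enorm_mul]
    · rw [enorm_mul]
      gcongr
      refine le_trans ?_ (hT1 x)
      refine (enorm_sum_le _ _).trans (Finset.sum_le_sum fun w hw => ?_)
      rw [Multiset.mem_toFinset, Polynomial.mem_roots hx.2.1, IsRoot.def] at hw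
      have hQw := D4x.coprime_ne T.cop hw
      have hfw : rf P Q w = x := by
        rw [eval_sub, eval_mul, eval_C] at hw
        rw [rf, div_eq_iff hQw]
        linear_combination hw
      have hwU : w ∈ U := T.anti 0 ⟨hQw, by rw [hfw]; exact hxU⟩
      rw [indicator_of_mem hwU, Pi.one_apply, mul_one, div_eq_mul_inv _ (z - w), enorm_mul]
      refine mul_le_of_le_one_right' ?_
      rw [← ofReal_norm, norm_inv, ENNReal.ofReal_le_one]
      exact inv_le_one_of_one_le₀ (hz w hwU)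
  · have e1 : ∫⁻ x in U, ‖(x - rf P Q z)⁻¹‖ₑ ≤ Cn := (lintegral_mono_set hUR).trans (hk _)
    have e2 : ∫⁻ x in U, Tm x ≤ volume U := by
      refine (hT2 U hUm).trans ?_
      calc ∫⁻ w in rf P Q ⁻¹' U, U.indicator 1 w ≤ ∫⁻ w, U.indicator 1 w :=
            setLIntegral_le_lintegral _ _
        _ = volume U := lintegral_indicator_one hUm
    have e3 : volume U ≠ ⊤ := T.bdd.measure_lt_top.ne
    rw [lintegral_add_left (hm.const_mul _), lintegral_const_mul _ hm,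
      lintegral_const_mul _ hTm]
    refine ENNReal.add_ne_top.2 ⟨ENNReal.mul_ne_top enorm_ne_top ?_,
      ENNReal.mul_ne_top enorm_ne_top ?_⟩
    · exact ne_top_of_le_ne_top hCn e1
    · exact ne_top_of_le_ne_top e3 e2

/-- **The mass lemma for rational maps.** -/
theorem mass_r (T : Trap P Q U) (D : Dat P Q d) :
    ∃ A : ℝ, 1 ≤ A ∧
    ∀ (J' : ℕ) (a α : ℕ → ℂ), (∀ j < J' + 1, a j ∈ KR P Q U) → α 0 = 1 →
    ∀ W : ℝ, 1 ≤ W → 1 + ∑ j ∈ Finset.range J', ‖α (j + 1)‖ ≤ Real.exp W →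
    ∀ (Λ : ℂ[X] →ₗ[ℂ] ℂ) (κ ρ : ℝ) (r : ℂ → ℝ≥0∞), 0 < κ → 0 ≤ ρ →
    (∀ i ≤ 2 * d, ‖Λ (X ^ i)‖ ≤ κ) →
    (∀ᵐ x : ℂ, x ∈ U → ‖push P Q (QQ (J' + 1) a α) x - QQ (J' + 1) a α x -
      Λ (SP P Q d x)‖ₑ ≤ r x) →
    ∫⁻ x in U, r x ≤ ENNReal.ofReal ρ →
    ∀ δ : ℝ, 0 < δ → δ ≤ 1 → (∀ j < J', δ ≤ ‖a (j + 1) - a 0‖) →
    ∀ M : ℕ, 1 ≤ M → A * W ^ A * dg (UR P Q U) (a 0) M ≤ δ →
      δ ≤ A * W ^ A * (M : ℝ) ^ 2 * (κ + ρ) := by
  obtain ⟨h, L, c₀, hh0, hh1, hL0, hc₀, hc₁, hG, hdg⟩ := T.geo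
  obtain ⟨A, hA1, hA⟩ := mass_g hh0 hh1 hL0 hc₀ hc₁
  obtain ⟨R, hR⟩ := T.bdd.exists_norm_le
  have hQ0 : Q ≠ 0 := D.q0
  obtain ⟨z, hz⟩ : ∃ z : ℕ → ℂ, z = fun i : ℕ => ((|R| + 1 + (i : ℝ) : ℝ) : ℂ) := ⟨_, rfl⟩
  have hzU : ∀ i, ∀ w ∈ U, 1 ≤ ‖z i - w‖ := by
    intro i w hw
    have h1 := hR w hw
    have h2 : ‖z i‖ = |R| + 1 + i := by
      rw [hz]
      simp only
      rw [Complex.norm_real, Real.norm_eq_abs, abs_of_nonneg (by positivity)]
    have h3 := norm_sub_norm_le (z i) w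
    have h4 := le_abs_self R
    have h5 : (0 : ℝ) ≤ i := Nat.cast_nonneg i
    linarith
  have hzinj : Function.Injective z := by
    intro i j hij
    rw [hz] at hij
    simp only at hij
    have h1 : |R| + 1 + (i : ℝ) = |R| + 1 + (j : ℝ) := Complex.ofReal_injective hij
    exact_mod_cast (add_left_cancel h1)
  obtain ⟨l, hl⟩ : ∃ l : ℕ → ℂ[X], l = fun i => if i ∈ Finset.range (2 * d + 1) then
    Lagrange.basis (Finset.range (2 * d + 1)) z i else 0 := ⟨_, rfl⟩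
  have hld : ∀ i, (l i).natDegree ≤ 2 * d := by
    intro i
    rw [hl]
    simp only
    split_ifs with hi
    · have h1 := Lagrange.degree_basis (v := z) (hzinj.injOn) hi
      rw [Finset.card_range] at h1
      exact natDegree_le_of_degree_le (by rw [h1]; simp)
    · simp
  choose b hbm hb1 hb2 using fun i => SP_int T D (hzU i)
  obtain ⟨Cl, hCl⟩ : ∃ Cl : ℝ, Cl = ∑ i ∈ Finset.range (2 * d + 1),
    ∑ k ∈ Finset.range (2 * d + 1), ‖(l i).coeff k‖ := ⟨_, rfl⟩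
  have hCl0 : 0 ≤ Cl := by rw [hCl]; positivity
  obtain ⟨Cb, hCb⟩ : ∃ Cb : ℝ, Cb =
    (∑ i ∈ Finset.range (2 * d + 1), ∫⁻ x in U, b i x).toReal := ⟨_, rfl⟩
  have hCb0 : 0 ≤ Cb := by rw [hCb]; positivity
  obtain ⟨C₁, hC₁⟩ : ∃ C₁ : ℝ, C₁ = max 1 (Cl * Cb) := ⟨_, rfl⟩
  have hC1 : 1 ≤ C₁ := by rw [hC₁]; exact le_max_left _ _
  have hC2 : ∑ i ∈ Finset.range (2 * d + 1), ∫⁻ x in U, b i x = ENNReal.ofReal Cb := by
    rw [hCb, ENNReal.ofReal_toReal (ENNReal.sum_ne_top.2 fun i _ => hb2 i)]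
  have hgen := gen_ae D
  refine ⟨A * C₁, one_le_mul_of_one_le_of_one_le hA1 hC1, ?_⟩
  intro J' a α haK hα0 W hW1 hW Λ κ ρ r hκ hρ hΛ' hr hrρ δ hδ hδ1 hsep M hM hx
  have hΛ : ∀ i ∈ Finset.range (2 * d + 1), ‖Λ (l i)‖ ≤ Cl * κ := by
    intro i hi
    have h1 : l i = ∑ k ∈ Finset.range (2 * d + 1), (l i).coeff k • (X : ℂ[X]) ^ k := by
      conv_lhs => rw [(l i).as_sum_range_C_mul_X_pow' (Nat.lt_succ_of_le (hld i))]
      simp only [smul_eq_C_mul]
    rw [h1, map_sum, hCl, Finset.sum_mul]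
    refine (norm_sum_le _ _).trans ?_
    refine le_trans ?_ (Finset.single_le_sum (f := fun i => (∑ k ∈ Finset.range (2 * d + 1),
      ‖(l i).coeff k‖) * κ) (fun i _ => by positivity) hi)
    rw [Finset.sum_mul]
    refine Finset.sum_le_sum fun k hk => ?_
    rw [map_smul, norm_smul]
    gcongr
    apply hΛ'
    rw [Finset.mem_range] at hk
    omega
  have hW0 : 0 < W := by linarith
  have hAA : A ≤ A * C₁ := le_mul_of_one_le_right (by linarith) hC1
  have hWA : W ^ A ≤ W ^ (A * C₁) := Real.rpow_le_rpow_of_exponent_le hW1 hAA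
  have hWA0 : 0 < W ^ A := Real.rpow_pos_of_pos hW0 A
  have hWA0' : 0 < W ^ (A * C₁) := Real.rpow_pos_of_pos hW0 _
  have hA0 : 0 < A := by linarith
  have ha0 : a 0 ∈ KR P Q U := haK 0 (by omega)
  have hd0 := hG.pos ha0 M
  have hlag : ∀ S : ℂ[X], S.natDegree ≤ 2 * d → Λ S =
      ∑ i ∈ Finset.range (2 * d + 1), S.eval (z i) * Λ (l i) := by
    intro S hS
    have h1 := Lagrange.eq_interpolate (f := S) (s := Finset.range (2 * d + 1)) (v := z)
      hzinj.injOn (by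
        rw [Finset.card_range]
        refine lt_of_le_of_lt degree_le_natDegree ?_
        exact_mod_cast Nat.lt_succ_of_le hS)
    rw [Lagrange.interpolate_apply] at h1
    conv_lhs => rw [h1]
    rw [map_sum]
    refine Finset.sum_congr rfl fun i hi => ?_
    rw [← smul_eq_C_mul, map_smul, smul_eq_mul, hl]
    simp only
    rw [if_pos hi]
  have hsm : Small (UR P Q U) (J' + 1) a α (C₁ * κ + ρ) := by
    refine small_of T hQ0 (b := fun x => ENNReal.ofReal (Cl * κ) *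
      (∑ i ∈ Finset.range (2 * d + 1), b i x) + r x) ?_ ?_
    · have hzae : ∀ᵐ x : ℂ, ∀ i, x ≠ rf P Q (z i) := by
        rw [ae_all_iff]
        intro i
        rw [ae_iff]
        simp
      filter_upwards [hr, hgen, hzae] with x h1 h2 h3 hxU
      have h4 := h1 hxU
      have h5 : ‖Λ (SP P Q d x)‖ₑ ≤ ENNReal.ofReal (Cl * κ) *
          ∑ i ∈ Finset.range (2 * d + 1), b i x := by
        rw [hlag _ (SP_spec D h2).1, Finset.mul_sum]
        refine (enorm_sum_le _ _).trans (Finset.sum_le_sum fun i hi => ?_)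
        rw [enorm_mul, mul_comm]
        gcongr
        · rw [← ofReal_norm]
          exact ENNReal.ofReal_le_ofReal (hΛ i hi)
        · exact hb1 i x hxU h2 (h3 i)
      calc ‖push P Q (QQ (J' + 1) a α) x - QQ (J' + 1) a α x‖ₑ
          = ‖Λ (SP P Q d x) + (push P Q (QQ (J' + 1) a α) x - QQ (J' + 1) a α x -
              Λ (SP P Q d x))‖ₑ := by congr 1; ring
        _ ≤ ‖Λ (SP P Q d x)‖ₑ + ‖push P Q (QQ (J' + 1) a α) x - QQ (J' + 1) a α x -
              Λ (SP P Q d x)‖ₑ := enorm_add_le _ _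
        _ ≤ _ := add_le_add h5 h4
    · have hbs : Measurable fun x => ∑ i ∈ Finset.range (2 * d + 1), b i x :=
        Finset.measurable_fun_sum _ fun i _ => hbm i
      rw [lintegral_add_left (hbs.const_mul _), lintegral_const_mul _ hbs,
        lintegral_finsetSum' _ fun i _ => (hbm i).aemeasurable]
      calc ENNReal.ofReal (Cl * κ) * (∑ i ∈ Finset.range (2 * d + 1), ∫⁻ x in U, b i x) +
            ∫⁻ x in U, r x ≤ ENNReal.ofReal (Cl * κ) * ENNReal.ofReal Cb + ENNReal.ofReal ρ := by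
            rw [hC2]
            gcongr
        _ = ENNReal.ofReal (Cl * Cb * κ + ρ) := by
            rw [← ENNReal.ofReal_mul (by positivity), ← ENNReal.ofReal_add (by positivity) hρ]
            congr 1
            ring
        _ ≤ ENNReal.ofReal (C₁ * κ + ρ) := by
            apply ENNReal.ofReal_le_ofReal
            have : Cl * Cb ≤ C₁ := by rw [hC₁]; exact le_max_right _ _
            nlinarith
  have key := hA (UR P Q U) (KR P Q U) hG hdg J' a α haK hα0 W hW1 hW (C₁ * κ + ρ)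
    (by positivity) hsm δ hδ hδ1 hsep M hM (by
      refine le_trans ?_ hx
      gcongr)
  refine key.trans ?_
  have h6 : C₁ * κ + ρ ≤ C₁ * (κ + ρ) := by nlinarith
  calc A * W ^ A * (M : ℝ) ^ 2 * (C₁ * κ + ρ)
      ≤ A * W ^ (A * C₁) * (M : ℝ) ^ 2 * (C₁ * (κ + ρ)) := by gcongr
    _ = A * C₁ * W ^ (A * C₁) * (M : ℝ) ^ 2 * (κ + ρ) := by ring

end Pool.Agent.Zk29.Rat
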