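import Pool.Agent.Zk29.Rat.MassR
import Pool.Agent.Zk29.Rat.Mass2

/-!
# The mass lemma for rational maps, with poles outside the domain
-/

set_option autoImplicit false
open Set Filter Topology Metric MeasureTheory Polynomial
open scoped ENNReal

namespace Pool.Agent.Zk29.Rat

open Pool.Agent.H792R2.CE

variable {P Q : ℂ[X]} {U : Set ℂ} {d : ℕ}

/-- **The mass lemma for rational maps.** -/
theorem mass_r2 (T : Trap P Q U) (D : Dat P Q d) :
    ∃ A : ℝ, 1 ≤ A ∧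
    ∀ (J' : ℕ) (a α : ℕ → ℂ), (∀ j < J' + 1, a j ∈ KR P Q U ∨ a j ∉ U) → a 0 ∈ KR P Q U →
    α 0 = 1 →
    ∀ W : ℝ, 1 ≤ W → 1 + ∑ j ∈ Finset.range J', ‖α (j + 1)‖ ≤ Real.exp W →
    ∀ (Λ : ℂ[X] →ₗ[ℂ] ℂ) (κ ρ : ℝ) (r : ℂ → ℝ≥0∞), 0 < κ → 0 ≤ ρ →
    (∀ i ≤ 2 * d, ‖Λ (X ^ i)‖ ≤ κ) →
    (∀ᵐ x : ℂ, x ∈ U → ‖push P Q (QQ (J' + 1) a α) x - QQ (J' + 1) a α x -
      Λ (SP P Q d x)‖ₑ ≤ r x) →
    ∫⁻ x in U, r x ≤ ENNReal.ofReal ρ →
    ∀ δ : ℝ, 0 < δ → δ ≤ 1 → (∀ j < J', δ ≤ ‖a (j + 1) - a 0‖) →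
    ∀ M : ℕ, 1 ≤ M → A * W ^ A * dg (UR P Q U) (a 0) M ≤ δ →
      δ ≤ A * W ^ A * (M : ℝ) ^ 2 * (κ + ρ) := by
  obtain ⟨h, L, c₀, hh0, hh1, hL0, hc₀, hc₁, hG, hdg⟩ := T.geo
  obtain ⟨A, hA1, hA⟩ := mass_g2 hh0 hh1 hL0 hc₀ hc₁
  obtain ⟨R, hR⟩ := T.bdd.exists_norm_le
  have hQ0 : Q ≠ 0 := D.q0
  obtain ⟨z, hz⟩ : ∃ z : ℕ → ℂ, z = fun i : ℕ => ((|R| + 1 + (i : ℝ) : ℝ) : ℂ) := ⟨_, rfl⟩
  have hzU : ∀ i, ∀ w ∈ U, 1 ≤ ‖z i - w‖ := by
    intro i w hw
    have h1 := hR w hw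
    have h2 : ‖z i‖ = |R| + 1 + i := by
      rw [hz]
      simp only
      rw [Complex.norm_real, Real.norm_eq_abs, abs_of_nonneg (by positivity)]
    have h3 := norm_sub_norm_le (z i) w
    have h4 := le_abs_self R
    have h5 : (0 : ℝ) ≤ i := Nat.cast_nonneg i
    linarith
  have hzinj : Function.Injective z := by
    intro i j hij
    rw [hz] at hij
    simp only at hij
    have h1 : |R| + 1 + (i : ℝ) = |R| + 1 + (j : ℝ) := Complex.ofReal_injective hij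
    exact_mod_cast (add_left_cancel h1)
  obtain ⟨l, hl⟩ : ∃ l : ℕ → ℂ[X], l = fun i => if i ∈ Finset.range (2 * d + 1) then
    Lagrange.basis (Finset.range (2 * d + 1)) z i else 0 := ⟨_, rfl⟩
  have hld : ∀ i, (l i).natDegree ≤ 2 * d := by
    intro i
    rw [hl]
    simp only
    split_ifs with hi
    · have h1 := Lagrange.degree_basis (v := z) (hzinj.injOn) hi
      rw [Finset.card_range] at h1
      exact natDegree_le_of_degree_le (by rw [h1]; simp)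
    · simp
  choose b hbm hb1 hb2 using fun i => SP_int T D (hzU i)
  obtain ⟨Cl, hCl⟩ : ∃ Cl : ℝ, Cl = ∑ i ∈ Finset.range (2 * d + 1),
    ∑ k ∈ Finset.range (2 * d + 1), ‖(l i).coeff k‖ := ⟨_, rfl⟩
  have hCl0 : 0 ≤ Cl := by rw [hCl]; positivity
  obtain ⟨Cb, hCb⟩ : ∃ Cb : ℝ, Cb =
    (∑ i ∈ Finset.range (2 * d + 1), ∫⁻ x in U, b i x).toReal := ⟨_, rfl⟩
  have hCb0 : 0 ≤ Cb := by rw [hCb]; positivity
  obtain ⟨C₁, hC₁⟩ : ∃ C₁ : ℝ, C₁ = max 1 (Cl * Cb) := ⟨_, rfl⟩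
  have hC1 : 1 ≤ C₁ := by rw [hC₁]; exact le_max_left _ _
  have hC2 : ∑ i ∈ Finset.range (2 * d + 1), ∫⁻ x in U, b i x = ENNReal.ofReal Cb := by
    rw [hCb, ENNReal.ofReal_toReal (ENNReal.sum_ne_top.2 fun i _ => hb2 i)]
  have hgen := gen_ae D
  refine ⟨A * C₁, one_le_mul_of_one_le_of_one_le hA1 hC1, ?_⟩
  intro J' a α haK ha0 hα0 W hW1 hW Λ κ ρ r hκ hρ hΛ' hr hrρ δ hδ hδ1 hsep M hM hx
  have hΛ : ∀ i ∈ Finset.range (2 * d + 1), ‖Λ (l i)‖ ≤ Cl * κ := by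
    intro i hi
    have h1 : l i = ∑ k ∈ Finset.range (2 * d + 1), (l i).coeff k • (X : ℂ[X]) ^ k := by
      conv_lhs => rw [(l i).as_sum_range_C_mul_X_pow' (Nat.lt_succ_of_le (hld i))]
      simp only [smul_eq_C_mul]
    rw [h1, map_sum, hCl, Finset.sum_mul]
    refine (norm_sum_le _ _).trans ?_
    refine le_trans ?_ (Finset.single_le_sum (f := fun i => (∑ k ∈ Finset.range (2 * d + 1),
      ‖(l i).coeff k‖) * κ) (fun i _ => by positivity) hi)
    rw [Finset.sum_mul]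
    refine Finset.sum_le_sum fun k hk => ?_
    rw [map_smul, norm_smul]
    gcongr
    apply hΛ'
    rw [Finset.mem_range] at hk
    omega
  have hW0 : 0 < W := by linarith
  have hAA : A ≤ A * C₁ := le_mul_of_one_le_right (by linarith) hC1
  have hWA : W ^ A ≤ W ^ (A * C₁) := Real.rpow_le_rpow_of_exponent_le hW1 hAA
  have hWA0 : 0 < W ^ A := Real.rpow_pos_of_pos hW0 A
  have hWA0' : 0 < W ^ (A * C₁) := Real.rpow_pos_of_pos hW0 _
  have hA0 : 0 < A := by linarith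
  have hd0 := hG.pos ha0 M
  have hlag : ∀ S : ℂ[X], S.natDegree ≤ 2 * d → Λ S =
      ∑ i ∈ Finset.range (2 * d + 1), S.eval (z i) * Λ (l i) := by
    intro S hS
    have h1 := Lagrange.eq_interpolate (f := S) (s := Finset.range (2 * d + 1)) (v := z)
      hzinj.injOn (by
        rw [Finset.card_range]
        refine lt_of_le_of_lt degree_le_natDegree ?_
        exact_mod_cast Nat.lt_succ_of_le hS)
    rw [Lagrange.interpolate_apply] at h1
    conv_lhs => rw [h1]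
    rw [map_sum]
    refine Finset.sum_congr rfl fun i hi => ?_
    rw [← smul_eq_C_mul, map_smul, smul_eq_mul, hl]
    simp only
    rw [if_pos hi]
  have hsm : Small (UR P Q U) (J' + 1) a α (C₁ * κ + ρ) := by
    refine small_of T hQ0 (b := fun x => ENNReal.ofReal (Cl * κ) *
      (∑ i ∈ Finset.range (2 * d + 1), b i x) + r x) ?_ ?_
    · have hzae : ∀ᵐ x : ℂ, ∀ i, x ≠ rf P Q (z i) := by
        rw [ae_all_iff]
        intro i
        rw [ae_iff]
        simp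
      filter_upwards [hr, hgen, hzae] with x h1 h2 h3 hxU
      have h4 := h1 hxU
      have h5 : ‖Λ (SP P Q d x)‖ₑ ≤ ENNReal.ofReal (Cl * κ) *
          ∑ i ∈ Finset.range (2 * d + 1), b i x := by
        rw [hlag _ (SP_spec D h2).1, Finset.mul_sum]
        refine (enorm_sum_le _ _).trans (Finset.sum_le_sum fun i hi => ?_)
        rw [enorm_mul, mul_comm]
        gcongr
        · rw [← ofReal_norm]
          exact ENNReal.ofReal_le_ofReal (hΛ i hi)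
        · exact hb1 i x hxU h2 (h3 i)
      calc ‖push P Q (QQ (J' + 1) a α) x - QQ (J' + 1) a α x‖ₑ
          = ‖Λ (SP P Q d x) + (push P Q (QQ (J' + 1) a α) x - QQ (J' + 1) a α x -
              Λ (SP P Q d x))‖ₑ := by congr 1; ring
        _ ≤ ‖Λ (SP P Q d x)‖ₑ + ‖push P Q (QQ (J' + 1) a α) x - QQ (J' + 1) a α x -
              Λ (SP P Q d x)‖ₑ := enorm_add_le _ _
        _ ≤ _ := add_le_add h5 h4
    · have hbs : Measurable fun x => ∑ i ∈ Finset.range (2 * d + 1), b i x :=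
        Finset.measurable_fun_sum _ fun i _ => hbm i
      rw [lintegral_add_left (hbs.const_mul _), lintegral_const_mul _ hbs,
        lintegral_finsetSum' _ fun i _ => (hbm i).aemeasurable]
      calc ENNReal.ofReal (Cl * κ) * (∑ i ∈ Finset.range (2 * d + 1), ∫⁻ x in U, b i x) +
            ∫⁻ x in U, r x ≤ ENNReal.ofReal (Cl * κ) * ENNReal.ofReal Cb + ENNReal.ofReal ρ := by
            rw [hC2]
            gcongr
        _ = ENNReal.ofReal (Cl * Cb * κ + ρ) := by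
            rw [← ENNReal.ofReal_mul (by positivity), ← ENNReal.ofReal_add (by positivity) hρ]
            congr 1
            ring
        _ ≤ ENNReal.ofReal (C₁ * κ + ρ) := by
            apply ENNReal.ofReal_le_ofReal
            have : Cl * Cb ≤ C₁ := by rw [hC₁]; exact le_max_right _ _
            nlinarith
  have key := hA (UR P Q U) (KR P Q U) hG hdg J' a α haK ha0 hα0 W hW1 hW (C₁ * κ + ρ)
    (by positivity) hsm δ hδ hδ1 hsep M hM (by
      refine le_trans ?_ hx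
      gcongr)
  refine key.trans ?_
  have h6 : C₁ * κ + ρ ≤ C₁ * (κ + ρ) := by nlinarith
  calc A * W ^ A * (M : ℝ) ^ 2 * (C₁ * κ + ρ)
      ≤ A * W ^ (A * C₁) * (M : ℝ) ^ 2 * (C₁ * (κ + ρ)) := by gcongr
    _ = A * C₁ * W ^ (A * C₁) * (M : ℝ) ^ 2 * (κ + ρ) := by ring

end Pool.Agent.Zk29.Rat
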