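import Pool.Agent.Zk29.Rat.PushR

/-!
# The push-forward of simple poles
-/

set_option autoImplicit false
open Set Filter Topology Metric MeasureTheory Polynomial
open scoped ENNReal

namespace Pool.Agent.Zk29.Rat

open Pool.Agent.H792R2.CE

/-- `x` is not a critical value and has `d` finite preimages. -/
def Gen (P Q : ℂ[X]) (d : ℕ) (x : ℂ) : Prop :=
  (P - C x * Q).natDegree = d ∧ P - C x * Q ≠ 0 ∧
    ∀ w, (P - C x * Q).eval w = 0 → (wr P Q).eval w ≠ 0

/-- `P / Q` is a nonconstant rational function of degree `d`. -/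
structure Dat (P Q : ℂ[X]) (d : ℕ) : Prop where
  pd : P.natDegree ≤ d
  qd : Q.natDegree ≤ d
  top : P.coeff d ≠ 0 ∨ Q.coeff d ≠ 0
  wn : wr P Q ≠ 0
  q0 : Q ≠ 0
  cop : IsCoprime P Q

variable {P Q : ℂ[X]} {U : Set ℂ} {d : ℕ}

theorem Dat.of_den (hd : 1 ≤ d) (hPd : P.natDegree ≤ d) (hQd : Q.natDegree = d)
    (hc : IsCoprime P Q) : Dat P Q d := by
  have hQ0 : Q ≠ 0 := by
    rintro rfl
    rw [natDegree_zero] at hQd
    omega
  refine ⟨hPd, hQd.le, Or.inr ?_, wr_ne_zero hd hc hQd, hQ0, hc⟩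
  rw [← hQd]
  exact Polynomial.leadingCoeff_ne_zero.2 hQ0

theorem gen_ae (D : Dat P Q d) : ∀ᵐ x : ℂ, Gen P Q d x := by
  have hN : wr P Q ≠ 0 := D.wn
  have hPd := D.pd
  have hQd := D.qd
  have hc := D.cop
  have h1 : ∀ᵐ x : ℂ, P.coeff d ≠ x * Q.coeff d := by
    by_cases hQ0 : Q.coeff d = 0
    · refine Eventually.of_forall fun x => ?_
      rw [hQ0, mul_zero]
      exact D.top.resolve_right fun h => h hQ0
    · have h2 : ∀ᵐ x : ℂ, x ≠ P.coeff d / Q.coeff d := by
        rw [ae_iff]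
        simp
      filter_upwards [h2] with x hx h3
      apply hx
      rw [h3]
      field_simp
  have h2 : ∀ᵐ x : ℂ, x ∉ rf P Q '' ((wr P Q).roots.toFinset : Set ℂ) := by
    rw [ae_iff]
    simp only [not_not]
    exact Set.Finite.measure_zero ((Finset.finite_toSet _).image _) _
  filter_upwards [h1, h2] with x hx1 hx2
  have hcf : (P - C x * Q).coeff d ≠ 0 := by
    rw [coeff_sub, coeff_C_mul]
    exact sub_ne_zero.2 hx1
  have hne : P - C x * Q ≠ 0 := by
    intro h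
    rw [h, coeff_zero] at hcf
    exact hcf rfl
  refine ⟨?_, hne, ?_⟩
  · apply le_antisymm
    · refine (natDegree_sub_le _ _).trans (max_le hPd ?_)
      exact (natDegree_C_mul_le _ _).trans hQd
    · exact le_natDegree_of_ne_zero hcf
  · intro w hw h0
    apply hx2
    refine ⟨w, ?_, ?_⟩
    · rw [Finset.mem_coe, Multiset.mem_toFinset, Polynomial.mem_roots hN]
      exact h0
    · have hq := D4x.coprime_ne hc hw
      rw [rf, div_eq_iff hq]
      rw [eval_sub, eval_mul, eval_C] at hw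
      linear_combination hw

/-- The polynomial part in the partial fraction expansion. -/
noncomputable def SP (P Q : ℂ[X]) (d : ℕ) (x : ℂ) : ℂ[X] :=
  open Classical in
  if h : ∃ S : ℂ[X], S.natDegree ≤ 2 * d ∧ ∀ z, (P - C x * Q).eval z ≠ 0 →
      Q.eval z ^ 3 / (P - C x * Q).eval z = S.eval z + (wr P Q).eval z *
        ∑ w ∈ (P - C x * Q).roots.toFinset, Q.eval w ^ 4 / (wr P Q).eval w ^ 2 / (z - w)
  then h.choose else 0

theorem SP_spec (D : Dat P Q d) {x : ℂ} (hx : Gen P Q d x) :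
    (SP P Q d x).natDegree ≤ 2 * d ∧ ∀ z, (P - C x * Q).eval z ≠ 0 →
      Q.eval z ^ 3 / (P - C x * Q).eval z = (SP P Q d x).eval z + (wr P Q).eval z *
        ∑ w ∈ (P - C x * Q).roots.toFinset, Q.eval w ^ 4 / (wr P Q).eval w ^ 2 / (z - w) := by
  have h := D1_pf D.pd D.qd hx.1 hx.2.1 hx.2.2
  unfold SP
  rw [dif_pos h]
  exact h.choose_spec

lemma push_sum (J : ℕ) (a α : ℕ → ℂ) (x : ℂ) : push P Q (QQ J a α) x =
    ∑ j ∈ Finset.range J, α j * push P Q (fun w => 1 / (w - a j)) x := by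
  unfold push QQ
  simp_rw [Finset.mul_sum]
  rw [Finset.sum_comm]
  refine Finset.sum_congr rfl fun j _ => Finset.sum_congr rfl fun w _ => ?_
  ring

lemma push_neg (a x : ℂ) : push P Q (fun w => 1 / (w - a)) x =
    -∑ w ∈ (P - C x * Q).roots.toFinset, Q.eval w ^ 4 / (wr P Q).eval w ^ 2 / (a - w) := by
  unfold push
  rw [← Finset.sum_neg_distrib]
  refine Finset.sum_congr rfl fun w _ => ?_
  beta_reduce
  rw [← neg_sub a w, div_neg]
  ring

lemma sub_eval {a x : ℂ} (hQ : Q.eval a ≠ 0) :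
    (P - C x * Q).eval a = -(Q.eval a * (x - rf P Q a)) := by
  rw [eval_sub, eval_mul, eval_C, rf]
  field_simp
  ring

lemma sub_eval_ne {a x : ℂ} (hQ : Q.eval a ≠ 0) (hx : x ≠ rf P Q a) :
    (P - C x * Q).eval a ≠ 0 := by
  rw [sub_eval hQ]
  exact neg_ne_zero.2 (mul_ne_zero hQ (sub_ne_zero.2 hx))

lemma cube_div {a x : ℂ} (hQ : Q.eval a ≠ 0) (hx : x ≠ rf P Q a) :
    Q.eval a ^ 3 / (P - C x * Q).eval a = -(Q.eval a ^ 2 / (x - rf P Q a)) := by
  rw [sub_eval hQ]
  have := sub_ne_zero.2 hx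
  field_simp

theorem push_reg (D : Dat P Q d) {a x : ℂ} (hx : Gen P Q d x)
    (hQ : Q.eval a ≠ 0) (hN : (wr P Q).eval a ≠ 0) (hxa : x ≠ rf P Q a) :
    push P Q (fun w => 1 / (w - a)) x = Q.eval a ^ 2 / (wr P Q).eval a / (x - rf P Q a) +
      (SP P Q d x).eval a / (wr P Q).eval a := by
  have h1 := (SP_spec D hx).2 a (sub_eval_ne hQ hxa)
  rw [cube_div hQ hxa] at h1
  rw [push_neg]
  have h2 := sub_ne_zero.2 hxa
  have h3 : (wr P Q).eval a * (∑ w ∈ (P - C x * Q).roots.toFinset,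
      Q.eval w ^ 4 / (wr P Q).eval w ^ 2 / (a - w)) =
      -(Q.eval a ^ 2 / (x - rf P Q a)) - (SP P Q d x).eval a := by
    linear_combination -h1
  have h4 : (∑ w ∈ (P - C x * Q).roots.toFinset,
      Q.eval w ^ 4 / (wr P Q).eval w ^ 2 / (a - w)) =
      (-(Q.eval a ^ 2 / (x - rf P Q a)) - (SP P Q d x).eval a) / (wr P Q).eval a := by
    rw [eq_div_iff hN, mul_comm]
    exact h3
  rw [h4]
  field_simp
  ring

theorem SP_crit (Dt : Dat P Q d) {c x : ℂ} (hx : Gen P Q d x)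
    (hQ : Q.eval c ≠ 0) (hN : (wr P Q).eval c = 0) (hxa : x ≠ rf P Q c) :
    (SP P Q d x).eval c = -(Q.eval c ^ 2 / (x - rf P Q c)) := by
  have h1 := (SP_spec Dt hx).2 c (sub_eval_ne hQ hxa)
  rw [cube_div hQ hxa, hN, zero_mul, add_zero] at h1
  exact h1.symm

/-- The derivative of the critical point. -/
noncomputable def Tc (P Q : ℂ[X]) (c : ℂ) (S : ℂ[X]) : ℂ :=
  ((derivative S).eval c - 2 * (derivative Q).eval c / Q.eval c * S.eval c) /
    (derivative (wr P Q)).eval c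

theorem push_crit (Dt : Dat P Q d) {c x : ℂ} (hx : Gen P Q d x)
    (hQ : Q.eval c ≠ 0) (hN : (wr P Q).eval c = 0) (hN' : (derivative (wr P Q)).eval c ≠ 0)
    (hxa : x ≠ rf P Q c) :
    push P Q (fun w => 1 / (w - c)) x = Tc P Q c (SP P Q d x) := by
  obtain ⟨D, hD⟩ : ∃ D, D = P - C x * Q := ⟨_, rfl⟩
  have hDc : D.eval c ≠ 0 := by rw [hD]; exact sub_eval_ne hQ hxa
  have hspec := (SP_spec Dt hx).2
  rw [← hD] at hspec
  have hroot : ∀ w ∈ D.roots.toFinset, c - w ≠ 0 := by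
    intro w hw h0
    rw [Multiset.mem_toFinset, Polynomial.mem_roots', IsRoot.def] at hw
    rw [sub_eq_zero] at h0
    rw [h0] at hDc
    exact hDc hw.2
  have hL : HasDerivAt (fun z => Q.eval z ^ 3 / D.eval z)
      ((3 * Q.eval c ^ 2 * (derivative Q).eval c * D.eval c -
        Q.eval c ^ 3 * (derivative D).eval c) / D.eval c ^ 2) c := by
    have h1 := ((Q.hasDerivAt c).fun_pow 3).fun_div (D.hasDerivAt c) hDc
    exact h1.congr_deriv (by norm_num)
  have hR : HasDerivAt (fun z => (SP P Q d x).eval z + (wr P Q).eval z *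
        ∑ w ∈ D.roots.toFinset, Q.eval w ^ 4 / (wr P Q).eval w ^ 2 / (z - w))
      ((derivative (SP P Q d x)).eval c + ((derivative (wr P Q)).eval c *
        (∑ w ∈ D.roots.toFinset, Q.eval w ^ 4 / (wr P Q).eval w ^ 2 / (c - w)) +
        (wr P Q).eval c * ∑ w ∈ D.roots.toFinset,
          -(Q.eval w ^ 4 / (wr P Q).eval w ^ 2) / (c - w) ^ 2)) c := by
    refine ((SP P Q d x).hasDerivAt c).fun_add (((wr P Q).hasDerivAt c).fun_mul ?_)
    refine HasDerivAt.fun_sum fun w hw => ?_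
    have h1 := ((hasDerivAt_const c (Q.eval w ^ 4 / (wr P Q).eval w ^ 2)).fun_div
      ((hasDerivAt_id c).sub_const w) (hroot w hw))
    exact h1.congr_deriv (by simp)
  have hev : (fun z => Q.eval z ^ 3 / D.eval z) =ᶠ[𝓝 c] (fun z => (SP P Q d x).eval z +
      (wr P Q).eval z * ∑ w ∈ D.roots.toFinset, Q.eval w ^ 4 / (wr P Q).eval w ^ 2 / (z - w)) := by
    filter_upwards [D.continuous.continuousAt.eventually_ne hDc] with z hz
    exact hspec z hz
  have h1 := (hL.congr_of_eventuallyEq hev.symm).unique hR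
  rw [hN, zero_mul, add_zero] at h1
  rw [push_neg, ← hD]
  obtain ⟨Sg, hSg⟩ : ∃ Sg, Sg = ∑ w ∈ D.roots.toFinset,
    Q.eval w ^ 4 / (wr P Q).eval w ^ 2 / (c - w) := ⟨_, rfl⟩
  rw [← hSg] at h1 ⊢
  have hS0 := SP_crit Dt hx hQ hN hxa
  have hDe : D.eval c = -(Q.eval c * (x - rf P Q c)) := by rw [hD]; exact sub_eval hQ
  have hD'e : (derivative D).eval c = -((derivative Q).eval c * (x - rf P Q c)) := by
    rw [hD, derivative_sub, derivative_mul, derivative_C, zero_mul, zero_add, eval_sub, eval_mul,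
      eval_C]
    have h2 : (derivative P).eval c * Q.eval c = P.eval c * (derivative Q).eval c := by
      unfold wr at hN
      rw [eval_sub, eval_mul, eval_mul] at hN
      linear_combination hN
    have h3 : rf P Q c * Q.eval c = P.eval c := by rw [rf]; field_simp
    have h4 : (derivative P).eval c = rf P Q c * (derivative Q).eval c := by
      apply mul_right_cancel₀ hQ
      rw [h2, ← h3]
      ring
    rw [h4]
    ring
  unfold Tc
  rw [eq_div_iff hN']
  have hx0 := sub_ne_zero.2 hxa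
  rw [hDe, hD'e] at h1
  have h5 : (3 * Q.eval c ^ 2 * (derivative Q).eval c * -(Q.eval c * (x - rf P Q c)) -
      Q.eval c ^ 3 * -((derivative Q).eval c * (x - rf P Q c))) /
      (-(Q.eval c * (x - rf P Q c))) ^ 2 =
      -(2 * (Q.eval c * (derivative Q).eval c) / (x - rf P Q c)) := by
    field_simp
    ring
  rw [h5] at h1
  rw [hS0]
  have h6 : 2 * (derivative Q).eval c / Q.eval c * -(Q.eval c ^ 2 / (x - rf P Q c)) =
      -(2 * (Q.eval c * (derivative Q).eval c) / (x - rf P Q c)) := by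
    field_simp
  rw [h6]
  linear_combination h1

end Pool.Agent.Zk29.Rat
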