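import Pool.Agent.Zk29.Rat.Smu
import Pool.Agent.Zk29.Rat.Multi

/-!
# The space of the infinitesimal deformations of a polynomial
-/

set_option autoImplicit false
open Set Filter Topology Metric MeasureTheory Polynomial
open scoped ENNReal

namespace Pool.Agent.Zk29.Rat

open Pool.Agent.H792R2.CE

variable {P : ℂ[X]} {d : ℕ}

lemma wr_one (P : ℂ[X]) : wr P 1 = derivative P := by
  unfold wr
  simp

lemma rf_one (P : ℂ[X]) (z : ℂ) : rf P 1 z = P.eval z := by
  unfold rf
  simp

theorem Dat.poly (hd : 1 ≤ d) (hP : P.natDegree = d) : Dat P 1 d := by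
  have h0 : P ≠ 0 := by
    rintro rfl
    rw [natDegree_zero] at hP
    omega
  refine ⟨hP.le, by simp, Or.inl ?_, ?_, one_ne_zero, isCoprime_one_right⟩
  · rw [← hP]
    exact leadingCoeff_ne_zero.2 h0
  · rw [wr_one, derivative_ne_zero, hP]
    omega

theorem SP_poly (D : Dat P 1 d) {x : ℂ} (hx : Gen P 1 d x) :
    ∃ T : ℂ[X], T.natDegree ≤ d - 1 ∧
      (1 : ℂ[X]) = SP P 1 d x * (P - C x) + derivative P * T ∧
      ∀ z, (P - C x).eval z ≠ 0 → T.eval z = (P - C x).eval z *
        ∑ w ∈ (P - C x * 1).roots.toFinset, 1 / (derivative P).eval w ^ 2 / (z - w) := by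
  obtain ⟨E, hE⟩ : ∃ E, E = P - C x * 1 := ⟨_, rfl⟩
  have hE' : E = P - C x := by rw [hE, mul_one]
  obtain ⟨h1, h2, h3⟩ := hx
  obtain ⟨-, hs⟩ := SP_spec D ⟨h1, h2, h3⟩
  rw [← hE] at h1 h2 h3 hs
  rw [← hE', ← hE]
  simp only [eval_one, one_pow] at hs
  rw [wr_one] at hs h3
  have h5 : ∀ z, E.eval z ≠ 0 → ∀ w ∈ E.roots.toFinset,
      (C (1 / (derivative P).eval w ^ 2) * (E /ₘ (X - C w))).eval z =
      E.eval z * (1 / (derivative P).eval w ^ 2 / (z - w)) := by
    intro z hz' w hw
    rw [Multiset.mem_toFinset, mem_roots h2] at hw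
    have h6 := mul_divByMonic_eq_iff_isRoot.2 hw
    have h7 := congrArg (Polynomial.eval z) h6
    rw [eval_mul, eval_sub, eval_X, eval_C] at h7
    have h8 : z - w ≠ 0 := by
      intro h0
      rw [h0, zero_mul] at h7
      exact hz' h7.symm
    rw [eval_mul, eval_C, ← h7]
    have h9 : (derivative P).eval w ≠ 0 := h3 w hw
    field_simp
  refine ⟨∑ w ∈ E.roots.toFinset, C (1 / (derivative P).eval w ^ 2) * (E /ₘ (X - C w)), ?_, ?_,
    fun z hz => by rw [eval_finsetSum, Finset.sum_congr rfl (h5 z hz), ← Finset.mul_sum]⟩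
  · refine natDegree_sum_le_of_forall_le _ _ fun w _ => ?_
    refine (natDegree_C_mul_le _ _).trans ?_
    rw [natDegree_divByMonic _ (monic_X_sub_C w), h1, natDegree_X_sub_C]
  · refine eq_of_infinite_eval_eq _ _ ?_
    refine (Set.Finite.infinite_compl (Finset.finite_toSet E.roots.toFinset)).mono ?_
    intro z hz
    have hz' : E.eval z ≠ 0 := by
      intro h0
      apply hz
      rw [Finset.mem_coe, Multiset.mem_toFinset, mem_roots h2]
      exact h0
    rw [mem_ofPred_eq, eval_one, eval_add, eval_mul, eval_mul, eval_finsetSum]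
    rw [Finset.sum_congr rfl (h5 z hz'), ← Finset.mul_sum]
    have h10 : (1 : ℂ) = E.eval z * ((SP P 1 d x).eval z + (derivative P).eval z *
        ∑ w ∈ E.roots.toFinset, 1 / (derivative P).eval w ^ 2 / (z - w)) := by
      have h11 := hs z hz'
      rw [← h11]
      field_simp
    linear_combination h10

/-- The space of the infinitesimal deformations. -/
def VV (P : ℂ[X]) (d : ℕ) : Submodule ℂ ℂ[X] where
  carrier := {S | S.natDegree ≤ d - 2 ∧
    (∀ c, (X - C c) ^ (rootMultiplicity c (derivative P)) ∣ S - C (S.eval c)) ∧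
    ∀ c c', (derivative P).eval c = 0 → (derivative P).eval c' = 0 → P.eval c = P.eval c' →
      S.eval c = S.eval c'}
  add_mem' := by
    rintro S S' ⟨h1, h2, h3⟩ ⟨h1', h2', h3'⟩
    refine ⟨(natDegree_add_le _ _).trans (max_le h1 h1'), fun c => ?_, fun c c' hc hc' hcc => ?_⟩
    · have h4 := dvd_add (h2 c) (h2' c)
      have h5 : S - C (S.eval c) + (S' - C (S'.eval c)) = S + S' - C ((S + S').eval c) := by
        rw [eval_add, C_add]
        ring
      rwa [h5] at h4
    · rw [eval_add, eval_add, h3 c c' hc hc' hcc, h3' c c' hc hc' hcc]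
  zero_mem' := by
    refine ⟨by simp, fun c => by simp, fun c c' _ _ _ => by simp⟩
  smul_mem' := by
    rintro a S ⟨h1, h2, h3⟩
    refine ⟨(natDegree_smul_le _ _).trans h1, fun c => ?_, fun c c' hc hc' hcc => ?_⟩
    · have h4 := (h2 c).mul_left (C a)
      have h5 : C a * (S - C (S.eval c)) = a • S - C ((a • S).eval c) := by
        rw [eval_smul, smul_eq_mul, C_mul, smul_eq_C_mul]
        ring
      rwa [h5] at h4
    · rw [eval_smul, eval_smul, h3 c c' hc hc' hcc]

lemma mem_VV {S : ℂ[X]} : S ∈ VV P d ↔ S.natDegree ≤ d - 2 ∧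
    (∀ c, (X - C c) ^ (rootMultiplicity c (derivative P)) ∣ S - C (S.eval c)) ∧
    ∀ c c', (derivative P).eval c = 0 → (derivative P).eval c' = 0 → P.eval c = P.eval c' →
      S.eval c = S.eval c' := Iff.rfl

lemma pow_dvd_sub (c : ℂ) :
    (X - C c) ^ (rootMultiplicity c (derivative P)) ∣ P - C (P.eval c) := by
  obtain ⟨G, hG⟩ : ∃ G, G = P - C (P.eval c) := ⟨_, rfl⟩
  have hr : G.IsRoot c := by
    rw [hG, IsRoot.def, eval_sub, eval_C, sub_self]
  have hG' : derivative G = derivative P := by rw [hG, derivative_sub, derivative_C, sub_zero]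
  have h1 := derivative_rootMultiplicity_of_root hr
  rw [← hG, ← hG', h1]
  exact (pow_dvd_pow _ (Nat.sub_le _ _)).trans (pow_rootMultiplicity_dvd _ _)

lemma crit_mult (hP : 1 ≤ P.natDegree) {c : ℂ} :
    1 ≤ rootMultiplicity c (derivative P) ↔ (derivative P).eval c = 0 := by
  have h0 : derivative P ≠ 0 := by
    rw [derivative_ne_zero]
    omega
  rw [Nat.one_le_iff_ne_zero, ← Nat.pos_iff_ne_zero, rootMultiplicity_pos h0]
  rfl

theorem SP_mem (D : Dat P 1 d) (hP : P.natDegree = d) (hd : 2 ≤ d) {x : ℂ} (hx : Gen P 1 d x)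
    (hcv : ∀ c, (derivative P).eval c = 0 → P.eval c ≠ x) : SP P 1 d x ∈ VV P d := by
  obtain ⟨T, hT, h1, -⟩ := SP_poly D hx
  obtain ⟨S, hS⟩ : ∃ S, S = SP P 1 d x := ⟨_, rfl⟩
  rw [← hS] at h1 ⊢
  have hval : ∀ c, (derivative P).eval c = 0 → S.eval c = 1 / (P.eval c - x) := by
    intro c hc
    have h2 := congrArg (Polynomial.eval c) h1
    rw [eval_one, eval_add, eval_mul, eval_mul, hc, zero_mul, add_zero, eval_sub, eval_C] at h2
    rw [eq_div_iff (sub_ne_zero.2 (hcv c hc))]
    exact h2.symm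
  rw [mem_VV]
  refine ⟨?_, fun c => ?_, fun c c' hc hc' hcc => ?_⟩
  · by_cases hS0 : S = 0
    · rw [hS0, natDegree_zero]
      exact Nat.zero_le _
    · have hE : (P - C x).natDegree = d := by
        have := hx.1
        rwa [mul_one] at this
      have hE0 : P - C x ≠ 0 := by
        have := hx.2.1
        rwa [mul_one] at this
      have h2 : S * (P - C x) = 1 - derivative P * T := by
        rw [h1]
        ring
      have h3 : (S * (P - C x)).natDegree = S.natDegree + d := by
        rw [natDegree_mul hS0 hE0, hE]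
      have h4 : (1 - derivative P * T).natDegree ≤ (d - 1) + (d - 1) := by
        refine (natDegree_sub_le _ _).trans (max_le (by simp) ?_)
        refine natDegree_mul_le.trans (add_le_add ?_ hT)
        exact (natDegree_derivative_le P).trans (by rw [hP])
      rw [← h2, h3] at h4
      omega
  · by_cases hk : 1 ≤ rootMultiplicity c (derivative P)
    · have hc := (crit_mult (by omega)).1 hk
      have hne := sub_ne_zero.2 (hcv c hc)
      have h2 : S - C (S.eval c) = C (1 / (P.eval c - x)) *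
          (-(derivative P * T) - S * (P - C (P.eval c))) := by
        have h3 : C (1 / (P.eval c - x)) * C (P.eval c - x) = 1 := by
          rw [← C_mul, one_div, inv_mul_cancel₀ hne, C_1]
        have h4 : S - C (S.eval c) = C (1 / (P.eval c - x)) * (C (P.eval c - x) * S - 1) := by
          rw [hval c hc, mul_sub, ← mul_assoc, h3]
          ring
        rw [h4]
        congr 1
        have h5 : C (P.eval c - x) = (P - C x) - (P - C (P.eval c)) := by
          rw [C_sub]
          ring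
        rw [h5]
        linear_combination -h1
      rw [h2]
      refine Dvd.dvd.mul_left (dvd_sub ?_ ?_) _
      · exact (Dvd.dvd.mul_right (pow_rootMultiplicity_dvd _ _) _).neg_right
      · exact Dvd.dvd.mul_left (pow_dvd_sub c) _
    · have : rootMultiplicity c (derivative P) = 0 := by omega
      rw [this, pow_zero]
      exact one_dvd _
  · rw [hval c hc, hval c' hc', hcc]

/-- The critical values. -/
noncomputable def cvs (P : ℂ[X]) : Finset ℂ := by
  classical
  exact (derivative P).roots.toFinset.image fun z => P.eval z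

lemma mem_cvs (hP : 1 ≤ P.natDegree) {v : ℂ} :
    v ∈ cvs P ↔ ∃ c, (derivative P).eval c = 0 ∧ P.eval c = v := by
  have h0 : derivative P ≠ 0 := by
    rw [derivative_ne_zero]
    omega
  unfold cvs
  rw [Finset.mem_image]
  constructor
  · rintro ⟨c, hc, rfl⟩
    rw [Multiset.mem_toFinset, mem_roots h0] at hc
    exact ⟨c, hc, rfl⟩
  · rintro ⟨c, hc, rfl⟩
    exact ⟨c, by rw [Multiset.mem_toFinset, mem_roots h0]; exact hc, rfl⟩

lemma crit_enum (hP : 1 ≤ P.natDegree) : ∃ cc : Fin (cvs P).card → ℂ,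
    (∀ u, (derivative P).eval (cc u) = 0) ∧
    ∀ c, (derivative P).eval c = 0 → ∃ u, P.eval c = P.eval (cc u) := by
  have h1 : ∀ u : Fin (cvs P).card, ∃ c, (derivative P).eval c = 0 ∧
      P.eval c = ((cvs P).equivFin.symm u : ℂ) := by
    intro u
    exact (mem_cvs hP).1 ((cvs P).equivFin.symm u).2
  choose cc hcc1 hcc2 using h1
  refine ⟨cc, hcc1, fun c hc => ?_⟩
  refine ⟨(cvs P).equivFin ⟨P.eval c, (mem_cvs hP).2 ⟨c, hc, rfl⟩⟩, ?_⟩
  rw [hcc2, Equiv.symm_apply_apply]

theorem VV_inj (hP : P.natDegree = d) (hd : 2 ≤ d) {cc : Fin (cvs P).card → ℂ}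
    (hcc1 : ∀ u, (derivative P).eval (cc u) = 0)
    (hcc2 : ∀ c, (derivative P).eval c = 0 → ∃ u, P.eval c = P.eval (cc u))
    {S : ℂ[X]} (hS : S ∈ VV P d) (h0 : ∀ u, S.eval (cc u) = 0) : S = 0 := by
  rw [mem_VV] at hS
  obtain ⟨h1, h2, h3⟩ := hS
  by_contra hne
  have h4 : ∀ c, (derivative P).eval c = 0 → S.eval c = 0 := by
    intro c hc
    obtain ⟨u, hu⟩ := hcc2 c hc
    rw [h3 c (cc u) hc (hcc1 u) hu]
    exact h0 u
  have hN0 : derivative P ≠ 0 := by
    rw [derivative_ne_zero]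
    omega
  have h5 : (derivative P).roots ≤ S.roots := by
    rw [Multiset.le_iff_count]
    intro c
    rw [count_roots, count_roots]
    by_cases hc : (derivative P).eval c = 0
    · rw [le_rootMultiplicity_iff hne]
      have := h2 c
      rwa [h4 c hc, C_0, sub_zero] at this
    · have : rootMultiplicity c (derivative P) = 0 := rootMultiplicity_eq_zero hc
      rw [this]
      exact Nat.zero_le _
  have h6 := Multiset.card_le_card h5
  rw [IsAlgClosed.card_roots_eq_natDegree, IsAlgClosed.card_roots_eq_natDegree] at h6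
  have h7 : (derivative P).natDegree = d - 1 := by
    rw [natDegree_derivative, hP]
  omega

/-- The linear functionals on the space of the infinitesimal deformations. -/
theorem factor (hP : P.natDegree = d) (hd : 2 ≤ d) {cc : Fin (cvs P).card → ℂ}
    (hcc1 : ∀ u, (derivative P).eval (cc u) = 0)
    (hcc2 : ∀ c, (derivative P).eval c = 0 → ∃ u, P.eval c = P.eval (cc u)) :
    ∃ (r : (ℂ[X] →ₗ[ℂ] ℂ) →ₗ[ℂ] (Fin (cvs P).card → ℂ)) (p : Fin (cvs P).card → ℂ[X]),
      (∀ ℓ u, r ℓ u = ℓ (p u)) ∧ ∀ ℓ, ∀ S ∈ VV P d, ℓ S = ∑ u, r ℓ u * S.eval (cc u) := by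
  classical
  obtain ⟨ev, hev⟩ : ∃ ev : ℂ[X] →ₗ[ℂ] (Fin (cvs P).card → ℂ), ∀ S u, ev S u = S.eval (cc u) :=
    ⟨LinearMap.pi fun u => leval (cc u), fun S u => rfl⟩
  have hker : LinearMap.ker (ev.domRestrict (VV P d)) = ⊥ := by
    rw [LinearMap.ker_eq_bot']
    rintro ⟨S, hS⟩ h0
    rw [LinearMap.domRestrict_apply] at h0
    have : S = 0 := VV_inj hP hd hcc1 hcc2 hS fun u => by
      rw [← hev S u, h0]
      rfl
    exact Subtype.ext this
  obtain ⟨s, hs⟩ := LinearMap.exists_leftInverse_of_injective _ hker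
  have hs' : ∀ S (hS : S ∈ VV P d), ((s (ev S) : VV P d) : ℂ[X]) = S := by
    intro S hS
    have := congrArg (fun f : (VV P d) →ₗ[ℂ] (VV P d) => ((f ⟨S, hS⟩ : VV P d) : ℂ[X])) hs
    simpa using this
  refine ⟨{ toFun := fun ℓ u => ℓ ((s (Pi.single u 1) : VV P d) : ℂ[X])
            map_add' := fun ℓ ℓ' => by ext u; simp
            map_smul' := fun a ℓ => by ext u; simp },
    fun u => ((s (Pi.single u 1) : VV P d) : ℂ[X]), fun ℓ u => rfl, ?_⟩
  intro ℓ S hS
  conv_lhs => rw [← hs' S hS]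
  have h1 : ev S = ∑ u, (ev S u) • (Pi.single u (1 : ℂ) : Fin (cvs P).card → ℂ) := by
    conv_lhs => rw [← Finset.univ_sum_single (ev S)]
    refine Finset.sum_congr rfl fun u _ => ?_
    rw [← Pi.single_smul, smul_eq_mul, mul_one]
  rw [h1, map_sum, Submodule.coe_sum, map_sum]
  refine Finset.sum_congr rfl fun u _ => ?_
  rw [map_smul, Submodule.coe_smul, map_smul, smul_eq_mul, hev, mul_comm]
  rfl

/-- The infinitesimal deformation defined by an invariant line field belongs to the space. -/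
theorem Smu_mem {μ : ℂ → ℂ} (D : Dat P 1 d) (hP : P.natDegree = d) (hd : 2 ≤ d)
    {S : ℂ[X]} (hS : ∀ Λ : ℂ[X] →ₗ[ℂ] ℂ, Λ S = ∫ x, μ x * Λ (SP P 1 d x)) : S ∈ VV P d := by
  by_contra hcon
  obtain ⟨Λ, h1, h2⟩ := Submodule.exists_le_ker_of_notMem hcon
  apply h1
  rw [hS Λ]
  have h3 : ∀ᵐ x : ℂ, μ x * Λ (SP P 1 d x) = 0 := by
    have h4 : ∀ᵐ x : ℂ, x ∉ cvs P := by
      rw [ae_iff]
      simp only [not_not]
      exact Set.Finite.measure_zero (cvs P).finite_toSet _
    filter_upwards [gen_ae D, h4] with x hx hxc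
    have h5 : SP P 1 d x ∈ VV P d := SP_mem D hP hd hx fun c hc hcx => hxc
      ((mem_cvs (by omega)).2 ⟨c, hc, hcx⟩)
    have h6 : Λ (SP P 1 d x) = 0 := h2 h5
    rw [h6, mul_zero]
  rw [integral_congr_ae h3, integral_zero]

end Pool.Agent.Zk29.Rat
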