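import Pool.Agent.Zk29.Rat.Dom

/-!
# The push-forward of quadratic differentials by rational maps
-/

set_option autoImplicit false
open Set Filter Topology Metric MeasureTheory Polynomial
open scoped ENNReal

namespace Pool.Agent.Zk29.Rat

open Pool.Agent.H792R2.CE

/-- The push-forward of `q` by `P / Q`. -/
noncomputable def push (P Q : ℂ[X]) (q : ℂ → ℂ) (x : ℂ) : ℂ :=
  ∑ w ∈ (P - C x * Q).roots.toFinset, Q.eval w ^ 4 / (wr P Q).eval w ^ 2 * q w

variable {P Q : ℂ[X]} {U : Set ℂ}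

open D4x in
/-- A measurable majorant of the push-forward of a positive function. -/
theorem major (hc : IsCoprime P Q) {u : ℂ → ℝ≥0∞} (hu : Measurable u) :
    ∃ T : ℂ → ℝ≥0∞, Measurable T ∧
      (∀ x, ∑ w ∈ (P - C x * Q).roots.toFinset,
        ‖Q.eval w ^ 4 / (wr P Q).eval w ^ 2‖ₑ * u w ≤ T x) ∧
      ∀ A, MeasurableSet A → ∫⁻ x in A, T x ≤ ∫⁻ w in rf P Q ⁻¹' A, u w := by
  obtain ⟨t, hdisj, hmeas, hcov, hinj⟩ := partition P Q
  have hVm := measurableSet_V P Q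
  have hm : ∀ n, MeasurableSet (V P Q ∩ t n) := fun n => hVm.inter (hmeas n)
  have hG : ∀ n, Measurable (G P Q u (V P Q ∩ t n)) :=
    fun n => measurable_G hu (hm n) inter_subset_left (hinj n)
  refine ⟨fun x => ∑' n, G P Q u (V P Q ∩ t n) x, ?_, fun x => sum_le hc hcov hinj x, ?_⟩
  · exact Measurable.tsum hG
  · intro A hA
    calc ∫⁻ x in A, ∑' n, G P Q u (V P Q ∩ t n) x
        = ∑' n, ∫⁻ x in A, G P Q u (V P Q ∩ t n) x :=
          lintegral_tsum (fun n => (hG n).aemeasurable)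
      _ = ∑' n, ∫⁻ w in (V P Q ∩ t n) ∩ rf P Q ⁻¹' A, u w := by
          congr 1
          ext n
          exact int_G (hm n) inter_subset_left (hinj n) hA
      _ = ∫⁻ w in ⋃ n, (V P Q ∩ t n) ∩ rf P Q ⁻¹' A, u w := by
          rw [lintegral_iUnion (fun n => (hm n).inter (measurable_rf P Q hA))]
          intro i j hij
          exact (hdisj hij).mono (fun x hx => hx.1.2) (fun x hx => hx.1.2)
      _ ≤ ∫⁻ w in rf P Q ⁻¹' A, u w :=
          lintegral_mono_set (iUnion_subset (fun n => inter_subset_right))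

lemma enorm_push_le (q : ℂ → ℂ) (x : ℂ) : ‖push P Q q x‖ₑ ≤
    ∑ w ∈ (P - C x * Q).roots.toFinset, ‖Q.eval w ^ 4 / (wr P Q).eval w ^ 2‖ₑ * ‖q w‖ₑ := by
  unfold push
  refine (enorm_sum_le _ _).trans (Finset.sum_le_sum fun w _ => ?_)
  rw [enorm_mul]

lemma pole_null (hQ : Q ≠ 0) : volume {z : ℂ | Q.eval z = 0} = 0 := by
  refine Set.Finite.measure_zero ?_ _
  have h : {z : ℂ | Q.eval z = 0} = (Q.roots.toFinset : Set ℂ) := by
    ext z
    rw [Finset.mem_coe, Multiset.mem_toFinset, Polynomial.mem_roots hQ]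
    rfl
  rw [h]
  exact Finset.finite_toSet _

lemma QQ_fin (R : ℝ) (J : ℕ) (a α : ℕ → ℂ) : ∫⁻ w in ball (0 : ℂ) R, ‖QQ J a α w‖ₑ ≠ ⊤ := by
  obtain ⟨C, hC, hk⟩ := D3a_kernel R
  have h1 : ∫⁻ w in ball (0 : ℂ) R, ‖QQ J a α w‖ₑ ≤ ∑ j ∈ Finset.range J, ‖α j‖ₑ * C := by
    calc ∫⁻ w in ball (0 : ℂ) R, ‖QQ J a α w‖ₑ
        ≤ ∫⁻ w in ball (0 : ℂ) R, ∑ j ∈ Finset.range J, ‖α j‖ₑ * ‖(w - a j)⁻¹‖ₑ := by
          refine lintegral_mono fun w => (enorm_sum_le _ _).trans (le_of_eq ?_)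
          refine Finset.sum_congr rfl fun j _ => ?_
          rw [div_eq_mul_inv, enorm_mul]
      _ = ∑ j ∈ Finset.range J, ∫⁻ w in ball (0 : ℂ) R, ‖α j‖ₑ * ‖(w - a j)⁻¹‖ₑ := by
          apply lintegral_finsetSum'
          intro j _
          exact ((measurable_id.sub_const (a j)).inv.enorm.const_mul _).aemeasurable
      _ ≤ _ := by
          refine Finset.sum_le_sum fun j _ => ?_
          have hm : Measurable fun w : ℂ => ‖(w - a j)⁻¹‖ₑ :=
            (measurable_id.sub_const (a j)).inv.enorm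
          rw [lintegral_const_mul _ hm]
          gcongr
          exact hk (a j)
  refine ne_top_of_le_ne_top ?_ h1
  exact (ENNReal.sum_lt_top.mpr fun j _ => ENNReal.mul_lt_top enorm_lt_top hC.lt_top).ne

/-- If the push-forward of the quadratic differential is close to it in `U`, then its masses in
the annuli are small. -/
theorem small_of (T : Trap P Q U) (hQ : Q ≠ 0) {J : ℕ} {a α : ℕ → ℂ} {b : ℂ → ℝ≥0∞} {ε : ℝ}
    (hb : ∀ᵐ x : ℂ, x ∈ U → ‖push P Q (QQ J a α) x - QQ J a α x‖ₑ ≤ b x)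
    (hε : ∫⁻ x in U, b x ≤ ENNReal.ofReal ε) : Small (UR P Q U) J a α ε := by
  intro k
  obtain ⟨E, hE⟩ : ∃ E, E = UR P Q U k := ⟨_, rfl⟩
  rw [← hE]
  have hEm : MeasurableSet E := by rw [hE]; exact (T.uopn k).measurableSet
  have hEU : E ⊆ U := by rw [hE]; exact T.sub0 k
  have hqm := measurable_QQ J a α
  obtain ⟨Tm, hTm, hT1, hT2⟩ := major T.cop hqm.enorm
  obtain ⟨R, hR⟩ := T.bdd.exists_norm_le
  have hER : E ⊆ ball 0 (R + 1) := by
    intro z hz
    rw [mem_ball_zero_iff]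
    have := hR z (hEU hz)
    linarith
  have hfin : ∫⁻ w in E, ‖QQ J a α w‖ₑ ≠ ⊤ :=
    ne_top_of_le_ne_top (QQ_fin (R + 1) J a α) (lintegral_mono_set hER)
  have her : ∫⁻ w in E, b w ≤ ENNReal.ofReal ε := (lintegral_mono_set hEU).trans hε
  have key : ∫⁻ w in E, ‖QQ J a α w‖ₑ ≤ (∫⁻ w in UR P Q U (k + 1), ‖QQ J a α w‖ₑ) +
      ENNReal.ofReal ε := by
    calc ∫⁻ w in E, ‖QQ J a α w‖ₑ
        ≤ ∫⁻ w in E, (Tm w + b w) := by
          apply lintegral_mono_ae
          rw [ae_restrict_iff' hEm]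
          filter_upwards [hb] with w hw hwE
          have h1 := hw (hEU hwE)
          have h2 : QQ J a α w = push P Q (QQ J a α) w -
            (push P Q (QQ J a α) w - QQ J a α w) := by ring
          calc ‖QQ J a α w‖ₑ = ‖push P Q (QQ J a α) w -
                (push P Q (QQ J a α) w - QQ J a α w)‖ₑ := by rw [← h2]
            _ ≤ ‖push P Q (QQ J a α) w‖ₑ + ‖push P Q (QQ J a α) w - QQ J a α w‖ₑ :=
                enorm_sub_le
            _ ≤ _ := add_le_add ((enorm_push_le _ _).trans (hT1 w)) h1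
      _ = (∫⁻ w in E, Tm w) + ∫⁻ w in E, b w := lintegral_add_left hTm _
      _ ≤ _ := by
          refine add_le_add ((hT2 E hEm).trans ?_) her
          have hsub : rf P Q ⁻¹' E ⊆ UR P Q U (k + 1) ∪ {z : ℂ | Q.eval z = 0} := by
            intro z hz
            by_cases h0 : Q.eval z = 0
            · exact Or.inr h0
            · refine Or.inl ⟨h0, ?_⟩
              rw [← hE]
              exact hz
          calc ∫⁻ w in rf P Q ⁻¹' E, ‖QQ J a α w‖ₑ
              ≤ ∫⁻ w in UR P Q U (k + 1) ∪ {z : ℂ | Q.eval z = 0}, ‖QQ J a α w‖ₑ :=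
                lintegral_mono_set hsub
            _ ≤ (∫⁻ w in UR P Q U (k + 1), ‖QQ J a α w‖ₑ) +
                ∫⁻ w in {z : ℂ | Q.eval z = 0}, ‖QQ J a α w‖ₑ := lintegral_union_le _ _ _
            _ = _ := by rw [setLIntegral_measure_zero _ _ (pole_null hQ), add_zero]
  have hsub : UR P Q U (k + 1) ⊆ E := by rw [hE]; exact T.anti k
  have h3 : (∫⁻ w in UR P Q U (k + 1), ‖QQ J a α w‖ₑ) +
      ∫⁻ w in E \ UR P Q U (k + 1), ‖QQ J a α w‖ₑ ≤
      (∫⁻ w in UR P Q U (k + 1), ‖QQ J a α w‖ₑ) + ENNReal.ofReal ε := by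
    have h4 := lintegral_inter_add_sdiff (μ := volume) (fun w => ‖QQ J a α w‖ₑ) E
      (T.uopn (k + 1)).measurableSet
    rw [inter_eq_right.mpr hsub] at h4
    rw [h4]
    exact key
  refine ENNReal.le_of_add_le_add_left ?_ h3
  exact ne_top_of_le_ne_top hfin (lintegral_mono_set hsub)

end Pool.Agent.Zk29.Rat
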