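import Pool.Agent.Zk29.Rat.Pol

/-!
# Rigidity of the infinitesimal deformations of polynomials
-/

set_option autoImplicit false
open Set Filter Topology Metric MeasureTheory Polynomial
open scoped ENNReal

namespace Pool.Agent.Zk29.Rat

open Pool.Agent.H792R2.CE

variable {P : ℂ[X]} {R : ℝ}

/-- `R` is an escape radius. -/
structure Esc (P : ℂ[X]) (R : ℝ) : Prop where
  one : 1 ≤ R
  big : ∀ z, R ≤ ‖z‖ → 2 * ‖z‖ ≤ ‖P.eval z‖
  der : ∀ z, R ≤ ‖z‖ → 2 ≤ ‖(derivative P).eval z‖

lemma large (G : ℂ[X]) (hG : 1 ≤ G.natDegree) (b : ℝ) : ∃ R : ℝ, ∀ z : ℂ, R ≤ ‖z‖ →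
    b ≤ ‖G.eval z‖ := by
  have h1 : Tendsto (fun z : ℂ => ‖G.eval z‖) (Bornology.cobounded ℂ) atTop := by
    refine Polynomial.tendsto_norm_atTop G ?_ ?_
    · rw [← Polynomial.natDegree_pos_iff_degree_pos]
      exact hG
    · exact tendsto_norm_cobounded_atTop
  have h2 := h1.eventually (eventually_ge_atTop b)
  rw [(hasBasis_cobounded_norm (E := ℂ)).eventually_iff] at h2
  obtain ⟨r, -, hr⟩ := h2
  exact ⟨r, fun z hz => hr hz⟩

theorem exists_esc (hP : 2 ≤ P.natDegree) : ∃ R₀ : ℝ, ∀ R, R₀ ≤ R → Esc P R := by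
  obtain ⟨R1, h1⟩ := large (divX P) (by rw [natDegree_divX_eq_natDegree_tsub_one]; omega) 3
  obtain ⟨R2, h2⟩ := large (derivative P) (by rw [natDegree_derivative]; omega) 2
  refine ⟨max (max R1 R2) (max 1 ‖P.coeff 0‖), fun R hR => ⟨?_, fun z hz => ?_, fun z hz => ?_⟩⟩
  · exact (le_max_left _ _).trans ((le_max_right _ _).trans hR)
  · have h3 : R1 ≤ ‖z‖ := ((le_max_left _ _).trans (le_max_left _ _)).trans (hR.trans hz)
    have h4 : ‖P.coeff 0‖ ≤ ‖z‖ := ((le_max_right _ _).trans (le_max_right _ _)).trans (hR.trans hz)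
    have h5 := h1 z h3
    have h6 : P.eval z = (divX P).eval z * z + P.coeff 0 := by
      conv_lhs => rw [← divX_mul_X_add P]
      rw [eval_add, eval_mul, eval_X, eval_C]
    have h7 : ‖(divX P).eval z * z‖ - ‖P.coeff 0‖ ≤ ‖P.eval z‖ := by
      rw [h6]
      have := norm_sub_le ((divX P).eval z * z + P.coeff 0) (P.coeff 0)
      rw [add_sub_cancel_right] at this
      linarith
    rw [norm_mul] at h7
    nlinarith [norm_nonneg z]
  · exact h2 z (((le_max_right _ _).trans (le_max_left _ _)).trans (hR.trans hz))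

theorem Esc.trap (hE : Esc P R) : Trap P 1 (ball 0 R) := by
  refine ⟨isCoprime_one_right, isOpen_ball, isBounded_ball, ?_⟩
  intro z hz
  have h1 : ‖P.eval z‖ ≤ R := by
    have h2 : IsClosed {w : ℂ | ‖P.eval w‖ ≤ R} := isClosed_le P.continuous.norm continuous_const
    refine h2.closure_subset_iff.2 ?_ hz
    rintro w ⟨-, hw⟩
    rw [rf_one, mem_ball_zero_iff] at hw
    exact hw.le
  rw [mem_ball_zero_iff]
  by_contra hcon
  push Not at hcon
  have h2 := hE.big z hcon
  have h3 := hE.one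
  linarith

lemma rf_one_fun (P : ℂ[X]) : rf P 1 = fun z => P.eval z := by
  ext z
  exact rf_one P z

lemma mem_UR {k : ℕ} {z : ℂ} : z ∈ UR P 1 (ball 0 R) k ↔
    ‖(fun w : ℂ => P.eval w)^[k] z‖ < R := by
  induction k generalizing z with
  | zero => rw [Function.iterate_zero, id]; exact mem_ball_zero_iff
  | succ k ih =>
    rw [Function.iterate_succ_apply]
    constructor
    · rintro ⟨-, h⟩
      rw [rf_one] at h
      exact ih.1 h
    · intro h
      refine ⟨by simp, ?_⟩
      rw [rf_one]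
      exact ih.2 h

lemma mem_KR {z : ℂ} : z ∈ KR P 1 (ball 0 R) ↔
    ∀ k, ‖(fun w : ℂ => P.eval w)^[k] z‖ < R := by
  unfold KR
  rw [mem_iInter]
  exact forall_congr' fun k => mem_UR

/-- The filled Julia set. -/
theorem KR_filled (hE : Esc P R) : KR P 1 (ball 0 R) =
    {z : ℂ | ¬ Tendsto (fun k : ℕ => ‖(fun w : ℂ => P.eval w)^[k] z‖) atTop atTop} := by
  ext z
  rw [mem_KR, mem_ofPred_eq]
  constructor
  · intro h hcon
    obtain ⟨k, hk⟩ := (hcon.eventually (eventually_ge_atTop R)).exists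
    exact absurd (h k) (not_lt.2 hk)
  · intro h k
    by_contra hcon
    push Not at hcon
    apply h
    have h1 : ∀ n : ℕ, R ≤ ‖(fun w : ℂ => P.eval w)^[n + k] z‖ ∧
        (n : ℝ) ≤ ‖(fun w : ℂ => P.eval w)^[n + k] z‖ := by
      intro n
      induction n with
      | zero =>
        rw [zero_add]
        exact ⟨hcon, by rw [Nat.cast_zero]; exact norm_nonneg _⟩
      | succ n ih =>
        have h2 := hE.big _ ih.1
        have h3 := hE.one
        have h4 : (fun w : ℂ => P.eval w)^[n + 1 + k] z =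
            P.eval ((fun w : ℂ => P.eval w)^[n + k] z) := by
          rw [show n + 1 + k = (n + k) + 1 by ring, Function.iterate_succ_apply']
        rw [h4]
        push_cast
        constructor
        · linarith [ih.1]
        · linarith [ih.1, ih.2]
    rw [← tendsto_add_atTop_iff_nat k]
    exact tendsto_atTop_mono (fun n => (h1 n).2) tendsto_natCast_atTop_atTop

variable {μ : ℂ → ℂ}

theorem rigid_out (hE : Esc P R) (hB : ∃ C : ℝ, 0 ≤ C ∧ ∀ a, ‖cau μ a‖ ≤ C)
    (hv : ∀ z, (derivative P).eval z * cau μ z = cau μ (P.eval z)) {a : ℂ} (ha : R ≤ ‖a‖) :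
    cau μ a = 0 := by
  obtain ⟨C, hC0, hC⟩ := hB
  have h1 : ∀ n : ℕ, ∀ a : ℂ, R ≤ ‖a‖ → ‖cau μ a‖ ≤ C * (1 / 2) ^ n := by
    intro n
    induction n with
    | zero =>
      intro a _
      rw [pow_zero, mul_one]
      exact hC a
    | succ n ih =>
      intro a ha
      have h2 := hE.big a ha
      have h3 := hE.one
      have h4 := ih (P.eval a) (by linarith)
      have h5 := hE.der a ha
      have h6 := hv a
      rw [← h6, norm_mul] at h4
      have h7 : 2 * ‖cau μ a‖ ≤ C * (1 / 2) ^ n := by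
        refine le_trans ?_ h4
        gcongr
      rw [pow_succ]
      linarith
  have h2 : Tendsto (fun n : ℕ => C * (1 / 2 : ℝ) ^ n) atTop (𝓝 0) := by
    have := (tendsto_pow_atTop_nhds_zero_of_lt_one (r := (1 / 2 : ℝ)) (by norm_num)
      (by norm_num)).const_mul C
    rwa [mul_zero] at this
  have h3 : ‖cau μ a‖ ≤ 0 := ge_of_tendsto' h2 fun n => h1 n a ha
  exact norm_le_zero_iff.1 h3

theorem rigid_esc (hP : 1 ≤ P.natDegree) (hE : Esc P R)
    (hB : ∃ C : ℝ, 0 ≤ C ∧ ∀ a, ‖cau μ a‖ ≤ C) (hc : Continuous (cau μ))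
    (hv : ∀ z, (derivative P).eval z * cau μ z = cau μ (P.eval z)) (n : ℕ) {a : ℂ}
    (ha : R < ‖(fun w : ℂ => P.eval w)^[n] a‖) : cau μ a = 0 := by
  induction n generalizing a with
  | zero => exact rigid_out hE hB hv (le_of_lt ha)
  | succ n ih =>
    have h1 : ∀ b : ℂ, R < ‖(fun w : ℂ => P.eval w)^[n + 1] b‖ → (derivative P).eval b ≠ 0 →
        cau μ b = 0 := by
      intro b hb hb'
      rw [Function.iterate_succ_apply] at hb
      have h2 := ih hb
      have h3 := hv b
      rw [h2, mul_eq_zero] at h3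
      exact h3.resolve_left hb'
    by_cases h0 : (derivative P).eval a = 0
    · have hne : derivative P ≠ 0 := by
        rw [derivative_ne_zero]
        omega
      have hop : IsOpen {b : ℂ | R < ‖(fun w : ℂ => P.eval w)^[n + 1] b‖} :=
        isOpen_lt continuous_const (P.continuous.iterate (n + 1)).norm
      have h4 : ∀ᶠ b in 𝓝[≠] a, cau μ b = 0 := by
        have h5 : ∀ᶠ b in 𝓝[≠] a, (derivative P).eval b ≠ 0 := by
          have h6 : ∀ᶠ b in 𝓝[≠] a, b ∉ ((derivative P).roots.toFinset.erase a : Finset ℂ) := by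
            have h7 : IsClosed (((derivative P).roots.toFinset.erase a : Finset ℂ) : Set ℂ) :=
              (Finset.finite_toSet _).isClosed
            have h8 : ∀ᶠ b in 𝓝 a, b ∉ ((derivative P).roots.toFinset.erase a : Finset ℂ) := by
              refine h7.isOpen_compl.mem_nhds ?_
              simp
            exact h8.filter_mono nhdsWithin_le_nhds
          filter_upwards [h6, self_mem_nhdsWithin] with b hb hba h8
          apply hb
          rw [Finset.mem_erase]
          exact ⟨hba, by rw [Multiset.mem_toFinset, mem_roots hne]; exact h8⟩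
        have h7 : ∀ᶠ b in 𝓝 a, R < ‖(fun w : ℂ => P.eval w)^[n + 1] b‖ := hop.mem_nhds ha
        have h6 := h7.filter_mono (nhdsWithin_le_nhds (s := {a}ᶜ))
        filter_upwards [h5, h6] with b hb hb'
        exact h1 b hb' hb
      have h5 : Tendsto (cau μ) (𝓝[≠] a) (𝓝 (cau μ a)) := hc.continuousAt.mono_left
        nhdsWithin_le_nhds
      have h6 : Tendsto (cau μ) (𝓝[≠] a) (𝓝 0) :=
        Tendsto.congr' (EventuallyEq.symm h4) tendsto_const_nhds
      exact tendsto_nhds_unique h5 h6
    · exact h1 a ha h0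

/-- **Rigidity.** -/
theorem rigid (hP : 1 ≤ P.natDegree) (hE : Esc P R) (hμ : Bel μ (KR P 1 (ball 0 R)))
    (hoff : ∀ z ∈ interior (KR P 1 (ball 0 R)), μ z = 0)
    (hv : ∀ z, (derivative P).eval z * cau μ z = cau μ (P.eval z)) : ∀ᵐ z, μ z = 0 := by
  have hK : IsCompact (KR P 1 (ball 0 R)) := hμ.cpt
  have hc := cau_cont hμ
  have hB := cau_bdd hμ
  have hesc : ∀ a, a ∉ KR P 1 (ball 0 R) → cau μ a = 0 := by
    intro a ha
    rw [mem_KR] at ha
    push Not at ha
    obtain ⟨k, hk⟩ := ha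
    refine rigid_esc hP hE hB hc hv (k + 1) ?_
    rw [Function.iterate_succ_apply']
    have h1 := hE.big _ hk
    have h2 := hE.one
    change R < ‖P.eval _‖
    linarith
  have hcl : ∀ a ∈ closure (KR P 1 (ball 0 R))ᶜ, cau μ a = 0 := by
    have h1 : IsClosed {a | cau μ a = 0} := isClosed_eq hc continuous_const
    exact h1.closure_subset_iff.2 hesc
  have hbel : Bel μ (frontier (KR P 1 (ball 0 R))) := by
    refine ⟨hK.of_isClosed_subset isClosed_frontier hK.isClosed.frontier_subset, hμ.meas, hμ.bdd,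
      fun z hz => ?_⟩
    by_cases hzK : z ∈ KR P 1 (ball 0 R)
    · apply hoff
      by_contra hcon
      exact hz ⟨subset_closure hzK, hcon⟩
    · exact hμ.off z hzK
  have hint : ∀ a ∈ interior (KR P 1 (ball 0 R)), cau μ a = 0 := by
    have h1 : DiffContOnCl ℂ (cau μ) (interior (KR P 1 (ball 0 R))) := by
      refine ⟨fun a ha => ?_, hc.continuousOn⟩
      refine (cau_diff hbel ?_).differentiableWithinAt
      exact fun h => h.2 ha
    have h2 : DiffContOnCl ℂ (fun _ : ℂ => (0 : ℂ)) (interior (KR P 1 (ball 0 R))) :=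
      diffContOnCl_const
    have h3 := Complex.eqOn_closure_of_eqOn_frontier
      (hK.isBounded.subset interior_subset) h1 h2 (fun a ha => by
        apply hcl
        have h4 := frontier_interior_subset ha
        rw [frontier_eq_closure_inter_closure] at h4
        exact h4.2)
    intro a ha
    exact h3 (subset_closure ha)
  apply cau_inj hμ
  intro a
  by_cases ha : a ∈ interior (KR P 1 (ball 0 R))
  · exact hint a ha
  · apply hcl
    rw [closure_compl]
    exact ha

end Pool.Agent.Zk29.Rat
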